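import Pool.Agent.Helper83.Traps.Disc6

open MeasureTheory ProbabilityTheory Filter Finset
open scoped ENNReal Topology

namespace Pool.Agent.Helper83.Traps

variable {d m : ℕ}
variable {Q : Measure (ℕ → Fin m → Fin d → ℤ)} {CY CY2 ν γ θ : ℝ}

/-- survival weight of one path -/
noncomputable def sv1 (Q : Measure (ℕ → Fin m → Fin d → ℤ)) (ν β : ℝ) (T : ℕ)
    (b : ℕ → Fin m → Fin d → ℤ) : ℝ≥0∞ := ENNReal.ofReal (Real.exp (-(ν * (Wf Q β T b).toReal)))

/-- survival weight of two paths -/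
noncomputable def sv2 (Q : Measure (ℕ → Fin m → Fin d → ℤ)) (ν β : ℝ) (T : ℕ)
    (b c : ℕ → Fin m → Fin d → ℤ) : ℝ≥0∞ :=
  ENNReal.ofReal (Real.exp (-(ν * (Wf2 Q β T b c).toReal)))

lemma measurable_sv1 [SFinite Q] (ν β : ℝ) (T : ℕ) : Measurable (sv1 Q ν β T) :=
  (Real.measurable_exp.comp ((measurable_Wf β T).ennreal_toReal.const_mul ν).neg).ennreal_ofReal

lemma Phi2_le (β : ℝ) (hβ : 0 ≤ β) (T : ℕ) (e e' : ℕ → Fin m → Fin d → ℤ) :
    Phi2 β T e e' ≤ Phi β T e + Phi β T e' := by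
  unfold Phi Phi2
  rw [← ENNReal.tsum_add]
  refine ENNReal.tsum_le_tsum fun y => ?_
  have h1 : ∀ e : ℕ → Fin m → Fin d → ℤ, 0 ≤ ∑ i ∈ range T, β * (vis e i y : ℝ) := fun e =>
    Finset.sum_nonneg fun i _ => by positivity
  rw [← ENNReal.ofReal_add (one_sub_exp_nonneg (h1 e)) (one_sub_exp_nonneg (h1 e'))]
  apply ENNReal.ofReal_le_ofReal
  have h2 := one_sub_exp_nonneg (h1 e)
  have h3 := one_sub_exp_nonneg (h1 e')
  rw [neg_add, Real.exp_add]
  nlinarith [mul_nonneg h2 h3]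

lemma Wf2_ne_top [IsProbabilityMeasure Q] {β : ℝ} (hβ : 0 ≤ β) (T : ℕ)
    (b c : ℕ → Fin m → Fin d → ℤ) : Wf2 Q β T b c ≠ ⊤ := by
  have h : Wf2 Q β T b c ≤ Wf Q β T b + Wf Q β T c := by
    unfold Wf2 Wf
    have hm1 : Measurable fun b' : ℕ → Fin m → Fin d → ℤ => Phi β T (b - b') :=
      (measurable_Phi β T).comp (measurable_const.sub measurable_id)
    rw [← lintegral_add_left hm1]
    exact lintegral_mono fun b' => Phi2_le β hβ T _ _
  exact ne_top_of_le_ne_top (ENNReal.add_ne_top.2 ⟨Wf_ne_top hβ T b, Wf_ne_top hβ T c⟩) h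

lemma sv2_le [IsProbabilityMeasure Q] (hQ : TrapLaw Q CY CY2) (P : Par m ν γ θ CY) (T : ℕ)
    (b c : ℕ → Fin m → Fin d → ℤ) :
    sv2 Q ν (γ / m) T b c ≤ sv1 Q ν (γ / m) T b * sv1 Q ν (γ / m) T c *
      ∏ j ∈ range T, (1 + ex ν (Jf Q (γ / m) T c j (∑ k ∈ range j, del (b k)) (b j))) := by
  have hm0 : (0 : ℝ) < m := by exact_mod_cast P.hm
  have hγ := P.hγ
  have hν := P.hν
  have hβ : 0 ≤ γ / m := by positivity
  have hJ : ∀ j ∈ range T, Jf Q (γ / m) T c j (∑ k ∈ range j, del (b k)) (b j) ≠ ⊤ :=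
    fun j _ => Jf_ne_top hQ P.hm T c j _ _
  have h1 : (Wf Q (γ / m) T b).toReal + (Wf Q (γ / m) T c).toReal ≤
      (Wf2 Q (γ / m) T b c).toReal +
        ∑ j ∈ range T, (Jf Q (γ / m) T c j (∑ k ∈ range j, del (b k)) (b j)).toReal := by
    rw [← ENNReal.toReal_sum hJ, ← ENNReal.toReal_add (Wf_ne_top hβ T b) (Wf_ne_top hβ T c),
      ← ENNReal.toReal_add (Wf2_ne_top hβ T b c) (ENNReal.sum_ne_top.2 hJ)]
    exact ENNReal.toReal_mono (ENNReal.add_ne_top.2
      ⟨Wf2_ne_top hβ T b c, ENNReal.sum_ne_top.2 hJ⟩) (Wf_add_Wf_le hβ T b c)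
  unfold sv2 sv1
  simp only [one_add_ex hν]
  rw [← ENNReal.ofReal_prod_of_nonneg fun _ _ => (Real.exp_pos _).le, ← Real.exp_sum,
    ← ENNReal.ofReal_mul (Real.exp_pos _).le, ← Real.exp_add,
    ← ENNReal.ofReal_mul (Real.exp_pos _).le, ← Real.exp_add, ← Finset.mul_sum]
  apply ENNReal.ofReal_le_ofReal
  apply Real.exp_le_exp.2
  nlinarith

variable [IsProbabilityMeasure Q] {μ : Measure (Fin m → Fin d → ℤ)} [IsProbabilityMeasure μ]
  {K : ℝ≥0∞} {CX C0 : ℝ}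

/-- the coefficient sequence for the perturbation bound -/
noncomputable def etaf (θ CX C0 CY : ℝ) (r : ℕ) : ℝ≥0∞ :=
  ENNReal.ofReal (4 * θ * (Cone CX C0 + CY) * ((r : ℝ) + 1) ^ (-(3 / 2) : ℝ))

lemma tsum_etaf (hθ : 0 ≤ θ) (hCX : 0 ≤ CX) (hC0 : 0 ≤ C0) (hCY : 0 ≤ CY) :
    ∑' r, etaf θ CX C0 CY r = ENNReal.ofReal (4 * θ * (Cone CX C0 + CY)) * zet := by
  unfold zet etaf Cone
  rw [← ENNReal.tsum_mul_left]
  refine tsum_congr fun s => ?_
  rw [← ENNReal.ofReal_mul (by positivity)]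

lemma disc_eta (hQ : TrapLaw Q CY CY2) (P : Par m ν γ θ CY) (hμ : WalkLaw μ K CX)
    (hC0 : TruncC C0) (T : ℕ) (c : ℕ → Fin m → Fin d → ℤ) {i j : ℕ} (x : Fin d → ℤ) :
    ∫⁻ b, (mkSys hQ P).w i j b *
      ex ν (Jf Q (γ / m) T c j (x + (mkDisp hQ P hμ).sm i j b) (b j)) ∂PP μ ≤
      etaf θ CX C0 CY (j - i) * (mkSys hQ P).A μ i j := by
  have hCY := hQ.one_le
  have hθ0 := P.θ_nonneg
  have hν := P.hν
  have hCX := hμ.nonneg
  have hC0' := hC0.1
  set S := mkSys hQ P with hS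
  set X := mkDisp hQ P hμ with hX
  have hmpr : ∀ (i' : ℕ) (l l' : Fin m), Measurable fun b : ℕ → Fin m → Fin d → ℤ =>
      S.w i j b * pr Q i' l' j l (x + X.sm i j b + ipos (b j) l - pos c i' l') := by
    intro i' l l'
    have h1 : Measurable fun b : ℕ → Fin m → Fin d → ℤ =>
        x + X.sm i j b + ipos (b j) l - pos c i' l' :=
      ((measurable_const.add (X.meas_sm i j)).add
        ((measurable_ipos l).comp (measurable_pi_apply j))).sub measurable_const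
    have h2 : Measurable fun b : ℕ → Fin m → Fin d → ℤ =>
        pr Q i' l' j l (x + X.sm i j b + ipos (b j) l - pos c i' l') :=
      (Measurable.of_discrete (f := fun z : Fin d → ℤ => pr Q i' l' j l z)).comp h1
    exact (S.meas_w i j).mul h2
  have hpt : ∀ b, S.w i j b * ex ν (Jf Q (γ / m) T c j (x + X.sm i j b) (b j)) ≤
      ENNReal.ofReal (2 * ν) * (ENNReal.ofReal ((γ / m) ^ 2) * ∑ i' ∈ range T, ∑ l : Fin m,
        ∑ l' : Fin m, S.w i j b *
          pr Q i' l' j l (x + X.sm i j b + ipos (b j) l - pos c i' l')) := by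
    intro b
    calc S.w i j b * ex ν (Jf Q (γ / m) T c j (x + X.sm i j b) (b j))
        ≤ S.w i j b * (ENNReal.ofReal (2 * ν) * Jf Q (γ / m) T c j (x + X.sm i j b) (b j)) :=
          mul_le_mul' le_rfl (ex_le hν (nuJ_le_one hQ P T c j _ _) (Jf_ne_top hQ P.hm T c j _ _))
      _ = _ := by
          unfold Jf
          simp only [← Finset.mul_sum]
          ring
  refine (lintegral_mono hpt).trans ?_
  have hm1 : ∀ (i' : ℕ) (l : Fin m), Measurable fun b : ℕ → Fin m → Fin d → ℤ =>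
      ∑ l' : Fin m, S.w i j b *
        pr Q i' l' j l (x + X.sm i j b + ipos (b j) l - pos c i' l') := fun i' l =>
    Finset.measurable_fun_sum _ fun l' _ => hmpr i' l l'
  have hm2 : ∀ (i' : ℕ), Measurable fun b : ℕ → Fin m → Fin d → ℤ =>
      ∑ l : Fin m, ∑ l' : Fin m, S.w i j b *
        pr Q i' l' j l (x + X.sm i j b + ipos (b j) l - pos c i' l') := fun i' =>
    Finset.measurable_fun_sum _ fun l _ => hm1 i' l
  have hm3 : Measurable fun b : ℕ → Fin m → Fin d → ℤ =>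
      ∑ i' ∈ range T, ∑ l : Fin m, ∑ l' : Fin m, S.w i j b *
        pr Q i' l' j l (x + X.sm i j b + ipos (b j) l - pos c i' l') :=
    Finset.measurable_fun_sum _ fun i' _ => hm2 i'
  rw [lintegral_const_mul _ (hm3.const_mul _), lintegral_const_mul _ hm3,
    lintegral_finsetSum _ fun i' _ => hm2 i']
  have hsum : ∀ i' ∈ range T, ∫⁻ b, ∑ l : Fin m, ∑ l' : Fin m, S.w i j b *
        pr Q i' l' j l (x + X.sm i j b + ipos (b j) l - pos c i' l') ∂PP μ ≤
      ∑ _l : Fin m, ∑ _l' : Fin m, FF (Cone CX C0) CY (j - i) (dst i' j) * S.A μ i j := by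
    intro i' _
    rw [lintegral_finsetSum _ fun l _ => hm1 i' l]
    refine Finset.sum_le_sum fun l _ => ?_
    rw [lintegral_finsetSum _ fun l' _ => hmpr i' l l']
    exact Finset.sum_le_sum fun l' _ => disc_pair hQ P hμ hC0 x _ i' l l'
  calc _ ≤ ENNReal.ofReal (2 * ν) * (ENNReal.ofReal ((γ / m) ^ 2) * ∑ i' ∈ range T,
        ∑ _l : Fin m, ∑ _l' : Fin m, FF (Cone CX C0) CY (j - i) (dst i' j) * S.A μ i j) :=
        mul_le_mul' le_rfl (mul_le_mul' le_rfl (Finset.sum_le_sum hsum))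
    _ = ENNReal.ofReal (2 * ν) * (ENNReal.ofReal (γ ^ 2) * ((∑ i' ∈ range T,
        FF (Cone CX C0) CY (j - i) (dst i' j)) * S.A μ i j)) := by
        rw [Finset.mul_sum]
        simp only [beta_sq P.hm]
        rw [← Finset.mul_sum, Finset.sum_mul]
    _ ≤ ENNReal.ofReal (2 * ν) * (ENNReal.ofReal (γ ^ 2) * ((2 *
        ENNReal.ofReal ((Cone CX C0 + CY) * (((j - i : ℕ) : ℝ) + 1) ^ (-(3 / 2) : ℝ))) *
          S.A μ i j)) := by
        refine mul_le_mul' le_rfl (mul_le_mul' le_rfl (mul_le_mul' ?_ le_rfl))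
        refine (sum_dst_le (FF (Cone CX C0) CY (j - i)) j T).trans ?_
        refine mul_le_mul' le_rfl (tsum_FF_le ?_ (by positivity) (j - i))
        unfold Cone; positivity
    _ = ENNReal.ofReal (4 * (ν * γ ^ 2) * (Cone CX C0 + CY) *
        (((j - i : ℕ) : ℝ) + 1) ^ (-(3 / 2) : ℝ)) * S.A μ i j := by
        have hC : 0 ≤ Cone CX C0 + CY := by unfold Cone; positivity
        rw [← mul_assoc, ← mul_assoc, ← mul_assoc, show (2 : ℝ≥0∞) = ENNReal.ofReal 2 by norm_num,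
          ← ENNReal.ofReal_mul (by positivity), ← ENNReal.ofReal_mul (by positivity),
          ← ENNReal.ofReal_mul (by positivity)]
        congr 2
        ring
    _ ≤ _ := by
        refine mul_le_mul' ?_ le_rfl
        unfold etaf
        apply ENNReal.ofReal_le_ofReal
        have hC : 0 ≤ Cone CX C0 + CY := by unfold Cone; positivity
        have := P.hθ
        gcongr

/-- the averaged one-path weight -/
noncomputable def E1 (Q : Measure (ℕ → Fin m → Fin d → ℤ)) (μ : Measure (Fin m → Fin d → ℤ))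
    [IsProbabilityMeasure μ] (ν β : ℝ) (T : ℕ) : ℝ≥0∞ := ∫⁻ b, sv1 Q ν β T b ∂PP μ

lemma E1_eq (hQ : TrapLaw Q CY CY2) (P : Par m ν γ θ CY) (T : ℕ) :
    E1 Q μ ν (γ / m) T = ENNReal.ofReal (Real.exp (-(ν * γ * T))) * (mkSys hQ P).A μ 0 T := by
  unfold E1 Sys.A
  rw [← lintegral_const_mul _ ((mkSys hQ P).meas_w 0 T)]
  refine lintegral_congr fun b => ?_
  rw [w_eq_exp hQ P T b]
  rfl

/-- **second moment of the displacement, discretised** -/
theorem disc_diffusive (hQ : TrapLaw Q CY CY2) (P : Par m ν γ θ CY) (hμ : WalkLaw μ K CX) (T : ℕ) :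
    ∫⁻ b, (nsq (∑ k ∈ range T, del (b k)) : ℝ≥0∞) * sv1 Q ν (γ / m) T b ∂PP μ ≤
      (112 * K + 6 * ENNReal.ofReal CY2) * T * E1 Q μ ν (γ / m) T := by
  have hCY := hQ.one_le
  have hθ0 := P.θ_nonneg
  set S := mkSys hQ P with hS
  set X := mkDisp hQ P hμ with hX
  have hCq : X.Cq = 7 * K := rfl
  have hCG : X.CG = 3 * ENNReal.ofReal CY2 := rfl
  have hR : ∑' s : ℕ, ((s : ℝ≥0∞) + 1) * S.r s ≤ 1 / 128 := by
    have : ∑' s : ℕ, ((s : ℝ≥0∞) + 1) * S.r s =
        ENNReal.ofReal (2 * (θ * CY)) * zet := tsum_rs (by positivity)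
    rw [this]; exact P.h128
  have hD := X.D_le (V := 16 * X.Cq + 2 * X.CG) (h := 6 * X.Cq + X.CG) (by
    calc _ ≤ (1 / 128) * (4 * X.CG + 16 * X.Cq + 16 * (16 * X.Cq + 2 * X.CG) +
          2 * (6 * X.Cq + X.CG)) := mul_le_mul' hR le_rfl
      _ ≤ (1 / 128) * (128 * (6 * X.Cq + X.CG)) := by
          refine mul_le_mul' le_rfl ?_
          calc 4 * X.CG + 16 * X.Cq + 16 * (16 * X.Cq + 2 * X.CG) + 2 * (6 * X.Cq + X.CG)
              = 284 * X.Cq + 38 * X.CG := by ring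
            _ ≤ 768 * X.Cq + 128 * X.CG := by
                refine add_le_add (mul_le_mul' ?_ le_rfl) (mul_le_mul' ?_ le_rfl)
                · norm_num
                · norm_num
            _ = _ := by ring
      _ = 6 * X.Cq + X.CG := by
          rw [← mul_assoc, one_div, ENNReal.inv_mul_cancel (by simp) (by simp), one_mul])
    (le_of_eq (by ring)) T 0 T (by omega)
  have hpt : ∀ b, (nsq (∑ k ∈ range T, del (b k)) : ℝ≥0∞) * sv1 Q ν (γ / m) T b =
      ENNReal.ofReal (Real.exp (-(ν * γ * T))) * ((nsq (X.sm 0 T b) : ℝ≥0∞) * S.w 0 T b) := by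
    intro b
    have h1 : sv1 Q ν (γ / m) T b = ENNReal.ofReal (Real.exp (-(ν * γ * T))) * S.w 0 T b :=
      (w_eq_exp hQ P T b).symm
    have h2 : X.sm 0 T b = ∑ k ∈ range T, del (b k) := by
      unfold Disp.sm
      rw [Finset.range_eq_Ico]
      rfl
    rw [h1, h2]; ring
  have hmm : Measurable fun b => (nsq (X.sm 0 T b) : ℝ≥0∞) * S.w 0 T b :=
    (Disp.meas_nsq (X.meas_sm 0 T)).mul (S.meas_w 0 T)
  rw [lintegral_congr hpt, lintegral_const_mul _ hmm, E1_eq hQ P T]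
  calc ENNReal.ofReal (Real.exp (-(ν * γ * T))) *
        ∫⁻ b, (nsq (X.sm 0 T b) : ℝ≥0∞) * S.w 0 T b ∂PP μ
      ≤ ENNReal.ofReal (Real.exp (-(ν * γ * T))) *
        ((16 * X.Cq + 2 * X.CG) * ((T - 0 : ℕ) : ℝ≥0∞) * S.A μ 0 T) :=
        mul_le_mul' le_rfl hD
    _ = _ := by
        rw [hCq, hCG, Nat.sub_zero]; ring

/-- **second moment of the survival weight, discretised** -/
theorem disc_second (hQ : TrapLaw Q CY CY2) (P : Par m ν γ θ CY) (hμ : WalkLaw μ K CX)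
    (hC0 : TruncC C0)
    (hη : 12 * (ENNReal.ofReal (4 * θ * (Cone CX C0 + CY)) * zet) ≤ 1) (T : ℕ) :
    ∫⁻ c, ∫⁻ b, sv2 Q ν (γ / m) T b c ∂PP μ ∂PP μ ≤ 2 * E1 Q μ ν (γ / m) T ^ 2 := by
  have hCY := hQ.one_le
  have hθ0 := P.θ_nonneg
  have hCX := hμ.nonneg
  have hC0' := hC0.1
  set S := mkSys hQ P with hS
  set X := mkDisp hQ P hμ with hX
  have hinner : ∀ c, ∫⁻ b, sv2 Q ν (γ / m) T b c ∂PP μ ≤
      sv1 Q ν (γ / m) T c * (2 * E1 Q μ ν (γ / m) T) := by
    intro c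
    have hpert := X.pert_bound (g := fun j x e => ex ν (Jf Q (γ / m) T c j x e))
      (fun k x => (measurable_ex ν).comp (measurable_Jf Q _ T c k x))
      (η := etaf θ CX C0 CY) (by
        rw [tsum_etaf hθ0 hCX hC0'.le (by positivity)]; exact hη) T
      (fun i j _ _ x => disc_eta hQ P hμ hC0 T c x) T 0 (by omega) 0
    have hmf : Measurable fun b => S.w 0 T b * ∏ k ∈ Ico 0 T,
        (1 + ex ν (Jf Q (γ / m) T c k (0 + X.sm 0 k b) (b k))) := by
      have hk : ∀ k, Measurable fun b : ℕ → Fin m → Fin d → ℤ =>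
          ex ν (Jf Q (γ / m) T c k (0 + X.sm 0 k b) (b k)) := fun k =>
        X.meas_g (g := fun x e => ex ν (Jf Q (γ / m) T c k x e))
          (fun x => (measurable_ex ν).comp (measurable_Jf Q _ T c k x)) 0 0 k
      exact (S.meas_w 0 T).mul (Finset.measurable_fun_prod _ fun k _ =>
        measurable_const.add (hk k))
    calc ∫⁻ b, sv2 Q ν (γ / m) T b c ∂PP μ
        ≤ ∫⁻ b, (sv1 Q ν (γ / m) T c * ENNReal.ofReal (Real.exp (-(ν * γ * T)))) *
          (S.w 0 T b * ∏ k ∈ Ico 0 T,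
            (1 + ex ν (Jf Q (γ / m) T c k (0 + X.sm 0 k b) (b k)))) ∂PP μ := by
          refine lintegral_mono fun b => ?_
          refine (sv2_le hQ P T b c).trans (le_of_eq ?_)
          have h1 : sv1 Q ν (γ / m) T b = ENNReal.ofReal (Real.exp (-(ν * γ * T))) * S.w 0 T b :=
            (w_eq_exp hQ P T b).symm
          have h2 : ∏ j ∈ range T,
              (1 + ex ν (Jf Q (γ / m) T c j (∑ k ∈ range j, del (b k)) (b j))) =
              ∏ k ∈ Ico 0 T, (1 + ex ν (Jf Q (γ / m) T c k (0 + X.sm 0 k b) (b k))) := by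
            rw [Finset.range_eq_Ico]
            refine Finset.prod_congr rfl fun k _ => ?_
            have : X.sm 0 k b = ∑ k ∈ range k, del (b k) := by
              unfold Disp.sm
              rw [Finset.range_eq_Ico]
              rfl
            rw [this, zero_add]
          rw [h1, h2]; ring
      _ = (sv1 Q ν (γ / m) T c * ENNReal.ofReal (Real.exp (-(ν * γ * T)))) *
          ∫⁻ b, (S.w 0 T b * ∏ k ∈ Ico 0 T,
            (1 + ex ν (Jf Q (γ / m) T c k (0 + X.sm 0 k b) (b k)))) ∂PP μ := by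
          rw [lintegral_const_mul _ hmf]
      _ ≤ (sv1 Q ν (γ / m) T c * ENNReal.ofReal (Real.exp (-(ν * γ * T)))) *
          (2 * S.A μ 0 T) := mul_le_mul' le_rfl hpert
      _ = _ := by rw [E1_eq hQ P T]; ring
  calc ∫⁻ c, ∫⁻ b, sv2 Q ν (γ / m) T b c ∂PP μ ∂PP μ
      ≤ ∫⁻ c, sv1 Q ν (γ / m) T c * (2 * E1 Q μ ν (γ / m) T) ∂PP μ := lintegral_mono hinner
    _ = E1 Q μ ν (γ / m) T * (2 * E1 Q μ ν (γ / m) T) := by
        rw [lintegral_mul_const _ (measurable_sv1 ν _ T)]; rfl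
    _ = _ := by ring

end Pool.Agent.Helper83.Traps
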