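import Pool.Agent.Helper83.Traps.Core3

open MeasureTheory ProbabilityTheory Filter Finset
open scoped ENNReal Topology

namespace Pool.Agent.Helper83.Traps

variable {E : Type*} [MeasurableSpace E] {d : ℕ}

/-- squared Euclidean norm -/
def nsq (x : Fin d → ℤ) : ℕ := ∑ i, (x i).natAbs ^ 2

lemma nsq_cast (x : Fin d → ℤ) : (nsq x : ℤ) = ∑ i, x i ^ 2 := by
  unfold nsq; push_cast; simp

lemma nsq_parallelogram (x y : Fin d → ℤ) : nsq (x + y) + nsq (x - y) = 2 * nsq x + 2 * nsq y := by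
  have : ((nsq (x + y) + nsq (x - y) : ℕ) : ℤ) = ((2 * nsq x + 2 * nsq y : ℕ) : ℤ) := by
    push_cast
    simp only [nsq_cast, Pi.add_apply, Pi.sub_apply]
    rw [← Finset.sum_add_distrib, Finset.mul_sum, Finset.mul_sum, ← Finset.sum_add_distrib]
    refine Finset.sum_congr rfl fun i _ => ?_
    ring
  exact_mod_cast this

lemma nsq_add_le (x y : Fin d → ℤ) : nsq (x + y) ≤ 2 * nsq x + 2 * nsq y := by
  have := nsq_parallelogram x y; omega

lemma nsq_sub_le (x y : Fin d → ℤ) : nsq (x - y) ≤ 2 * nsq x + 2 * nsq y := by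
  have := nsq_parallelogram x y; omega

@[simp] lemma nsq_zero : nsq (0 : Fin d → ℤ) = 0 := by simp [nsq]

@[simp] lemma nsq_neg (x : Fin d → ℤ) : nsq (-x) = nsq x := by simp [nsq]

/-- displacement data attached to a system -/
structure Disp (S : Sys E) (μ : Measure E) (d : ℕ) where
  Δ : E → (Fin d → ℤ)
  measΔ : Measurable Δ
  σ : E → E
  measσ : Measurable σ
  mapσ : μ.map σ = μ
  Δσ : ∀ e, Δ (σ e) = - Δ e
  ρσ : ∀ a c b, S.ρ a c (fun i => σ (b i)) = S.ρ a c b
  q : E → ℝ≥0∞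
  measq : Measurable q
  Cq : ℝ≥0∞
  hq : ∫⁻ e, q e ∂μ ≤ Cq
  Δ_le : ∀ e, (nsq (Δ e) : ℝ≥0∞) ≤ q e
  CG : ℝ≥0∞
  G : ∀ a c b, a ≤ c → (nsq (∑ k ∈ Ico a (c + 1), Δ (b k)) : ℝ≥0∞) * S.ρ a c b ≤
    S.r (c - a) * (CG * ((c - a + 1 : ℕ) : ℝ≥0∞) + q (b a) + q (b c))

namespace Disp

variable {S : Sys E} {μ : Measure E} (X : Disp S μ d)

/-- displacement over a window -/
def sm (i j : ℕ) (b : ℕ → E) : Fin d → ℤ := ∑ k ∈ Ico i j, X.Δ (b k)

lemma sm_add {i c j : ℕ} (h1 : i ≤ c) (h2 : c ≤ j) (b : ℕ → E) :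
    X.sm i j b = X.sm i c b + X.sm c j b := by
  unfold sm; rw [Finset.sum_Ico_consecutive _ h1 h2]

lemma sm_self (i : ℕ) (b : ℕ → E) : X.sm i i b = 0 := by simp [sm]

lemma sm_of_le {i j : ℕ} (h : j ≤ i) (b : ℕ → E) : X.sm i j b = 0 := by
  unfold sm; rw [Finset.Ico_eq_empty_of_le h]; simp

lemma sm_succ (i : ℕ) (b : ℕ → E) : X.sm i (i + 1) b = X.Δ (b i) := by simp [sm]

lemma meas_sm (i j : ℕ) : Measurable (X.sm i j) :=
  Finset.measurable_fun_sum _ fun k _ => X.measΔ.comp (measurable_pi_apply k)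

lemma meas_nsq {A : Type*} [MeasurableSpace A] {f : A → Fin d → ℤ} (hf : Measurable f) :
    Measurable fun a => (nsq (f a) : ℝ≥0∞) :=
  (Measurable.of_discrete (f := fun x : Fin d → ℤ => (nsq x : ℝ≥0∞))).comp hf

lemma dep_sm {i j : ℕ} {A : Set ℕ} (h : Set.Ico i j ⊆ A) : DependsOn (X.sm i j) A := by
  refine dep_sum fun k hk => ?_
  intro x y hxy
  simp only
  rw [hxy k (h (by simpa using hk))]

lemma dep_nsq_sm {i j : ℕ} {A : Set ℕ} (h : Set.Ico i j ⊆ A) :
    DependsOn (fun b => (nsq (X.sm i j b) : ℝ≥0∞)) A :=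
  dep_comp (X.dep_sm h) (fun x => (nsq x : ℝ≥0∞))

/-- tilted second moment of a window -/
noncomputable def D (i j : ℕ) : ℝ≥0∞ := ∫⁻ b, (nsq (X.sm i j b) : ℝ≥0∞) * S.w i j b ∂PP μ

lemma w_refl {m J : ℕ} (b : ℕ → E) [DecidablePred (· ∈ Set.Ici m)] :
    S.w m J (refl X.σ (Set.Ici m) b) = S.w m J b := by
  have h1 : S.w m J (refl X.σ (Set.Ici m) b) = S.w m J (fun i => X.σ (b i)) := by
    apply S.dep_w' (A := Set.Ico m J) le_rfl
    intro i hi
    have : i ∈ Set.Ici m := hi.1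
    simp [refl, this]
  rw [h1]
  unfold Sys.w
  simp only [X.ρσ]

lemma sm_refl {m J : ℕ} (b : ℕ → E) [DecidablePred (· ∈ Set.Ici m)] :
    X.sm m J (refl X.σ (Set.Ici m) b) = - X.sm m J b := by
  unfold sm
  rw [← Finset.sum_neg_distrib]
  refine Finset.sum_congr rfl fun k hk => ?_
  have : k ∈ Set.Ici m := (Finset.mem_Ico.1 hk).1
  simp [refl, this, X.Δσ]

variable [IsProbabilityMeasure μ]

/-- the cross terms vanish by reflection -/
lemma lintegral_split {i m J : ℕ} (f : (ℕ → E) → ℝ≥0∞) (hf : Measurable f)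
    (hfd : DependsOn f (Set.Ico i m)) :
    ∫⁻ b, (nsq (X.sm i m b + X.sm m J b) : ℝ≥0∞) * f b * S.w m J b ∂PP μ =
      (∫⁻ b, (nsq (X.sm i m b) : ℝ≥0∞) * f b ∂PP μ) * S.A μ m J +
      (∫⁻ b, f b ∂PP μ) * X.D m J := by
  classical
  have hfd' : DependsOn f (Finset.Ico i m : Set ℕ) := by rw [Finset.coe_Ico]; exact hfd
  set I1 := ∫⁻ b, (nsq (X.sm i m b + X.sm m J b) : ℝ≥0∞) * f b * S.w m J b ∂PP μ with hI1
  have hms : ∀ i j, Measurable fun b => (nsq (X.sm i j b) : ℝ≥0∞) := fun i j =>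
    meas_nsq (X.meas_sm i j)
  have hmw := S.meas_w m J
  have hma : Measurable fun b => (nsq (X.sm i m b + X.sm m J b) : ℝ≥0∞) :=
    meas_nsq ((X.meas_sm i m).add (X.meas_sm m J))
  have hmb : Measurable fun b => (nsq (X.sm i m b - X.sm m J b) : ℝ≥0∞) :=
    meas_nsq ((X.meas_sm i m).sub (X.meas_sm m J))
  have hI2 : I1 = ∫⁻ b, (nsq (X.sm i m b - X.sm m J b) : ℝ≥0∞) * f b * S.w m J b ∂PP μ := by
    have hmp := measurePreserving_refl (μ := μ) X.measσ X.mapσ (Set.Ici m)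
    have hmm : Measurable fun b =>
        (nsq (X.sm i m b + X.sm m J b) : ℝ≥0∞) * f b * S.w m J b := (hma.mul hf).mul hmw
    rw [hI1, ← hmp.lintegral_comp hmm]
    refine lintegral_congr fun b => ?_
    rw [X.w_refl, X.sm_refl]
    have e1 : X.sm i m (refl X.σ (Set.Ici m) b) = X.sm i m b := by
      apply X.dep_sm (A := Set.Ico i m) le_rfl
      intro k hk
      have : ¬ m ≤ k := not_le.2 hk.2
      simp [refl, this]
    have e2 : f (refl X.σ (Set.Ici m) b) = f b := by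
      apply hfd
      intro k hk
      have : ¬ m ≤ k := not_le.2 hk.2
      simp [refl, this]
    rw [e1, e2, ← sub_eq_add_neg]
  have h2 : I1 + I1 = 2 * ((∫⁻ b, (nsq (X.sm i m b) : ℝ≥0∞) * f b ∂PP μ) * S.A μ m J +
      (∫⁻ b, f b ∂PP μ) * X.D m J) := by
    nth_rewrite 2 [hI2]
    have hmm : Measurable fun b =>
        (nsq (X.sm i m b + X.sm m J b) : ℝ≥0∞) * f b * S.w m J b := (hma.mul hf).mul hmw
    rw [hI1, ← lintegral_add_left hmm]
    have e3 : ∀ b, (nsq (X.sm i m b + X.sm m J b) : ℝ≥0∞) * f b * S.w m J b +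
        (nsq (X.sm i m b - X.sm m J b) : ℝ≥0∞) * f b * S.w m J b =
        2 * (((nsq (X.sm i m b) : ℝ≥0∞) * f b) * S.w m J b +
          f b * ((nsq (X.sm m J b) : ℝ≥0∞) * S.w m J b)) := by
      intro b
      rw [← add_mul, ← add_mul]
      have : (nsq (X.sm i m b + X.sm m J b) : ℝ≥0∞) + (nsq (X.sm i m b - X.sm m J b) : ℝ≥0∞) =
          2 * nsq (X.sm i m b) + 2 * nsq (X.sm m J b) := by
        exact_mod_cast nsq_parallelogram (X.sm i m b) (X.sm m J b)
      rw [this]; ring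
    have hm1 : Measurable fun b => (nsq (X.sm i m b) : ℝ≥0∞) * f b := (hms i m).mul hf
    have hm2 : Measurable fun b => (nsq (X.sm i m b) : ℝ≥0∞) * f b * S.w m J b := hm1.mul hmw
    have hm3 : Measurable fun b => (nsq (X.sm m J b) : ℝ≥0∞) * S.w m J b := (hms m J).mul hmw
    have hm4 : Measurable fun b => f b * ((nsq (X.sm m J b) : ℝ≥0∞) * S.w m J b) := hf.mul hm3
    have hm5 : Measurable fun b => (nsq (X.sm i m b) : ℝ≥0∞) * f b * S.w m J b +
        f b * ((nsq (X.sm m J b) : ℝ≥0∞) * S.w m J b) := hm2.add hm4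
    rw [lintegral_congr e3, lintegral_const_mul _ hm5, lintegral_add_left hm2]
    congr 1
    congr 1
    · rw [lintegral_mul_dep μ hm1 hmw (Finset.Ico_disjoint_Ico_consecutive i m J)
        (dep_mul (X.dep_nsq_sm (by rw [Finset.coe_Ico])) hfd') (S.dep_w m J)]
      rfl
    · rw [lintegral_mul_dep μ hf hm3 (Finset.Ico_disjoint_Ico_consecutive i m J)
        hfd' (dep_mul (X.dep_nsq_sm (by rw [Finset.coe_Ico])) (S.dep_w m J))]
      rfl
  rw [← two_mul] at h2
  exact (ENNReal.mul_right_inj (by simp) (by simp)).1 h2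

/-- a single block moment is not changed much by the tilt -/
lemma lintegral_q_le (i J l : ℕ) :
    ∫⁻ b, X.q (b l) * S.w i J b ∂PP μ ≤ 2 * X.Cq * S.A μ i J := by
  have hmq : Measurable fun b : ℕ → E => X.q (b l) := X.measq.comp (measurable_pi_apply l)
  have hqd : DependsOn (fun b : ℕ → E => X.q (b l)) (({l} : Finset ℕ) : Set ℕ) := by
    intro x y h; simp only; rw [h l (by simp)]
  calc ∫⁻ b, X.q (b l) * S.w i J b ∂PP μ
      ≤ ∫⁻ b, 2 * (X.q (b l) * S.wrem i l J b) ∂PP μ := by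
        refine lintegral_mono fun b => ?_
        calc X.q (b l) * S.w i J b ≤ X.q (b l) * (2 * S.wrem i l J b) := by
              gcongr; exact S.w_le_wrem i l J b
          _ = _ := by ring
    _ = 2 * ((∫⁻ b, X.q (b l) ∂PP μ) * ∫⁻ b, S.wrem i l J b ∂PP μ) := by
        have hm1 : Measurable fun b => X.q (b l) * S.wrem i l J b := hmq.mul (S.meas_wrem i l J)
        rw [lintegral_const_mul _ hm1, lintegral_mul_dep μ hmq (S.meas_wrem i l J)
          (by rw [Finset.disjoint_singleton_left]; simp) hqd (S.dep_wrem i l J)]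
    _ ≤ 2 * (X.Cq * S.A μ i J) := by
        gcongr
        · have h := measurePreserving_eval_infinitePi (fun _ : ℕ => μ) l
          have := h.lintegral_comp X.measq
          refine le_trans (le_of_eq ?_) X.hq
          exact this
        · exact lintegral_mono fun b => S.wrem_le i l J b
    _ = _ := by ring

/-- second moment of a sub-window under the tilt of a larger window -/
lemma lintegral_sub_window {i a e J : ℕ} (h1 : i ≤ a) (h2 : a ≤ e) (h3 : e ≤ J) :
    ∫⁻ b, (nsq (X.sm a e b) : ℝ≥0∞) * S.w i J b ∂PP μ ≤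
      4 * (S.A μ i a * X.D a e * S.A μ e J) := by
  have hms : Measurable fun b => (nsq (X.sm a e b) : ℝ≥0∞) := meas_nsq (X.meas_sm a e)
  calc ∫⁻ b, (nsq (X.sm a e b) : ℝ≥0∞) * S.w i J b ∂PP μ
      ≤ ∫⁻ b, 4 * (S.w i a b * ((nsq (X.sm a e b) : ℝ≥0∞) * S.w a e b * S.w e J b)) ∂PP μ := by
        refine lintegral_mono fun b => ?_
        calc (nsq (X.sm a e b) : ℝ≥0∞) * S.w i J b
            ≤ (nsq (X.sm a e b) : ℝ≥0∞) * (2 * (S.w i a b * (2 * (S.w a e b * S.w e J b)))) := by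
              gcongr
              exact (S.w_le h1 (h2.trans h3) b).trans (by gcongr; exact S.w_le h2 h3 b)
          _ = _ := by ring
    _ = 4 * (S.A μ i a * ((X.D a e) * S.A μ e J)) := by
        have hm1 : Measurable fun b => (nsq (X.sm a e b) : ℝ≥0∞) * S.w a e b :=
          hms.mul (S.meas_w a e)
        have hm2 : Measurable fun b => (nsq (X.sm a e b) : ℝ≥0∞) * S.w a e b * S.w e J b :=
          hm1.mul (S.meas_w e J)
        have hm3 : Measurable fun b => S.w i a b * ((nsq (X.sm a e b) : ℝ≥0∞) * S.w a e b *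
          S.w e J b) := (S.meas_w i a).mul hm2
        rw [lintegral_const_mul _ hm3]
        have hsub1 : Set.Ico a e ⊆ ((Finset.Ico a J : Finset ℕ) : Set ℕ) := by
          rw [Finset.coe_Ico]; exact Set.Ico_subset_Ico_right h3
        have hsub2 : Set.Ico e J ⊆ ((Finset.Ico a J : Finset ℕ) : Set ℕ) := by
          rw [Finset.coe_Ico]; exact Set.Ico_subset_Ico_left h2
        rw [lintegral_mul_dep μ (S.meas_w i a) hm2 (Finset.Ico_disjoint_Ico_consecutive i a J)
          (S.dep_w i a) (dep_mul (dep_mul (X.dep_nsq_sm hsub1) (S.dep_w' hsub1)) (S.dep_w' hsub2)),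
          lintegral_mul_dep μ hm1 (S.meas_w e J) (Finset.Ico_disjoint_Ico_consecutive a e J)
          (dep_mul (X.dep_nsq_sm (by rw [Finset.coe_Ico])) (S.dep_w a e)) (S.dep_w e J)]
        rfl
    _ = _ := by ring

end Disp

end Pool.Agent.Helper83.Traps
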