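import Mathlib

open MeasureTheory ProbabilityTheory Filter Finset
open scoped ENNReal Topology

namespace Pool.Agent.Helper83.Traps

variable {E : Type*} [MeasurableSpace E] (μ : Measure E) [IsProbabilityMeasure μ]

/-- law of an i.i.d. sequence -/
noncomputable abbrev PP : Measure (ℕ → E) := Measure.infinitePi (fun _ : ℕ => μ)

omit [MeasurableSpace E] in
lemma dep_mul {f g : (ℕ → E) → ℝ≥0∞} {S : Set ℕ} (hf : DependsOn f S) (hg : DependsOn g S) :
    DependsOn (fun b => f b * g b) S := fun _ _ h => by
  simp only; rw [hf h, hg h]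

omit [MeasurableSpace E] in
lemma dep_add {f g : (ℕ → E) → ℝ≥0∞} {S : Set ℕ} (hf : DependsOn f S) (hg : DependsOn g S) :
    DependsOn (fun b => f b + g b) S := fun _ _ h => by
  simp only; rw [hf h, hg h]

omit [MeasurableSpace E] in
lemma dep_prod {ι : Type*} {f : ι → (ℕ → E) → ℝ≥0∞} {S : Set ℕ} {s : Finset ι}
    (hf : ∀ i ∈ s, DependsOn (f i) S) :
    DependsOn (fun b => ∏ i ∈ s, f i b) S := fun _ _ h =>
  Finset.prod_congr rfl fun i hi => hf i hi h

omit [MeasurableSpace E] in
lemma dep_sum {ι M : Type*} [AddCommMonoid M] {f : ι → (ℕ → E) → M} {S : Set ℕ} {s : Finset ι}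
    (hf : ∀ i ∈ s, DependsOn (f i) S) :
    DependsOn (fun b => ∑ i ∈ s, f i b) S := fun _ _ h =>
  Finset.sum_congr rfl fun i hi => hf i hi h

omit [MeasurableSpace E] in
lemma dep_comp {A B : Type*} {f : (ℕ → E) → A} {S : Set ℕ} (hf : DependsOn f S) (g : A → B) :
    DependsOn (fun b => g (f b)) S := fun _ _ h => by
  simp only; rw [hf h]

omit [MeasurableSpace E] in
lemma dep_comp2 {A B C : Type*} {f : (ℕ → E) → A} {f' : (ℕ → E) → B} {S : Set ℕ}
    (hf : DependsOn f S) (hf' : DependsOn f' S) (g : A → B → C) :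
    DependsOn (fun b => g (f b) (f' b)) S := fun _ _ h => by
  simp only; rw [hf h, hf' h]

variable {μ} in
/-- factorisation of functions depending on finitely many coordinates -/
lemma exists_factor {f : (ℕ → E) → ℝ≥0∞} (hf : Measurable f) (S : Finset ℕ)
    (hfS : DependsOn f (S : Set ℕ)) [Nonempty E] :
    ∃ F : (S → E) → ℝ≥0∞, Measurable F ∧ ∀ b, f b = F (fun i => b i) := by
  classical
  let e0 : E := Classical.arbitrary E
  refine ⟨fun y => f (fun i => if h : i ∈ S then y ⟨i, h⟩ else e0), ?_, ?_⟩
  · refine hf.comp (measurable_pi_lambda _ fun i => ?_)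
    by_cases h : i ∈ S
    · simp only [h, dif_pos]; exact measurable_pi_apply _
    · simp only [h, dif_neg, not_false_eq_true]; exact measurable_const
  · intro b
    apply hfS
    intro i hi
    have hi' : i ∈ S := hi
    simp [hi']

/-- independence of functions of disjoint finite sets of coordinates -/
lemma lintegral_mul_dep {f g : (ℕ → E) → ℝ≥0∞} (hf : Measurable f) (hg : Measurable g)
    {S S' : Finset ℕ} (hSS' : Disjoint S S') (hfS : DependsOn f (S : Set ℕ))
    (hgS : DependsOn g (S' : Set ℕ)) :
    ∫⁻ b, f b * g b ∂PP μ = (∫⁻ b, f b ∂PP μ) * ∫⁻ b, g b ∂PP μ := by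
  have : Nonempty E := by
    by_contra h
    rw [not_nonempty_iff] at h
    have : μ Set.univ = 0 := by rw [Set.univ_eq_empty_iff.2 h]; simp
    simp at this
  obtain ⟨F, hF, hfF⟩ := exists_factor hf S hfS
  obtain ⟨G, hG, hgG⟩ := exists_factor hg S' hgS
  have hind : iIndepFun (fun (i : ℕ) (b : ℕ → E) => b i) (PP μ) :=
    iIndepFun_infinitePi (P := fun _ : ℕ => μ) (X := fun _ b => b) (fun _ => measurable_id)
  have h2 := hind.indepFun_finset S S' hSS' (fun i => measurable_pi_apply i)
  have h3 := h2.comp hF hG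
  have h4 := lintegral_mul_eq_lintegral_mul_lintegral_of_indepFun
    (hF.comp (measurable_pi_lambda _ fun i => measurable_pi_apply _))
    (hG.comp (measurable_pi_lambda _ fun i => measurable_pi_apply _)) h3
  simp only [Pi.mul_apply, Function.comp_apply] at h4
  simp only [hfF, hgG]
  exact h4

/-- reflect the blocks in S -/
def refl (σ : E → E) (S : Set ℕ) [DecidablePred (· ∈ S)] (b : ℕ → E) : ℕ → E :=
  fun i => if i ∈ S then σ (b i) else b i

lemma measurePreserving_refl {σ : E → E} (hσ : Measurable σ) (hμ : μ.map σ = μ) (S : Set ℕ)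
    [DecidablePred (· ∈ S)] : MeasurePreserving (refl σ S) (PP μ) (PP μ) := by
  have h := Measure.infinitePi_map_pi (μ := fun _ : ℕ => μ)
    (f := fun i x => if i ∈ S then σ x else x) (fun i => by
      by_cases h : i ∈ S
      · simp only [h, if_true]; exact hσ
      · simp only [h, if_false]; exact measurable_id)
  refine ⟨?_, ?_⟩
  · refine measurable_pi_lambda _ fun i => ?_
    unfold refl
    by_cases h : i ∈ S
    · simp only [h, if_true]; exact hσ.comp (measurable_pi_apply i)
    · simp only [h, if_false]; exact measurable_pi_apply i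
  · unfold PP refl
    rw [h]
    congr 1
    funext i
    by_cases h : i ∈ S
    · simp only [h, if_true]; exact hμ
    · simp only [h, if_false]; exact Measure.map_id

end Pool.Agent.Helper83.Traps
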