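import Pool.Agent.Helper83.Traps.Core1

open MeasureTheory ProbabilityTheory Filter Finset
open scoped ENNReal Topology

namespace Pool.Agent.Helper83.Traps

/-- an elementary bound for products -/
lemma prod_one_add_le {ι : Type*} (s : Finset ι) (x : ι → ℝ≥0∞) (h : ∑ i ∈ s, x i ≤ 1 / 2) :
    ∏ i ∈ s, (1 + x i) ≤ 1 + 2 * ∑ i ∈ s, x i := by
  classical
  induction s using Finset.induction_on with
  | empty => simp
  | insert i s hi ih =>
    rw [Finset.sum_insert hi] at h ⊢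
    rw [Finset.prod_insert hi]
    have hS : ∑ j ∈ s, x j ≤ 1 / 2 := le_trans le_add_self h
    have h2 : 2 * ∑ j ∈ s, x j ≤ 1 := by
      calc 2 * ∑ j ∈ s, x j ≤ 2 * (1 / 2) := by gcongr
        _ = 1 := by rw [one_div]; exact ENNReal.mul_inv_cancel (by simp) (by simp)
    calc (1 + x i) * ∏ j ∈ s, (1 + x j) ≤ (1 + x i) * (1 + 2 * ∑ j ∈ s, x j) := by
          gcongr; exact ih hS
      _ = 1 + 2 * ∑ j ∈ s, x j + x i + x i * (2 * ∑ j ∈ s, x j) := by ring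
      _ ≤ 1 + 2 * ∑ j ∈ s, x j + x i + x i * 1 := by gcongr
      _ = _ := by ring

lemma prod_one_add_le_two {ι : Type*} (s : Finset ι) (x : ι → ℝ≥0∞) (h : ∑ i ∈ s, x i ≤ 1 / 2) :
    ∏ i ∈ s, (1 + x i) ≤ 2 := by
  refine (prod_one_add_le s x h).trans ?_
  calc 1 + 2 * ∑ i ∈ s, x i ≤ 1 + 2 * (1 / 2) := by gcongr
    _ = 2 := by
      rw [one_div, ENNReal.mul_inv_cancel (by simp) (by simp)]
      norm_num

/-- the set of intervals contained in the window `[i,j)` -/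
def Int (i j : ℕ) : Finset (ℕ × ℕ) := (Ico i j ×ˢ Ico i j).filter fun p => p.1 ≤ p.2

lemma mem_Int {i j : ℕ} {p : ℕ × ℕ} : p ∈ Int i j ↔ i ≤ p.1 ∧ p.1 ≤ p.2 ∧ p.2 < j := by
  simp only [Int, mem_filter, mem_product, mem_Ico]
  omega

/-- intervals crossing the cut before c -/
def Cross (i c j : ℕ) : Finset (ℕ × ℕ) := Ico i c ×ˢ Ico c j

lemma mem_Cross {i c j : ℕ} {p : ℕ × ℕ} : p ∈ Cross i c j ↔ i ≤ p.1 ∧ p.1 < c ∧ c ≤ p.2 ∧ p.2 < j := by
  simp only [Cross, mem_product, mem_Ico]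
  omega

lemma tsum_double (r : ℕ → ℝ≥0∞) : ∑' x : ℕ, ∑' y : ℕ, r (x + y) = ∑' s : ℕ, (s + 1) * r s := by
  rw [← ENNReal.tsum_prod (f := fun x y => r (x + y)),
    ← (HasAntidiagonal.sigmaAntidiagonalEquivProd (A := ℕ)).tsum_eq, ENNReal.tsum_sigma']
  refine tsum_congr fun n => ?_
  rw [tsum_fintype]
  have : ∀ b : HasAntidiagonal.antidiagonal n,
      r (((HasAntidiagonal.sigmaAntidiagonalEquivProd (A := ℕ)) ⟨n, b⟩).1 +
      ((HasAntidiagonal.sigmaAntidiagonalEquivProd (A := ℕ)) ⟨n, b⟩).2) = r n := by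
    intro b
    have := HasAntidiagonal.mem_antidiagonal.1 b.2
    simp only [HasAntidiagonal.sigmaAntidiagonalEquivProd_apply]
    rw [this]
  simp only [this, Finset.sum_const, Finset.card_univ, Fintype.card_coe, nsmul_eq_mul]
  simp

lemma sum_Cross_le (r : ℕ → ℝ≥0∞) (i c j : ℕ) :
    ∑ p ∈ Cross i c j, r (p.2 - p.1) ≤ ∑' s : ℕ, (s + 1) * r s := by
  rw [← tsum_double]
  rw [← ENNReal.tsum_prod (f := fun x y => r (x + y))]
  have hinj : Set.InjOn (fun p : ℕ × ℕ => (c - p.1, p.2 - c)) (Cross i c j : Set (ℕ × ℕ)) := by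
    rintro ⟨a, b⟩ h ⟨a', b'⟩ h' heq
    rw [Finset.mem_coe, mem_Cross] at h h'
    simp only [Prod.mk.injEq] at heq ⊢
    simp only at h h'
    omega
  calc ∑ p ∈ Cross i c j, r (p.2 - p.1)
      = ∑ p ∈ Cross i c j, (fun q : ℕ × ℕ => r (q.1 + q.2)) (c - p.1, p.2 - c) := by
        refine Finset.sum_congr rfl fun p hp => ?_
        rw [mem_Cross] at hp
        simp only
        congr 1; omega
    _ = ∑ q ∈ (Cross i c j).image (fun p : ℕ × ℕ => (c - p.1, p.2 - c)), r (q.1 + q.2) := by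
        rw [Finset.sum_image hinj]
    _ ≤ _ := ENNReal.sum_le_tsum _

/-- intervals containing the block l -/
def Cont (i l j : ℕ) : Finset (ℕ × ℕ) := Icc i l ×ˢ Ico l j

lemma mem_Cont {i l j : ℕ} {p : ℕ × ℕ} : p ∈ Cont i l j ↔ i ≤ p.1 ∧ p.1 ≤ l ∧ l ≤ p.2 ∧ p.2 < j := by
  simp only [Cont, mem_product, mem_Ico, mem_Icc]
  omega

lemma sum_Cont_le (r : ℕ → ℝ≥0∞) (i l j : ℕ) :
    ∑ p ∈ Cont i l j, r (p.2 - p.1) ≤ ∑' s : ℕ, (s + 1) * r s := by
  rw [← tsum_double]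
  rw [← ENNReal.tsum_prod (f := fun x y => r (x + y))]
  have hinj : Set.InjOn (fun p : ℕ × ℕ => (l - p.1, p.2 - l)) (Cont i l j : Set (ℕ × ℕ)) := by
    rintro ⟨a, b⟩ h ⟨a', b'⟩ h' heq
    rw [Finset.mem_coe, mem_Cont] at h h'
    simp only [Prod.mk.injEq] at heq ⊢
    simp only at h h'
    omega
  calc ∑ p ∈ Cont i l j, r (p.2 - p.1)
      = ∑ p ∈ Cont i l j, (fun q : ℕ × ℕ => r (q.1 + q.2)) (l - p.1, p.2 - l) := by
        refine Finset.sum_congr rfl fun p hp => ?_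
        rw [mem_Cont] at hp
        simp only
        congr 1; omega
    _ = ∑ q ∈ (Cont i l j).image (fun p : ℕ × ℕ => (l - p.1, p.2 - l)), r (q.1 + q.2) := by
        rw [Finset.sum_image hinj]
    _ ≤ _ := ENNReal.sum_le_tsum _

variable {E : Type*} [MeasurableSpace E]

/-- a system of block interactions -/
structure Sys (E : Type*) [MeasurableSpace E] where
  ρ : ℕ → ℕ → (ℕ → E) → ℝ≥0∞
  r : ℕ → ℝ≥0∞
  meas : ∀ a c, Measurable (ρ a c)
  dep : ∀ a c, DependsOn (ρ a c) (Set.Icc a c)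
  le : ∀ a c b, a ≤ c → ρ a c b ≤ r (c - a)
  small : ∑' s : ℕ, (s + 1) * r s ≤ 1 / 2

namespace Sys

variable (S : Sys E)

/-- the weight of a window -/
noncomputable def w (i j : ℕ) (b : ℕ → E) : ℝ≥0∞ := ∏ p ∈ Int i j, (1 + S.ρ p.1 p.2 b)

lemma one_le_prod (s : Finset (ℕ × ℕ)) (b : ℕ → E) : 1 ≤ ∏ p ∈ s, (1 + S.ρ p.1 p.2 b) := by
  calc (1 : ℝ≥0∞) = ∏ p ∈ s, 1 := by simp
    _ ≤ _ := Finset.prod_le_prod' fun _ _ => le_self_add

lemma one_le_w (i j : ℕ) (b : ℕ → E) : 1 ≤ S.w i j b := S.one_le_prod _ b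

lemma prod_mono {s t : Finset (ℕ × ℕ)} (h : s ⊆ t) (b : ℕ → E) :
    ∏ p ∈ s, (1 + S.ρ p.1 p.2 b) ≤ ∏ p ∈ t, (1 + S.ρ p.1 p.2 b) :=
  Finset.prod_le_prod_of_subset_of_one_le' h fun _ _ _ => le_self_add

@[fun_prop]
lemma meas_prod (s : Finset (ℕ × ℕ)) : Measurable fun b => ∏ p ∈ s, (1 + S.ρ p.1 p.2 b) :=
  Finset.measurable_fun_prod _ fun p _ => measurable_const.add (S.meas p.1 p.2)

@[fun_prop]
lemma meas_w (i j : ℕ) : Measurable (S.w i j) := S.meas_prod _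

lemma dep_prod' {s : Finset (ℕ × ℕ)} {A : Set ℕ} (h : ∀ p ∈ s, Set.Icc p.1 p.2 ⊆ A) :
    DependsOn (fun b => ∏ p ∈ s, (1 + S.ρ p.1 p.2 b)) A :=
  dep_prod fun p hp => dep_comp ((S.dep p.1 p.2).mono (h p hp)) (fun x => 1 + x)

lemma dep_w (i j : ℕ) : DependsOn (S.w i j) (Finset.Ico i j : Set ℕ) := by
  apply S.dep_prod'
  intro p hp x hx
  rw [mem_Int] at hp
  rw [Set.mem_Icc] at hx
  rw [Finset.mem_coe, Finset.mem_Ico]
  omega

lemma w_self (i : ℕ) (b : ℕ → E) : S.w i i b = 1 := by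
  unfold w
  have : Int i i = ∅ := by
    ext p; rw [mem_Int]; simp; omega
  rw [this]; simp

lemma w_succ (i : ℕ) (b : ℕ → E) : S.w i (i + 1) b = 1 + S.ρ i i b := by
  unfold w
  have : Int i (i + 1) = {(i, i)} := by
    ext ⟨p, q⟩; rw [mem_Int]; simp; omega
  rw [this]; simp

lemma w_cut {i c j : ℕ} (hic : i ≤ c) (hcj : c ≤ j) (b : ℕ → E) :
    S.w i j b = S.w i c b * S.w c j b * ∏ p ∈ Cross i c j, (1 + S.ρ p.1 p.2 b) := by
  unfold w
  have h1 : Int i j = (Int i c ∪ Int c j) ∪ Cross i c j := by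
    ext p; simp only [mem_union, mem_Int, mem_Cross]; omega
  have h2 : Disjoint (Int i c) (Int c j) := by
    rw [Finset.disjoint_left]; intro p; simp only [mem_Int]; omega
  have h3 : Disjoint (Int i c ∪ Int c j) (Cross i c j) := by
    rw [Finset.disjoint_left]; intro p; simp only [mem_union, mem_Int, mem_Cross]; omega
  rw [h1, Finset.prod_union h3, Finset.prod_union h2]

lemma cross_le (i c j : ℕ) (b : ℕ → E) : ∏ p ∈ Cross i c j, (1 + S.ρ p.1 p.2 b) ≤ 2 := by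
  calc ∏ p ∈ Cross i c j, (1 + S.ρ p.1 p.2 b) ≤ ∏ p ∈ Cross i c j, (1 + S.r (p.2 - p.1)) := by
        refine Finset.prod_le_prod' fun p hp => ?_
        rw [mem_Cross] at hp
        gcongr
        exact S.le _ _ _ (by omega)
    _ ≤ 2 := prod_one_add_le_two _ _ ((sum_Cross_le S.r i c j).trans S.small)

lemma w_ge {i c j : ℕ} (hic : i ≤ c) (hcj : c ≤ j) (b : ℕ → E) :
    S.w i c b * S.w c j b ≤ S.w i j b := by
  rw [S.w_cut hic hcj]
  calc S.w i c b * S.w c j b = S.w i c b * S.w c j b * 1 := by rw [mul_one]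
    _ ≤ _ := by gcongr; exact S.one_le_prod _ b

lemma w_le {i c j : ℕ} (hic : i ≤ c) (hcj : c ≤ j) (b : ℕ → E) :
    S.w i j b ≤ 2 * (S.w i c b * S.w c j b) := by
  rw [S.w_cut hic hcj, mul_comm]
  gcongr
  exact S.cross_le i c j b

/-- weight with all intervals containing the block l removed -/
noncomputable def wrem (i l j : ℕ) (b : ℕ → E) : ℝ≥0∞ :=
  ∏ p ∈ (Int i j).filter (fun p => ¬ (p.1 ≤ l ∧ l ≤ p.2)), (1 + S.ρ p.1 p.2 b)

lemma meas_wrem (i l j : ℕ) : Measurable (S.wrem i l j) := S.meas_prod _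

lemma dep_wrem (i l j : ℕ) : DependsOn (S.wrem i l j) (((Finset.Ico i j).erase l : Finset ℕ) : Set ℕ) := by
  apply S.dep_prod'
  intro p hp x hx
  rw [mem_filter, mem_Int] at hp
  rw [Set.mem_Icc] at hx
  rw [Finset.mem_coe, Finset.mem_erase, Finset.mem_Ico]
  omega

lemma wrem_le (i l j : ℕ) (b : ℕ → E) : S.wrem i l j b ≤ S.w i j b :=
  S.prod_mono (Finset.filter_subset _ _) b

lemma w_le_wrem (i l j : ℕ) (b : ℕ → E) : S.w i j b ≤ 2 * S.wrem i l j b := by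
  unfold w wrem
  rw [← Finset.prod_filter_mul_prod_filter_not (Int i j) (fun p => p.1 ≤ l ∧ l ≤ p.2)]
  gcongr
  calc ∏ p ∈ (Int i j).filter (fun p => p.1 ≤ l ∧ l ≤ p.2), (1 + S.ρ p.1 p.2 b)
      ≤ ∏ p ∈ Cont i l j, (1 + S.ρ p.1 p.2 b) := by
        apply S.prod_mono
        intro p; rw [mem_filter, mem_Int, mem_Cont]; omega
    _ ≤ ∏ p ∈ Cont i l j, (1 + S.r (p.2 - p.1)) := by
        refine Finset.prod_le_prod' fun p hp => ?_
        rw [mem_Cont] at hp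
        gcongr
        exact S.le _ _ _ (by omega)
    _ ≤ 2 := prod_one_add_le_two _ _ ((sum_Cont_le S.r i l j).trans S.small)

variable (μ : Measure E) [IsProbabilityMeasure μ]

/-- the partition function of a window -/
noncomputable def A (i j : ℕ) : ℝ≥0∞ := ∫⁻ b, S.w i j b ∂PP μ

lemma one_le_A (i j : ℕ) : 1 ≤ S.A μ i j := by
  calc (1 : ℝ≥0∞) = ∫⁻ _, 1 ∂PP μ := by simp
    _ ≤ _ := lintegral_mono fun b => S.one_le_w i j b

lemma A_mul_le {i c j : ℕ} (hic : i ≤ c) (hcj : c ≤ j) : S.A μ i c * S.A μ c j ≤ S.A μ i j := by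
  unfold A
  rw [← lintegral_mul_dep μ (S.meas_w i c) (S.meas_w c j) (Finset.Ico_disjoint_Ico_consecutive i c j)
    (S.dep_w i c) (S.dep_w c j)]
  exact lintegral_mono fun b => S.w_ge hic hcj b

end Sys

end Pool.Agent.Helper83.Traps
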