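import Pool.Agent.Helper83.Traps.Core2

open MeasureTheory ProbabilityTheory Filter Finset
open scoped ENNReal Topology

namespace Pool.Agent.Helper83.Traps

variable {E : Type*} [MeasurableSpace E]

namespace Sys

variable (S : Sys E)

/-- intervals from `[p,c]` to c' -/
noncomputable def Pc (p c c' : ℕ) (b : ℕ → E) : ℝ≥0∞ := ∏ a ∈ Icc p c, (1 + S.ρ a c' b)

/-- the factor in front -/
noncomputable def Gf (p c a c' : ℕ) (b : ℕ → E) : ℝ≥0∞ :=
  (∏ a' ∈ (Icc p c).filter (· < a), (1 + S.ρ a' c' b)) *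
    (∏ c'' ∈ Ioo c c', S.Pc p c c'' b) * S.w (c + 1) (c' + 1) b

/-- the remaining weight after reach c -/
noncomputable def M (p c J : ℕ) (b : ℕ → E) : ℝ≥0∞ :=
  (∏ c' ∈ Ioo c J, S.Pc p c c' b) * S.w (c + 1) J b

lemma w_eq_M {c' J : ℕ} {c : ℕ} (hc : c ≤ c') (hJ : c' < J) (b : ℕ → E) :
    S.w c J b = S.w c (c' + 1) b * S.M c c' J b := by
  rw [S.w_cut (c := c' + 1) (by omega) (by omega), M, mul_assoc]
  congr 1
  rw [mul_comm]
  congr 1
  unfold Pc Cross
  have h1 : Ico c (c' + 1) = Icc c c' := by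
    ext x; simp only [Finset.mem_Ico, Finset.mem_Icc]; omega
  have h2 : Ico (c' + 1) J = Ioo c' J := by
    ext x; simp only [Finset.mem_Ico, Finset.mem_Ioo]; omega
  rw [h1, h2, Finset.prod_product_right]

lemma M_expand {p c J : ℕ} (b : ℕ → E) :
    S.M p c J b = S.w (c + 1) J b + ∑ c' ∈ Ioo c J, ∑ a ∈ Icc p c,
      S.ρ a c' b * S.Gf p c a c' b * S.M (c + 1) c' J b := by
  have hP : ∀ c', S.Pc p c c' b = 1 + ∑ a ∈ Icc p c, S.ρ a c' b *
      ∏ a' ∈ (Icc p c).filter (· < a), (1 + S.ρ a' c' b) := by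
    intro c'
    rw [Pc, Finset.prod_one_add_ordered]
  rw [M]
  have h1 : ∏ c' ∈ Ioo c J, S.Pc p c c' b = 1 + ∑ c' ∈ Ioo c J,
      (∑ a ∈ Icc p c, S.ρ a c' b * ∏ a' ∈ (Icc p c).filter (· < a), (1 + S.ρ a' c' b)) *
        ∏ c'' ∈ Ioo c c', S.Pc p c c'' b := by
    rw [Finset.prod_congr rfl fun c' _ => hP c', Finset.prod_one_add_ordered]
    congr 1
    refine Finset.sum_congr rfl fun c' hc' => ?_
    congr 1
    rw [Finset.mem_Ioo] at hc'
    have : (Ioo c J).filter (· < c') = Ioo c c' := by ext; simp; omega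
    rw [this]
    exact Finset.prod_congr rfl fun c'' _ => (hP c'').symm
  rw [h1, add_mul, one_mul]
  congr 1
  rw [Finset.sum_mul]
  refine Finset.sum_congr rfl fun c' hc' => ?_
  rw [Finset.mem_Ioo] at hc'
  rw [S.w_eq_M (c := c + 1) (c' := c') (by omega) (by omega), Finset.sum_mul, Finset.sum_mul]
  refine Finset.sum_congr rfl fun a _ => ?_
  unfold Gf
  ring

/-- connected weights: sum over chains from reach c to reach c + n -/
noncomputable def Cw : ℕ → ℕ → ℕ → (ℕ → E) → ℝ≥0∞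
  | 0, _, _, _ => 1
  | n + 1, p, c, b => ∑ k : Fin (n + 1), ∑ a ∈ Icc p c,
      S.ρ a (c + k + 1) b * S.Gf p c a (c + k + 1) b * Cw (n - k) (c + 1) (c + k + 1) b

lemma Cw_zero (p c : ℕ) (b : ℕ → E) : S.Cw 0 p c b = 1 := by rw [Cw]

/-- shift embedding -/
def shiftEmb (c n : ℕ) : Fin (n + 1) ↪ ℕ where
  toFun k := c + (k : ℕ) + 1
  inj' := by
    intro x y hxy
    have : c + (x : ℕ) + 1 = c + (y : ℕ) + 1 := hxy
    exact Fin.ext (by omega)

lemma shiftEmb_apply (c n : ℕ) (k : Fin (n + 1)) : shiftEmb c n k = c + (k : ℕ) + 1 := rfl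

lemma Cw_eq {p c e : ℕ} (h : c < e) (b : ℕ → E) :
    S.Cw (e - c) p c b = ∑ c' ∈ Ioc c e, ∑ a ∈ Icc p c,
      S.ρ a c' b * S.Gf p c a c' b * S.Cw (e - c') (c + 1) c' b := by
  obtain ⟨n, rfl⟩ : ∃ n, e = c + n + 1 := ⟨e - c - 1, by omega⟩
  have h1 : c + n + 1 - c = n + 1 := by omega
  rw [h1, Cw]
  have h2 : Ioc c (c + n + 1) = (Finset.univ : Finset (Fin (n + 1))).map (shiftEmb c n) := by
    ext x
    simp only [Finset.mem_Ioc, Finset.mem_map, Finset.mem_univ, true_and, shiftEmb_apply]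
    constructor
    · intro hx
      exact ⟨⟨x - c - 1, by omega⟩, by simp only; omega⟩
    · rintro ⟨k, rfl⟩
      have := k.2
      omega
  rw [h2, Finset.sum_map]
  refine Finset.sum_congr rfl fun k _ => ?_
  refine Finset.sum_congr rfl fun a _ => ?_
  rw [shiftEmb_apply]
  have h3 : c + n + 1 - (c + (k : ℕ) + 1) = n - k := by omega
  rw [h3]

/-- sum over the end of the chain -/
noncomputable def SumCw (p c J : ℕ) (Ψ : ℕ → (ℕ → E) → ℝ≥0∞) (b : ℕ → E) : ℝ≥0∞ :=
  ∑ e ∈ Ico c J, Ψ e b * S.Cw (e - c) p c b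

lemma SumCw_rec {p c J : ℕ} (hJ : c < J) (Ψ : ℕ → (ℕ → E) → ℝ≥0∞) (b : ℕ → E) :
    S.SumCw p c J Ψ b = Ψ c b + ∑ c' ∈ Ioo c J, ∑ a ∈ Icc p c,
      S.ρ a c' b * S.Gf p c a c' b * S.SumCw (c + 1) c' J Ψ b := by
  unfold SumCw
  have h1 : Ico c J = insert c (Ioo c J) := by ext; simp; omega
  have h1' : c ∉ Ioo c J := by simp
  rw [h1, Finset.sum_insert h1', Nat.sub_self, Cw_zero, mul_one]
  congr 1
  calc ∑ e ∈ Ioo c J, Ψ e b * S.Cw (e - c) p c b
      = ∑ e ∈ Ioo c J, ∑ c' ∈ Ioc c e, Ψ e b * ∑ a ∈ Icc p c,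
          S.ρ a c' b * S.Gf p c a c' b * S.Cw (e - c') (c + 1) c' b := by
        refine Finset.sum_congr rfl fun e he => ?_
        rw [Finset.mem_Ioo] at he
        rw [S.Cw_eq he.1, Finset.mul_sum]
    _ = ∑ c' ∈ Ioo c J, ∑ e ∈ Ico c' J, Ψ e b * ∑ a ∈ Icc p c,
          S.ρ a c' b * S.Gf p c a c' b * S.Cw (e - c') (c + 1) c' b := by
        refine Finset.sum_comm' ?_
        intro x y
        simp only [Finset.mem_Ioo, Finset.mem_Ioc, Finset.mem_Ico]
        omega
    _ = _ := by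
        refine Finset.sum_congr rfl fun c' _ => ?_
        simp only [Finset.mul_sum]
        rw [Finset.sum_comm]
        refine Finset.sum_congr rfl fun a _ => Finset.sum_congr rfl fun e _ => ?_
        ring

lemma M_eq_SumCw {p c J : ℕ} (hJ : c < J) (b : ℕ → E) :
    S.M p c J b = S.SumCw p c J (fun e => S.w (e + 1) J) b := by
  obtain ⟨n, hn⟩ : ∃ n, n = J - c := ⟨_, rfl⟩
  induction n using Nat.strong_induction_on generalizing p c with
  | _ n ih =>
    rw [S.SumCw_rec hJ, S.M_expand]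
    congr 1
    refine Finset.sum_congr rfl fun c' hc' => Finset.sum_congr rfl fun a _ => ?_
    rw [Finset.mem_Ioo] at hc'
    rw [ih (J - c') (by omega) hc'.2 rfl]

/-! measurability and dependence -/

@[fun_prop]
lemma meas_Pc (p c c' : ℕ) : Measurable (S.Pc p c c') :=
  Finset.measurable_fun_prod _ fun a _ => measurable_const.add (S.meas a c')

@[fun_prop]
lemma meas_Gf (p c a c' : ℕ) : Measurable (S.Gf p c a c') := by
  refine Measurable.mul (Measurable.mul ?_ ?_) (S.meas_w _ _)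
  · exact Finset.measurable_fun_prod _ fun a _ => measurable_const.add (S.meas a c')
  · exact Finset.measurable_fun_prod _ fun c'' _ => S.meas_Pc p c c''

@[fun_prop]
lemma meas_M (p c J : ℕ) : Measurable (S.M p c J) :=
  (Finset.measurable_fun_prod _ fun c'' _ => S.meas_Pc p c c'').mul (S.meas_w _ _)

@[fun_prop]
lemma meas_Cw (n p c : ℕ) : Measurable (S.Cw n p c) := by
  induction n using Nat.strong_induction_on generalizing p c with
  | _ n ih =>
    rcases n with _ | n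
    · have : S.Cw 0 p c = fun _ => 1 := by funext b; rw [Cw]
      rw [this]; exact measurable_const
    · have : S.Cw (n + 1) p c = fun b => ∑ k : Fin (n + 1), ∑ a ∈ Icc p c,
        S.ρ a (c + k + 1) b * S.Gf p c a (c + k + 1) b * S.Cw (n - k) (c + 1) (c + k + 1) b := by
        funext b; rw [Cw]
      rw [this]
      refine Finset.measurable_fun_sum _ fun k _ => Finset.measurable_fun_sum _ fun a _ => ?_
      exact ((S.meas _ _).mul (S.meas_Gf _ _ _ _)).mul (ih (n - k) (by omega) _ _)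

lemma dep_ρ {a c : ℕ} {A : Set ℕ} (h : Set.Icc a c ⊆ A) : DependsOn (S.ρ a c) A :=
  (S.dep a c).mono h

lemma dep_w' {i j : ℕ} {A : Set ℕ} (h : Set.Ico i j ⊆ A) : DependsOn (S.w i j) A :=
  (S.dep_w i j).mono (by rw [Finset.coe_Ico]; exact h)

lemma dep_Pc {p c c' : ℕ} {A : Set ℕ} (h : Set.Icc p c' ⊆ A) : DependsOn (S.Pc p c c') A := by
  refine dep_prod fun a ha => dep_comp (S.dep_ρ ?_) (fun x => 1 + x)
  rw [Finset.mem_Icc] at ha
  exact (Set.Icc_subset_Icc_left ha.1).trans h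

lemma dep_Gf {p c a c' : ℕ} (hpc : p ≤ c) {A : Set ℕ} (h : Set.Icc p c' ⊆ A) :
    DependsOn (S.Gf p c a c') A := by
  refine dep_mul (dep_mul ?_ ?_) ?_
  · refine dep_prod fun a' ha => dep_comp (S.dep_ρ ?_) (fun x => 1 + x)
    rw [Finset.mem_filter, Finset.mem_Icc] at ha
    exact (Set.Icc_subset_Icc_left ha.1.1).trans h
  · refine dep_prod fun c'' hc => S.dep_Pc ?_
    rw [Finset.mem_Ioo] at hc
    exact (Set.Icc_subset_Icc_right hc.2.le).trans h
  · refine S.dep_w' ?_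
    intro x hx
    rw [Set.mem_Ico] at hx
    apply h; rw [Set.mem_Icc]; omega

lemma dep_Cw {n p c : ℕ} (hpc : p ≤ c) {A : Set ℕ} (h : Set.Icc p (c + n) ⊆ A) :
    DependsOn (S.Cw n p c) A := by
  induction n using Nat.strong_induction_on generalizing p c with
  | _ n ih =>
    rcases n with _ | n
    · have : S.Cw 0 p c = fun _ => 1 := by funext b; rw [Cw]
      rw [this]; exact fun _ _ _ => rfl
    · have : S.Cw (n + 1) p c = fun b => ∑ k : Fin (n + 1), ∑ a ∈ Icc p c,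
        S.ρ a (c + k + 1) b * S.Gf p c a (c + k + 1) b * S.Cw (n - k) (c + 1) (c + k + 1) b := by
        funext b; rw [Cw]
      rw [this]
      refine dep_sum fun k _ => dep_sum fun a ha => ?_
      rw [Finset.mem_Icc] at ha
      have hk := k.2
      refine dep_mul (dep_mul (S.dep_ρ ?_) (S.dep_Gf hpc ?_)) (ih (n - k) (by omega) (by omega) ?_)
      · intro x hx; rw [Set.mem_Icc] at hx; apply h; rw [Set.mem_Icc]; omega
      · intro x hx; rw [Set.mem_Icc] at hx; apply h; rw [Set.mem_Icc]; omega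
      · intro x hx; rw [Set.mem_Icc] at hx; apply h; rw [Set.mem_Icc]; omega

/-- the front factor times the remaining weight is at most the old weight -/
lemma Gf_mul_M_le {p c J a c' : ℕ} (hc' : c' ∈ Ioo c J) (b : ℕ → E) :
    S.Gf p c a c' b * S.M (c + 1) c' J b ≤ S.M p c J b := by
  rw [Finset.mem_Ioo] at hc'
  have h1 : S.Gf p c a c' b * S.M (c + 1) c' J b =
      ((∏ a' ∈ (Icc p c).filter (· < a), (1 + S.ρ a' c' b)) *
    (∏ c'' ∈ Ioo c c', S.Pc p c c'' b)) * S.w (c + 1) J b := by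
    rw [S.w_eq_M (c := c + 1) (c' := c') (by omega) (by omega)]
    unfold Gf; ring
  rw [h1, M]
  gcongr
  have h2 : Ioo c c' ∪ {c'} ⊆ Ioo c J := by
    intro x; simp; omega
  have hone : ∀ c'', 1 ≤ S.Pc p c c'' b := fun c'' => by
    calc (1 : ℝ≥0∞) = ∏ a ∈ Icc p c, 1 := by simp
      _ ≤ _ := Finset.prod_le_prod' fun _ _ => le_self_add
  calc (∏ a' ∈ (Icc p c).filter (· < a), (1 + S.ρ a' c' b)) * ∏ c'' ∈ Ioo c c', S.Pc p c c'' b
      ≤ S.Pc p c c' b * ∏ c'' ∈ Ioo c c', S.Pc p c c'' b := by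
        gcongr
        exact Finset.prod_le_prod_of_subset_of_one_le' (Finset.filter_subset _ _)
          fun _ _ _ => le_self_add
    _ = ∏ c'' ∈ Ioo c c' ∪ {c'}, S.Pc p c c'' b := by
        rw [Finset.prod_union (by simp), Finset.prod_singleton, mul_comm]
    _ ≤ _ := Finset.prod_le_prod_of_subset_of_one_le' h2 fun c'' _ _ => hone c''

end Sys

end Pool.Agent.Helper83.Traps
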