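import Pool.Agent.Helper83.Traps.Core4

open MeasureTheory ProbabilityTheory Filter Finset
open scoped ENNReal Topology

namespace Pool.Agent.Helper83.Traps

variable {E : Type*} [MeasurableSpace E] {d : ℕ}

namespace Disp

variable {S : Sys E} {μ : Measure E} (X : Disp S μ d)

lemma nsq_add_le' (x y : Fin d → ℤ) : (nsq (x + y) : ℝ≥0∞) ≤ 2 * nsq x + 2 * nsq y := by
  exact_mod_cast nsq_add_le x y

lemma nsq_sub_le' (x y : Fin d → ℤ) : (nsq (x - y) : ℝ≥0∞) ≤ 2 * nsq x + 2 * nsq y := by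
  exact_mod_cast nsq_sub_le x y

lemma meas_SumCw {p c J : ℕ} {Ψ : ℕ → (ℕ → E) → ℝ≥0∞} (hΨ : ∀ e, Measurable (Ψ e)) :
    Measurable (S.SumCw p c J Ψ) :=
  Finset.measurable_fun_sum _ fun e _ => (hΨ e).mul (S.meas_Cw _ _ _)

/-- the weight function at the end of a chain -/
noncomputable def Psi (c J : ℕ) (e : ℕ) (b : ℕ → E) : ℝ≥0∞ :=
  (nsq (X.sm (c + 1) (e + 1) b) : ℝ≥0∞) * S.w (e + 1) J b

lemma meas_Psi (c J e : ℕ) : Measurable (X.Psi c J e) :=
  (meas_nsq (X.meas_sm _ _)).mul (S.meas_w _ _)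

/-- changing the base point of the displacement at the cost of a factor 2 -/
lemma SumCw_Psi_le {c c' J : ℕ} (hc : c < c') (hJ : c' < J) (b : ℕ → E) :
    S.SumCw (c + 1) c' J (X.Psi c J) b ≤
      2 * (nsq (X.sm (c + 1) (c' + 1) b) : ℝ≥0∞) * S.M (c + 1) c' J b +
        2 * S.SumCw (c + 1) c' J (X.Psi c' J) b := by
  rw [S.M_eq_SumCw hJ]
  unfold Sys.SumCw
  rw [Finset.mul_sum, Finset.mul_sum, ← Finset.sum_add_distrib]
  refine Finset.sum_le_sum fun e he => ?_
  rw [Finset.mem_Ico] at he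
  unfold Psi
  rw [X.sm_add (i := c + 1) (c := c' + 1) (j := e + 1) (by omega) (by omega)]
  calc (nsq (X.sm (c + 1) (c' + 1) b + X.sm (c' + 1) (e + 1) b) : ℝ≥0∞) * S.w (e + 1) J b *
        S.Cw (e - c') (c + 1) c' b
      ≤ (2 * nsq (X.sm (c + 1) (c' + 1) b) + 2 * nsq (X.sm (c' + 1) (e + 1) b)) *
        S.w (e + 1) J b * S.Cw (e - c') (c + 1) c' b := by
        gcongr; exact nsq_add_le' _ _
    _ = _ := by ring

/-- sum of the coupling bounds over the intervals leaving `[p,c]` -/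
lemma sum_rect_le (r : ℕ → ℝ≥0∞) (p c J : ℕ) :
    ∑ c' ∈ Ioo c J, ∑ a ∈ Icc p c, r (c' - a) * ((c' - a + 1 : ℕ) : ℝ≥0∞) ≤
      ((c + 1 - p : ℕ) : ℝ≥0∞) * ∑' s : ℕ, (s + 1) * r s := by
  rw [Finset.sum_comm]
  have h1 : ∀ a ∈ Icc p c, ∑ c' ∈ Ioo c J, r (c' - a) * ((c' - a + 1 : ℕ) : ℝ≥0∞) ≤
      ∑' s : ℕ, (s + 1) * r s := by
    intro a ha
    rw [Finset.mem_Icc] at ha
    have hinj : Set.InjOn (fun c' : ℕ => c' - a) (Ioo c J : Set ℕ) := by
      intro x hx y hy hxy
      rw [Finset.mem_coe, Finset.mem_Ioo] at hx hy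
      simp only at hxy
      omega
    calc ∑ c' ∈ Ioo c J, r (c' - a) * ((c' - a + 1 : ℕ) : ℝ≥0∞)
        = ∑ s ∈ (Ioo c J).image (fun c' : ℕ => c' - a), r s * ((s + 1 : ℕ) : ℝ≥0∞) := by
          rw [Finset.sum_image hinj]
      _ = ∑ s ∈ (Ioo c J).image (fun c' : ℕ => c' - a), ((s : ℝ≥0∞) + 1) * r s := by
          refine Finset.sum_congr rfl fun s _ => ?_
          push_cast; ring
      _ ≤ _ := ENNReal.sum_le_tsum _
  calc _ ≤ ∑ a ∈ Icc p c, ∑' s : ℕ, (s + 1) * r s := Finset.sum_le_sum h1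
    _ = _ := by
        rw [Finset.sum_const, nsmul_eq_mul, Nat.card_Icc]

variable [IsProbabilityMeasure μ]

/-- bound for the contribution of connected chains -/
lemma chain_bound {V h : ℝ≥0∞} {i J : ℕ}
    (hD : ∀ a e, i ≤ a → a ≤ e → e < J → X.D a e ≤ V * ((e - a : ℕ) : ℝ≥0∞) * S.A μ a e)
    (hh : (∑' s : ℕ, (s + 1) * S.r s) * (4 * X.CG + 16 * X.Cq + 16 * V + 2 * h) ≤ h)
    (n : ℕ) : ∀ (p c : ℕ), n = J - c → i ≤ p → p ≤ c → c < J →
      ∀ (F : (ℕ → E) → ℝ≥0∞) (Φ : ℝ≥0∞), Measurable F →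
      (∀ b, F b * S.M p c J b ≤ Φ * S.w i J b) →
      ∫⁻ b, F b * S.SumCw p c J (X.Psi c J) b ∂PP μ ≤
        Φ * h * ((c + 1 - p : ℕ) : ℝ≥0∞) * S.A μ i J := by
  induction n using Nat.strong_induction_on with
  | _ n ih =>
    intro p c hn hip hpc hcJ F Φ hF hFM
    set R := ∑' s : ℕ, (s + 1) * S.r s with hR
    -- expand one step
    have hexp : ∀ b, F b * S.SumCw p c J (X.Psi c J) b ≤
        ∑ c' ∈ Ioo c J, ∑ a ∈ Icc p c,
          (2 * ((nsq (X.sm (c + 1) (c' + 1) b) : ℝ≥0∞) * S.ρ a c' b *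
            (F b * (S.Gf p c a c' b * S.M (c + 1) c' J b))) +
          2 * ((F b * S.ρ a c' b * S.Gf p c a c' b) * S.SumCw (c + 1) c' J (X.Psi c' J) b)) := by
      intro b
      rw [S.SumCw_rec hcJ]
      have h0 : X.Psi c J c b = 0 := by
        unfold Psi; rw [X.sm_self]; simp
      rw [h0, zero_add, Finset.mul_sum]
      refine Finset.sum_le_sum fun c' hc' => ?_
      rw [Finset.mem_Ioo] at hc'
      rw [Finset.mul_sum]
      refine Finset.sum_le_sum fun a _ => ?_
      calc F b * (S.ρ a c' b * S.Gf p c a c' b * S.SumCw (c + 1) c' J (X.Psi c J) b)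
          ≤ F b * (S.ρ a c' b * S.Gf p c a c' b *
            (2 * (nsq (X.sm (c + 1) (c' + 1) b) : ℝ≥0∞) * S.M (c + 1) c' J b +
            2 * S.SumCw (c + 1) c' J (X.Psi c' J) b)) := by
            gcongr; exact X.SumCw_Psi_le hc'.1 hc'.2 b
        _ = _ := by ring
    -- the two kinds of terms
    have hterm : ∀ c' ∈ Ioo c J, ∀ a ∈ Icc p c,
        ∫⁻ b, (2 * ((nsq (X.sm (c + 1) (c' + 1) b) : ℝ≥0∞) * S.ρ a c' b *
            (F b * (S.Gf p c a c' b * S.M (c + 1) c' J b))) +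
          2 * ((F b * S.ρ a c' b * S.Gf p c a c' b) * S.SumCw (c + 1) c' J (X.Psi c' J) b)) ∂PP μ
        ≤ Φ * (S.r (c' - a) * ((c' - a + 1 : ℕ) : ℝ≥0∞)) *
          (4 * X.CG + 16 * X.Cq + 16 * V + 2 * h) * S.A μ i J := by
      intro c' hc' a ha
      rw [Finset.mem_Ioo] at hc'
      rw [Finset.mem_Icc] at ha
      have hms : ∀ x y, Measurable fun b => (nsq (X.sm x y b) : ℝ≥0∞) := fun x y =>
        meas_nsq (X.meas_sm x y)
      have hmρ := S.meas a c'
      have hmG := S.meas_Gf p c a c'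
      have hmM := S.meas_M (c + 1) c' J
      have hmSC : Measurable (S.SumCw (c + 1) c' J (X.Psi c' J)) :=
        meas_SumCw (fun e => X.meas_Psi c' J e)
      have hm1 : Measurable fun b => 2 * ((nsq (X.sm (c + 1) (c' + 1) b) : ℝ≥0∞) * S.ρ a c' b *
            (F b * (S.Gf p c a c' b * S.M (c + 1) c' J b))) :=
        (((hms _ _).mul hmρ).mul (hF.mul (hmG.mul hmM))).const_mul 2
      rw [lintegral_add_left hm1]
      have hGM : ∀ b, F b * (S.Gf p c a c' b * S.M (c + 1) c' J b) ≤ Φ * S.w i J b := by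
        intro b
        refine le_trans ?_ (hFM b)
        gcongr
        exact S.Gf_mul_M_le (Finset.mem_Ioo.2 hc') b
      have hrk : (1 : ℝ≥0∞) ≤ ((c' - a + 1 : ℕ) : ℝ≥0∞) := by
        exact_mod_cast (by omega : 1 ≤ c' - a + 1)
      have hfirst : ∫⁻ b, 2 * ((nsq (X.sm (c + 1) (c' + 1) b) : ℝ≥0∞) * S.ρ a c' b *
            (F b * (S.Gf p c a c' b * S.M (c + 1) c' J b))) ∂PP μ ≤
          Φ * (S.r (c' - a) * ((c' - a + 1 : ℕ) : ℝ≥0∞)) *
          (4 * X.CG + 16 * X.Cq + 16 * V) * S.A μ i J := by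
        have hpt : ∀ b, 2 * ((nsq (X.sm (c + 1) (c' + 1) b) : ℝ≥0∞) * S.ρ a c' b *
            (F b * (S.Gf p c a c' b * S.M (c + 1) c' J b))) ≤
            (4 * Φ * S.r (c' - a) * (X.CG * ((c' - a + 1 : ℕ) : ℝ≥0∞))) * S.w i J b +
            ((4 * Φ * S.r (c' - a)) * (X.q (b a) * S.w i J b) +
            ((4 * Φ * S.r (c' - a)) * (X.q (b c') * S.w i J b) +
            (4 * Φ * S.r (c' - a)) * ((nsq (X.sm a (c + 1) b) : ℝ≥0∞) * S.w i J b))) := by
          intro b
          have e1 : X.sm (c + 1) (c' + 1) b = X.sm a (c' + 1) b - X.sm a (c + 1) b := by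
            rw [X.sm_add (i := a) (c := c + 1) (j := c' + 1) (by omega) (by omega)]; abel
          have e2 : (nsq (X.sm (c + 1) (c' + 1) b) : ℝ≥0∞) * S.ρ a c' b ≤
              2 * (S.r (c' - a) * (X.CG * ((c' - a + 1 : ℕ) : ℝ≥0∞) + X.q (b a) + X.q (b c'))) +
              2 * ((nsq (X.sm a (c + 1) b) : ℝ≥0∞) * S.r (c' - a)) := by
            calc (nsq (X.sm (c + 1) (c' + 1) b) : ℝ≥0∞) * S.ρ a c' b
                ≤ (2 * nsq (X.sm a (c' + 1) b) + 2 * nsq (X.sm a (c + 1) b)) * S.ρ a c' b := by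
                  rw [e1]; gcongr; exact nsq_sub_le' _ _
              _ = 2 * ((nsq (X.sm a (c' + 1) b) : ℝ≥0∞) * S.ρ a c' b) +
                  2 * ((nsq (X.sm a (c + 1) b) : ℝ≥0∞) * S.ρ a c' b) := by ring
              _ ≤ _ := add_le_add (mul_le_mul' le_rfl (X.G a c' b (by omega)))
                  (mul_le_mul' le_rfl (mul_le_mul' le_rfl (S.le a c' b (by omega))))
          calc 2 * ((nsq (X.sm (c + 1) (c' + 1) b) : ℝ≥0∞) * S.ρ a c' b *
                (F b * (S.Gf p c a c' b * S.M (c + 1) c' J b)))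
              ≤ 2 * ((2 * (S.r (c' - a) * (X.CG * ((c' - a + 1 : ℕ) : ℝ≥0∞) + X.q (b a) +
                X.q (b c'))) + 2 * ((nsq (X.sm a (c + 1) b) : ℝ≥0∞) * S.r (c' - a))) *
                (Φ * S.w i J b)) :=
                mul_le_mul' le_rfl (mul_le_mul' e2 (hGM b))
            _ = _ := by ring
        refine (lintegral_mono hpt).trans ?_
        have hmw := S.meas_w i J
        have hmq : ∀ l, Measurable fun b : ℕ → E => X.q (b l) := fun l =>
          X.measq.comp (measurable_pi_apply l)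
        have m1 : Measurable fun b => (4 * Φ * S.r (c' - a) *
            (X.CG * ((c' - a + 1 : ℕ) : ℝ≥0∞))) * S.w i J b := hmw.const_mul _
        have m2 : ∀ l, Measurable fun b => (X.q (b l) * S.w i J b) := fun l => (hmq l).mul hmw
        have m3 : Measurable fun b => ((nsq (X.sm a (c + 1) b) : ℝ≥0∞) * S.w i J b) :=
          (hms _ _).mul hmw
        rw [lintegral_add_left m1, lintegral_add_left ((m2 a).const_mul _),
          lintegral_add_left ((m2 c').const_mul _), lintegral_const_mul _ hmw,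
          lintegral_const_mul _ (m2 a), lintegral_const_mul _ (m2 c'), lintegral_const_mul _ m3]
        have hq := fun l => X.lintegral_q_le i J l
        have hw4 := X.lintegral_sub_window (i := i) (a := a) (e := c + 1) (J := J)
          (by omega) (by omega) (by omega)
        have hDa := hD a (c + 1) (by omega) (by omega) (by omega)
        have hAA : S.A μ i a * S.A μ a (c + 1) * S.A μ (c + 1) J ≤ S.A μ i J := by
          refine le_trans ?_ (S.A_mul_le μ (i := i) (c := c + 1) (j := J) (by omega) (by omega))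
          gcongr
          exact S.A_mul_le μ (by omega) (by omega)
        have hca : ((c + 1 - a : ℕ) : ℝ≥0∞) ≤ ((c' - a + 1 : ℕ) : ℝ≥0∞) := by
          exact_mod_cast (by omega : c + 1 - a ≤ c' - a + 1)
        have hw5 : ∫⁻ b, (nsq (X.sm a (c + 1) b) : ℝ≥0∞) * S.w i J b ∂PP μ ≤
            4 * V * ((c' - a + 1 : ℕ) : ℝ≥0∞) * S.A μ i J := by
          calc _ ≤ 4 * (S.A μ i a * X.D a (c + 1) * S.A μ (c + 1) J) := hw4
            _ ≤ 4 * (S.A μ i a * (V * ((c + 1 - a : ℕ) : ℝ≥0∞) * S.A μ a (c + 1)) *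
                S.A μ (c + 1) J) := by gcongr
            _ = 4 * V * ((c + 1 - a : ℕ) : ℝ≥0∞) *
                (S.A μ i a * S.A μ a (c + 1) * S.A μ (c + 1) J) := by ring
            _ ≤ _ := by gcongr
        calc _ ≤ 4 * Φ * S.r (c' - a) * (X.CG * ((c' - a + 1 : ℕ) : ℝ≥0∞)) * S.A μ i J +
              (4 * Φ * S.r (c' - a) * (2 * X.Cq * S.A μ i J) +
              (4 * Φ * S.r (c' - a) * (2 * X.Cq * S.A μ i J) +
              4 * Φ * S.r (c' - a) * (4 * V * ((c' - a + 1 : ℕ) : ℝ≥0∞) * S.A μ i J))) := by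
              gcongr
              · exact le_rfl
              · exact hq a
              · exact hq c'
          _ = 4 * Φ * S.r (c' - a) * (X.CG * ((c' - a + 1 : ℕ) : ℝ≥0∞)) * S.A μ i J +
              4 * Φ * S.r (c' - a) * (4 * X.Cq * 1) * S.A μ i J +
              4 * Φ * S.r (c' - a) * (4 * V * ((c' - a + 1 : ℕ) : ℝ≥0∞)) * S.A μ i J := by ring
          _ ≤ 4 * Φ * S.r (c' - a) * (X.CG * ((c' - a + 1 : ℕ) : ℝ≥0∞)) * S.A μ i J +
              4 * Φ * S.r (c' - a) * (4 * X.Cq * ((c' - a + 1 : ℕ) : ℝ≥0∞)) * S.A μ i J +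
              4 * Φ * S.r (c' - a) * (4 * V * ((c' - a + 1 : ℕ) : ℝ≥0∞)) * S.A μ i J := by
              gcongr
          _ = _ := by ring
      have hsecond : ∫⁻ b, 2 * ((F b * S.ρ a c' b * S.Gf p c a c' b) *
            S.SumCw (c + 1) c' J (X.Psi c' J) b) ∂PP μ ≤
          Φ * (S.r (c' - a) * ((c' - a + 1 : ℕ) : ℝ≥0∞)) * (2 * h) * S.A μ i J := by
        have hF' : Measurable fun b => F b * S.ρ a c' b * S.Gf p c a c' b :=
          (hF.mul hmρ).mul hmG
        have hm : Measurable fun b => (F b * S.ρ a c' b * S.Gf p c a c' b) *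
            S.SumCw (c + 1) c' J (X.Psi c' J) b := hF'.mul hmSC
        rw [lintegral_const_mul _ hm]
        have hih := ih (J - c') (by omega) (c + 1) c' rfl (by omega) (by omega) (by omega)
          (fun b => F b * S.ρ a c' b * S.Gf p c a c' b) (Φ * S.r (c' - a)) hF' (by
            intro b
            calc F b * S.ρ a c' b * S.Gf p c a c' b * S.M (c + 1) c' J b
                = S.ρ a c' b * (F b * (S.Gf p c a c' b * S.M (c + 1) c' J b)) := by ring
              _ ≤ S.r (c' - a) * (Φ * S.w i J b) :=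
                  mul_le_mul' (S.le a c' b (by omega)) (hGM b)
              _ = _ := by ring)
        have hcc : ((c' + 1 - (c + 1) : ℕ) : ℝ≥0∞) ≤ ((c' - a + 1 : ℕ) : ℝ≥0∞) := by
          exact_mod_cast (by omega : c' + 1 - (c + 1) ≤ c' - a + 1)
        calc _ ≤ 2 * (Φ * S.r (c' - a) * h * ((c' + 1 - (c + 1) : ℕ) : ℝ≥0∞) * S.A μ i J) := by
              gcongr
          _ ≤ 2 * (Φ * S.r (c' - a) * h * ((c' - a + 1 : ℕ) : ℝ≥0∞) * S.A μ i J) := by
              gcongr
          _ = _ := by ring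
      calc _ ≤ Φ * (S.r (c' - a) * ((c' - a + 1 : ℕ) : ℝ≥0∞)) *
            (4 * X.CG + 16 * X.Cq + 16 * V) * S.A μ i J +
            Φ * (S.r (c' - a) * ((c' - a + 1 : ℕ) : ℝ≥0∞)) * (2 * h) * S.A μ i J :=
            add_le_add hfirst hsecond
        _ = _ := by ring
    have hmeasT : ∀ c' a, Measurable fun b =>
        (2 * ((nsq (X.sm (c + 1) (c' + 1) b) : ℝ≥0∞) * S.ρ a c' b *
            (F b * (S.Gf p c a c' b * S.M (c + 1) c' J b))) +
          2 * ((F b * S.ρ a c' b * S.Gf p c a c' b) *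
            S.SumCw (c + 1) c' J (X.Psi c' J) b)) := by
      intro c' a
      have hmSC : Measurable (S.SumCw (c + 1) c' J (X.Psi c' J)) :=
        meas_SumCw (fun e => X.meas_Psi c' J e)
      exact ((((meas_nsq (X.meas_sm _ _)).mul (S.meas a c')).mul
        (hF.mul ((S.meas_Gf _ _ _ _).mul (S.meas_M _ _ _)))).const_mul 2).add
        ((((hF.mul (S.meas a c')).mul (S.meas_Gf _ _ _ _)).mul hmSC).const_mul 2)
    calc ∫⁻ b, F b * S.SumCw p c J (X.Psi c J) b ∂PP μ
        ≤ ∫⁻ b, ∑ c' ∈ Ioo c J, ∑ a ∈ Icc p c,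
          (2 * ((nsq (X.sm (c + 1) (c' + 1) b) : ℝ≥0∞) * S.ρ a c' b *
            (F b * (S.Gf p c a c' b * S.M (c + 1) c' J b))) +
          2 * ((F b * S.ρ a c' b * S.Gf p c a c' b) *
            S.SumCw (c + 1) c' J (X.Psi c' J) b)) ∂PP μ := lintegral_mono hexp
      _ = ∑ c' ∈ Ioo c J, ∑ a ∈ Icc p c, ∫⁻ b,
          (2 * ((nsq (X.sm (c + 1) (c' + 1) b) : ℝ≥0∞) * S.ρ a c' b *
            (F b * (S.Gf p c a c' b * S.M (c + 1) c' J b))) +
          2 * ((F b * S.ρ a c' b * S.Gf p c a c' b) *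
            S.SumCw (c + 1) c' J (X.Psi c' J) b)) ∂PP μ := by
          rw [lintegral_finsetSum _ fun c' _ =>
            Finset.measurable_fun_sum _ fun a _ => hmeasT c' a]
          refine Finset.sum_congr rfl fun c' _ => ?_
          rw [lintegral_finsetSum _ fun a _ => hmeasT c' a]
      _ ≤ ∑ c' ∈ Ioo c J, ∑ a ∈ Icc p c, Φ * (S.r (c' - a) * ((c' - a + 1 : ℕ) : ℝ≥0∞)) *
          (4 * X.CG + 16 * X.Cq + 16 * V + 2 * h) * S.A μ i J :=
          Finset.sum_le_sum fun c' hc' => Finset.sum_le_sum fun a ha => hterm c' hc' a ha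
      _ = Φ * (∑ c' ∈ Ioo c J, ∑ a ∈ Icc p c, S.r (c' - a) * ((c' - a + 1 : ℕ) : ℝ≥0∞)) *
          (4 * X.CG + 16 * X.Cq + 16 * V + 2 * h) * S.A μ i J := by
          simp only [Finset.mul_sum, Finset.sum_mul]
      _ ≤ Φ * (((c + 1 - p : ℕ) : ℝ≥0∞) * R) *
          (4 * X.CG + 16 * X.Cq + 16 * V + 2 * h) * S.A μ i J := by
          gcongr; exact sum_rect_le S.r p c J
      _ = Φ * ((c + 1 - p : ℕ) : ℝ≥0∞) * (R *
          (4 * X.CG + 16 * X.Cq + 16 * V + 2 * h)) * S.A μ i J := by ring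
      _ ≤ Φ * ((c + 1 - p : ℕ) : ℝ≥0∞) * h * S.A μ i J := by gcongr
      _ = _ := by ring

/-- **diffusive bound** for the tilted second moment -/
theorem D_le {V h : ℝ≥0∞}
    (hh : (∑' s : ℕ, (s + 1) * S.r s) * (4 * X.CG + 16 * X.Cq + 16 * V + 2 * h) ≤ h)
    (hV : 4 * X.Cq + 2 * h ≤ V) (n : ℕ) :
    ∀ i J, n = J - i → X.D i J ≤ V * ((J - i : ℕ) : ℝ≥0∞) * S.A μ i J := by
  induction n using Nat.strong_induction_on with
  | _ n ih =>
    intro i J hn
    by_cases hiJ : J ≤ i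
    · have : X.D i J = 0 := by
        unfold D
        simp only [X.sm_of_le hiJ, nsq_zero]
        simp
      rw [this]; positivity
    push Not at hiJ
    have hms : ∀ x y, Measurable fun b => (nsq (X.sm x y b) : ℝ≥0∞) := fun x y =>
      meas_nsq (X.meas_sm x y)
    set f : ℕ → (ℕ → E) → ℝ≥0∞ := fun e b => (1 + S.ρ i i b) * S.Cw (e - i) i i b with hf
    have hmf : ∀ e, Measurable (f e) := fun e =>
      (measurable_const.add (S.meas i i)).mul (S.meas_Cw _ _ _)
    have hdf : ∀ e, i ≤ e → DependsOn (f e) (Set.Ico i (e + 1)) := by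
      intro e he
      refine dep_mul (dep_comp (S.dep_ρ ?_) (fun x => 1 + x)) (S.dep_Cw le_rfl ?_)
      · intro x hx; rw [Set.mem_Icc] at hx; rw [Set.mem_Ico]; omega
      · intro x hx; rw [Set.mem_Icc] at hx; rw [Set.mem_Ico]; omega
    have hw : ∀ b, S.w i J b = ∑ e ∈ Ico i J, f e b * S.w (e + 1) J b := by
      intro b
      rw [S.w_eq_M (c := i) (c' := i) le_rfl hiJ, S.w_succ, S.M_eq_SumCw hiJ, Sys.SumCw,
        Finset.mul_sum]
      refine Finset.sum_congr rfl fun e _ => ?_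
      simp only [hf]; ring
    -- exact decomposition of D
    have hDdec : X.D i J = ∑ e ∈ Ico i J,
        ((∫⁻ b, (nsq (X.sm i (e + 1) b) : ℝ≥0∞) * f e b ∂PP μ) * S.A μ (e + 1) J +
        (∫⁻ b, f e b ∂PP μ) * X.D (e + 1) J) := by
      have h1 : ∀ b, (nsq (X.sm i J b) : ℝ≥0∞) * S.w i J b = ∑ e ∈ Ico i J,
          (nsq (X.sm i (e + 1) b + X.sm (e + 1) J b) : ℝ≥0∞) * f e b * S.w (e + 1) J b := by
        intro b
        rw [hw b, Finset.mul_sum]
        refine Finset.sum_congr rfl fun e he => ?_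
        rw [Finset.mem_Ico] at he
        rw [← X.sm_add (i := i) (c := e + 1) (j := J) (by omega) (by omega)]
        simp only [hf]; ring
      have hmm : ∀ e ∈ Ico i J, Measurable fun b =>
          (nsq (X.sm i (e + 1) b + X.sm (e + 1) J b) : ℝ≥0∞) * f e b * S.w (e + 1) J b :=
        fun e _ => ((meas_nsq ((X.meas_sm _ _).add (X.meas_sm _ _))).mul (hmf e)).mul
          (S.meas_w _ _)
      have h0 : X.D i J = ∫⁻ b, (nsq (X.sm i J b) : ℝ≥0∞) * S.w i J b ∂PP μ := rfl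
      rw [h0, lintegral_congr h1, lintegral_finsetSum _ hmm]
      refine Finset.sum_congr rfl fun e he => ?_
      rw [Finset.mem_Ico] at he
      exact X.lintegral_split (f e) (hmf e) (hdf e he.1)
    have hAdec : S.A μ i J = ∑ e ∈ Ico i J, (∫⁻ b, f e b ∂PP μ) * S.A μ (e + 1) J := by
      have hmm : ∀ e ∈ Ico i J, Measurable fun b => f e b * S.w (e + 1) J b :=
        fun e _ => (hmf e).mul (S.meas_w _ _)
      have h0 : S.A μ i J = ∫⁻ b, S.w i J b ∂PP μ := rfl
      rw [h0, lintegral_congr hw, lintegral_finsetSum _ hmm]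
      refine Finset.sum_congr rfl fun e he => ?_
      rw [Finset.mem_Ico] at he
      exact lintegral_mul_dep μ (hmf e) (S.meas_w _ _)
        (Finset.Ico_disjoint_Ico_consecutive i (e + 1) J)
        (by rw [Finset.coe_Ico]; exact hdf e he.1) (S.dep_w _ _)
    -- first part
    have hfirst : ∑ e ∈ Ico i J,
        (∫⁻ b, (nsq (X.sm i (e + 1) b) : ℝ≥0∞) * f e b ∂PP μ) * S.A μ (e + 1) J ≤
        (4 * X.Cq + 2 * h) * S.A μ i J := by
      have h1 : ∀ e ∈ Ico i J,
          (∫⁻ b, (nsq (X.sm i (e + 1) b) : ℝ≥0∞) * f e b ∂PP μ) * S.A μ (e + 1) J =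
          ∫⁻ b, (nsq (X.sm i (e + 1) b) : ℝ≥0∞) * f e b * S.w (e + 1) J b ∂PP μ := by
        intro e he
        rw [Finset.mem_Ico] at he
        have hm1 : Measurable fun b => (nsq (X.sm i (e + 1) b) : ℝ≥0∞) * f e b :=
          (hms _ _).mul (hmf e)
        rw [lintegral_mul_dep μ hm1 (S.meas_w (e + 1) J)
          (Finset.Ico_disjoint_Ico_consecutive i (e + 1) J)
          (dep_mul (X.dep_nsq_sm (by rw [Finset.coe_Ico]))
            (by rw [Finset.coe_Ico]; exact hdf e he.1)) (S.dep_w _ _)]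
        rfl
      have hmm : ∀ e ∈ Ico i J, Measurable fun b =>
          (nsq (X.sm i (e + 1) b) : ℝ≥0∞) * f e b * S.w (e + 1) J b :=
        fun e _ => ((hms _ _).mul (hmf e)).mul (S.meas_w _ _)
      rw [Finset.sum_congr rfl h1, ← lintegral_finsetSum _ hmm]
      have h2 : ∀ b, ∑ e ∈ Ico i J,
          (nsq (X.sm i (e + 1) b) : ℝ≥0∞) * f e b * S.w (e + 1) J b ≤
          2 * (X.q (b i) * S.w i J b) +
            2 * ((1 + S.ρ i i b) * S.SumCw i i J (X.Psi i J) b) := by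
        intro b
        rw [hw b, Sys.SumCw, Finset.mul_sum, Finset.mul_sum, Finset.mul_sum, Finset.mul_sum,
          ← Finset.sum_add_distrib]
        refine Finset.sum_le_sum fun e he => ?_
        rw [Finset.mem_Ico] at he
        unfold Psi
        rw [X.sm_add (i := i) (c := i + 1) (j := e + 1) (by omega) (by omega), X.sm_succ]
        calc (nsq (X.Δ (b i) + X.sm (i + 1) (e + 1) b) : ℝ≥0∞) * f e b * S.w (e + 1) J b
            ≤ (2 * X.q (b i) + 2 * nsq (X.sm (i + 1) (e + 1) b)) * f e b * S.w (e + 1) J b := by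
              gcongr
              refine (nsq_add_le' _ _).trans ?_
              gcongr
              exact X.Δ_le _
          _ = _ := by simp only [hf]; ring
      refine (lintegral_mono h2).trans ?_
      have hmq : Measurable fun b : ℕ → E => X.q (b i) := X.measq.comp (measurable_pi_apply i)
      have hmqw : Measurable fun b : ℕ → E => X.q (b i) * S.w i J b := hmq.mul (S.meas_w _ _)
      have hmSC : Measurable fun b => (1 + S.ρ i i b) * S.SumCw i i J (X.Psi i J) b :=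
        (measurable_const.add (S.meas i i)).mul (meas_SumCw (fun e => X.meas_Psi i J e))
      rw [lintegral_add_left (hmqw.const_mul 2), lintegral_const_mul _ hmqw,
        lintegral_const_mul _ hmSC]
      have hcb := X.chain_bound (V := V) (h := h) (i := i) (J := J) (by
        intro a e ha he heJ
        exact ih (e - a) (by omega) a e rfl) hh (J - i) i i rfl le_rfl le_rfl hiJ
        (fun b => 1 + S.ρ i i b) 1 (measurable_const.add (S.meas i i)) (by
          intro b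
          rw [one_mul, S.w_eq_M (c := i) (c' := i) le_rfl hiJ, S.w_succ])
      have hcb' : ∫⁻ b, (1 + S.ρ i i b) * S.SumCw i i J (X.Psi i J) b ∂PP μ ≤
          h * S.A μ i J := by
        refine hcb.trans (le_of_eq ?_)
        have : i + 1 - i = 1 := by omega
        rw [this]; simp
      calc _ ≤ 2 * (2 * X.Cq * S.A μ i J) + 2 * (h * S.A μ i J) := by
            gcongr
            exact X.lintegral_q_le i J i
        _ = _ := by ring
    -- second part
    have hsecond : ∑ e ∈ Ico i J, (∫⁻ b, f e b ∂PP μ) * X.D (e + 1) J ≤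
        V * ((J - i - 1 : ℕ) : ℝ≥0∞) * S.A μ i J := by
      rw [hAdec, Finset.mul_sum]
      refine Finset.sum_le_sum fun e he => ?_
      rw [Finset.mem_Ico] at he
      have h1 := ih (J - (e + 1)) (by omega) (e + 1) J rfl
      have h2 : ((J - (e + 1) : ℕ) : ℝ≥0∞) ≤ ((J - i - 1 : ℕ) : ℝ≥0∞) := by
        exact_mod_cast (by omega : J - (e + 1) ≤ J - i - 1)
      calc (∫⁻ b, f e b ∂PP μ) * X.D (e + 1) J
          ≤ (∫⁻ b, f e b ∂PP μ) * (V * ((J - (e + 1) : ℕ) : ℝ≥0∞) * S.A μ (e + 1) J) := by gcongr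
        _ ≤ (∫⁻ b, f e b ∂PP μ) * (V * ((J - i - 1 : ℕ) : ℝ≥0∞) * S.A μ (e + 1) J) := by gcongr
        _ = _ := by ring
    rw [hDdec, Finset.sum_add_distrib]
    calc _ ≤ (4 * X.Cq + 2 * h) * S.A μ i J + V * ((J - i - 1 : ℕ) : ℝ≥0∞) * S.A μ i J :=
          add_le_add hfirst hsecond
      _ ≤ V * S.A μ i J + V * ((J - i - 1 : ℕ) : ℝ≥0∞) * S.A μ i J := by gcongr
      _ = V * ((J - i - 1 : ℕ) + 1 : ℝ≥0∞) * S.A μ i J := by ring
      _ = _ := by
          have h3 : ((J - i : ℕ) : ℝ≥0∞) = ((J - i - 1 : ℕ) : ℝ≥0∞) + 1 := by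
            exact_mod_cast (by omega : J - i = J - i - 1 + 1)
          rw [h3]

end Disp

end Pool.Agent.Helper83.Traps
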