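import Pool.Agent.Helper83.Traps.Core5

open MeasureTheory ProbabilityTheory Filter Finset
open scoped ENNReal Topology

namespace Pool.Agent.Helper83.Traps

/-- choice of the truncation length -/
lemma exists_trunc : ∃ C0 : ℝ, 0 < C0 ∧ ∀ n : ℕ, ∃ L : ℕ, 1 ≤ L ∧ n ^ 2 ≤ L ^ 3 ∧
    Real.exp (-(n / (16 * L))) ≤ C0 * ((n : ℝ) + 1) ^ (-(5 / 2) : ℝ) := by
  refine ⟨(Nat.factorial 8) * 32 ^ 8 * 6, by positivity, fun n => ?_⟩
  rcases Nat.eq_zero_or_pos n with rfl | hn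
  · refine ⟨1, le_rfl, by simp, ?_⟩
    simp only [Nat.cast_zero, zero_div, neg_zero, Real.exp_zero, zero_add, Real.one_rpow, mul_one]
    have : (1 : ℝ) ≤ (Nat.factorial 8 : ℝ) := by
      exact_mod_cast Nat.one_le_iff_ne_zero.2 (Nat.factorial_ne_zero 8)
    nlinarith
  · have hn0 : (0 : ℝ) < n := Nat.cast_pos.2 hn
    have hn1 : (1 : ℝ) ≤ n := by exact_mod_cast hn
    set y : ℝ := (n : ℝ) ^ (2 / 3 : ℝ) with hy
    have hy1 : 1 ≤ y := Real.one_le_rpow hn1 (by norm_num)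
    set L := ⌈y⌉₊ with hL
    have hL1 : 1 ≤ L := Nat.one_le_ceil_iff.2 (by linarith)
    have hLy : y ≤ L := Nat.le_ceil y
    have hLy2 : (L : ℝ) ≤ 2 * y := by
      have := Nat.ceil_lt_add_one (by linarith : 0 ≤ y)
      linarith
    have hy3 : y ^ 3 = (n : ℝ) ^ 2 := by
      rw [hy, ← Real.rpow_natCast, ← Real.rpow_mul hn0.le, ← Real.rpow_natCast (n : ℝ) 2]
      norm_num
    refine ⟨L, hL1, ?_, ?_⟩
    · have : (n : ℝ) ^ 2 ≤ (L : ℝ) ^ 3 := by
        rw [← hy3]; gcongr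
      exact_mod_cast this
    · have hL0 : (0 : ℝ) < L := by positivity
      set x : ℝ := n / (16 * L) with hx
      have hx0 : 0 < x := by positivity
      -- x ≥ n^{1/3} / 32
      have hx1 : (n : ℝ) ^ (1 / 3 : ℝ) / 32 ≤ x := by
        rw [hx, div_le_div_iff₀ (by norm_num) (by positivity)]
        have h1 : (n : ℝ) ^ (1 / 3 : ℝ) * y = n := by
          rw [hy, ← Real.rpow_add hn0]; norm_num
        have h2 : 0 ≤ (n : ℝ) ^ (1 / 3 : ℝ) := by positivity
        nlinarith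
      have hexp : Real.exp (-x) ≤ (Nat.factorial 8) / x ^ 8 := by
        rw [Real.exp_neg, inv_le_comm₀ (Real.exp_pos x) (by positivity), inv_div]
        exact Real.pow_div_factorial_le_exp x hx0.le 8
      refine hexp.trans ?_
      have hx8 : ((n : ℝ) ^ (1 / 3 : ℝ) / 32) ^ 8 ≤ x ^ 8 := by gcongr
      have h3 : ((n : ℝ) ^ (1 / 3 : ℝ) / 32) ^ 8 = (n : ℝ) ^ (8 / 3 : ℝ) / 32 ^ 8 := by
        rw [div_pow, ← Real.rpow_natCast ((n : ℝ) ^ (1 / 3 : ℝ)), ← Real.rpow_mul hn0.le]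
        norm_num
      have h4 : (n : ℝ) ^ (5 / 2 : ℝ) ≤ (n : ℝ) ^ (8 / 3 : ℝ) :=
        Real.rpow_le_rpow_of_exponent_le hn1 (by norm_num)
      have h5 : ((n : ℝ) + 1) ^ (5 / 2 : ℝ) ≤ 6 * (n : ℝ) ^ (5 / 2 : ℝ) := by
        calc ((n : ℝ) + 1) ^ (5 / 2 : ℝ) ≤ (2 * (n : ℝ)) ^ (5 / 2 : ℝ) := by
              apply Real.rpow_le_rpow (by positivity) (by linarith) (by norm_num)
          _ = (2 : ℝ) ^ (5 / 2 : ℝ) * (n : ℝ) ^ (5 / 2 : ℝ) := by
              rw [Real.mul_rpow (by norm_num) hn0.le]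
          _ ≤ _ := by
              gcongr
              have : (2 : ℝ) ^ (5 / 2 : ℝ) ≤ (6 : ℝ) := by
                rw [show (5 / 2 : ℝ) = (5 : ℕ) * (1 / 2 : ℝ) by norm_num, Real.rpow_mul (by norm_num),
                  Real.rpow_natCast, ← Real.sqrt_eq_rpow]
                rw [Real.sqrt_le_left (by norm_num)]
                norm_num
              exact this
      have hpos : 0 < (n : ℝ) ^ (8 / 3 : ℝ) := by positivity
      rw [div_le_iff₀ (by positivity), Real.rpow_neg (by positivity)]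
      have h6 : 0 < ((n : ℝ) + 1) ^ (5 / 2 : ℝ) := by positivity
      calc (Nat.factorial 8 : ℝ) = (Nat.factorial 8) * 32 ^ 8 * 6 *
            (((n : ℝ) + 1) ^ (5 / 2 : ℝ))⁻¹ * ((((n : ℝ) + 1) ^ (5 / 2 : ℝ)) / 6 / 32 ^ 8) := by
            field_simp
        _ ≤ (Nat.factorial 8) * 32 ^ 8 * 6 * (((n : ℝ) + 1) ^ (5 / 2 : ℝ))⁻¹ * x ^ 8 := by
            gcongr
            refine le_trans ?_ hx8
            rw [h3]
            gcongr
            linarith

end Pool.Agent.Helper83.Traps
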