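import Pool.Agent.Helper83.Traps.Core6

open MeasureTheory ProbabilityTheory Filter Finset
open scoped ENNReal Topology

namespace Pool.Agent.Helper83.Traps

variable {E : Type*} [MeasurableSpace E] {d : ℕ}

/-- total length of a family of intervals -/
def tl (Γ : Finset (ℕ × ℕ)) : ℕ := ∑ p ∈ Γ, (p.2 - p.1 + 1)

/-- the blocks covered by a family of intervals -/
def cover (Γ : Finset (ℕ × ℕ)) : Finset ℕ := Γ.biUnion fun p => Icc p.1 p.2

lemma card_cover_le (Γ : Finset (ℕ × ℕ)) : (cover Γ).card ≤ tl Γ := by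
  refine Finset.card_biUnion_le.trans (Finset.sum_le_sum fun p _ => ?_)
  rw [Nat.card_Icc]; omega

namespace Disp

variable {S : Sys E} {μ : Measure E} (X : Disp S μ d)

/-- local bound for the free walk -/
def LocHyp (CX : ℝ) : Prop := ∀ (A : Finset ℕ) (z : Fin d → ℤ),
  PP μ {b | ∑ k ∈ A, X.Δ (b k) = z} ≤ ENNReal.ofReal (CX * ((A.card : ℝ) + 1) ^ (-(5 / 2) : ℝ))

variable [IsProbabilityMeasure μ]

/-- sum of the increments over a set of blocks -/
def sa (A : Finset ℕ) (b : ℕ → E) : Fin d → ℤ := ∑ k ∈ A, X.Δ (b k)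

omit [IsProbabilityMeasure μ] in
lemma meas_sa (A : Finset ℕ) : Measurable (X.sa A) :=
  Finset.measurable_fun_sum _ fun k _ => X.measΔ.comp (measurable_pi_apply k)

omit [IsProbabilityMeasure μ] in
lemma dep_sa (A : Finset ℕ) : DependsOn (X.sa A) (A : Set ℕ) := by
  refine dep_sum fun k hk => ?_
  intro x y hxy
  simp only
  rw [hxy k (by simpa using hk)]

omit [IsProbabilityMeasure μ] in
lemma meas_ind {f : (ℕ → E) → Fin d → ℤ} (hf : Measurable f) (z : Fin d → ℤ) :
    Measurable fun b => if f b = z then (1 : ℝ≥0∞) else 0 :=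
  (Measurable.of_discrete (f := fun x : Fin d → ℤ => if x = z then (1 : ℝ≥0∞) else 0)).comp hf

lemma one_family {CX : ℝ} (hX : X.LocHyp CX) {i j : ℕ} {Γ : Finset (ℕ × ℕ)} (hΓ : Γ ⊆ Int i j)
    (z : Fin d → ℤ) :
    ∫⁻ b, (∏ p ∈ Γ, S.ρ p.1 p.2 b) * (if X.sm i j b = z then 1 else 0) ∂PP μ ≤
      ENNReal.ofReal (CX * (((Ico i j \ cover Γ).card : ℝ) + 1) ^ (-(5 / 2) : ℝ)) *
        ∫⁻ b, ∏ p ∈ Γ, S.ρ p.1 p.2 b ∂PP μ := by
  set C := cover Γ with hC
  set U := Ico i j \ C with hU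
  have hCsub : C ⊆ Ico i j := by
    intro k hk
    rw [hC, cover, Finset.mem_biUnion] at hk
    obtain ⟨p, hp, hk⟩ := hk
    have := mem_Int.1 (hΓ hp)
    rw [Finset.mem_Icc] at hk
    rw [Finset.mem_Ico]; omega
  have hsm : ∀ b, X.sm i j b = X.sa C b + X.sa U b := by
    intro b
    unfold sm sa
    rw [add_comm, hU, Finset.sum_sdiff hCsub]
  have hmρ : Measurable fun b => ∏ p ∈ Γ, S.ρ p.1 p.2 b :=
    Finset.measurable_fun_prod _ fun p _ => S.meas p.1 p.2
  have hdρ : DependsOn (fun b => ∏ p ∈ Γ, S.ρ p.1 p.2 b) (C : Set ℕ) := by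
    refine dep_prod fun p hp => S.dep_ρ ?_
    intro k hk
    rw [Finset.mem_coe, hC, cover, Finset.mem_biUnion]
    exact ⟨p, hp, by simpa using hk⟩
  have hdisj : Disjoint C U := Finset.disjoint_sdiff
  have hsplit : ∀ b, (∏ p ∈ Γ, S.ρ p.1 p.2 b) * (if X.sm i j b = z then (1 : ℝ≥0∞) else 0) =
      ∑' v : Fin d → ℤ, ((∏ p ∈ Γ, S.ρ p.1 p.2 b) * (if X.sa C b = v then 1 else 0)) *
        (if X.sa U b = z - v then 1 else 0) := by
    intro b
    rw [tsum_eq_single (X.sa C b)]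
    · rw [hsm b, if_pos rfl, mul_one]
      congr 1
      have : X.sa C b + X.sa U b = z ↔ X.sa U b = z - X.sa C b := by
        constructor
        · rintro rfl; abel
        · intro h; rw [h]; abel
      simp only [this]
    · intro v hv
      rw [if_neg (Ne.symm hv)]; simp
  have hm1 : ∀ v, Measurable fun b => (∏ p ∈ Γ, S.ρ p.1 p.2 b) *
      (if X.sa C b = v then (1 : ℝ≥0∞) else 0) := fun v =>
    hmρ.mul (meas_ind (X.meas_sa C) v)
  have hm2 : ∀ v, Measurable fun b => (if X.sa U b = v then (1 : ℝ≥0∞) else 0) := fun v =>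
    meas_ind (X.meas_sa U) v
  have hd1 : ∀ v, DependsOn (fun b => (∏ p ∈ Γ, S.ρ p.1 p.2 b) *
      (if X.sa C b = v then (1 : ℝ≥0∞) else 0)) (C : Set ℕ) := fun v =>
    dep_mul hdρ (dep_comp (X.dep_sa C) (fun x => if x = v then (1 : ℝ≥0∞) else 0))
  have hd2 : ∀ v, DependsOn (fun b => (if X.sa U b = v then (1 : ℝ≥0∞) else 0)) (U : Set ℕ) :=
    fun v => dep_comp (X.dep_sa U) (fun x => if x = v then (1 : ℝ≥0∞) else 0)
  have hUle : ∀ v, ∫⁻ b, (if X.sa U b = v then (1 : ℝ≥0∞) else 0) ∂PP μ ≤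
      ENNReal.ofReal (CX * ((U.card : ℝ) + 1) ^ (-(5 / 2) : ℝ)) := by
    intro v
    refine le_trans (le_of_eq ?_) (hX U v)
    have hset : MeasurableSet {b | X.sa U b = v} := by
      have := X.meas_sa U (measurableSet_singleton v)
      exact this
    have : (fun b => if X.sa U b = v then (1 : ℝ≥0∞) else 0) =
        Set.indicator {b | X.sa U b = v} 1 := by
      funext b
      by_cases h : X.sa U b = v
      · simp [h]
      · simp [h]
    rw [this, lintegral_indicator_one hset]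
    rfl
  have hm3 : ∀ v : Fin d → ℤ, Measurable fun b => ((∏ p ∈ Γ, S.ρ p.1 p.2 b) *
      (if X.sa C b = v then (1 : ℝ≥0∞) else 0)) * (if X.sa U b = z - v then 1 else 0) :=
    fun v => (hm1 v).mul (hm2 (z - v))
  rw [lintegral_congr hsplit, lintegral_tsum fun v => (hm3 v).aemeasurable]
  calc ∑' v, ∫⁻ b, ((∏ p ∈ Γ, S.ρ p.1 p.2 b) * (if X.sa C b = v then 1 else 0)) *
        (if X.sa U b = z - v then 1 else 0) ∂PP μ
      = ∑' v, (∫⁻ b, (∏ p ∈ Γ, S.ρ p.1 p.2 b) * (if X.sa C b = v then 1 else 0) ∂PP μ) *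
        ∫⁻ b, (if X.sa U b = z - v then 1 else 0) ∂PP μ :=
        tsum_congr fun v => lintegral_mul_dep μ (hm1 v) (hm2 _) hdisj (hd1 v) (hd2 _)
    _ ≤ ∑' v, (∫⁻ b, (∏ p ∈ Γ, S.ρ p.1 p.2 b) * (if X.sa C b = v then 1 else 0) ∂PP μ) *
        ENNReal.ofReal (CX * ((U.card : ℝ) + 1) ^ (-(5 / 2) : ℝ)) := by
        refine ENNReal.tsum_le_tsum fun v => ?_
        gcongr
        exact hUle _
    _ = ENNReal.ofReal (CX * ((U.card : ℝ) + 1) ^ (-(5 / 2) : ℝ)) *
        ∑' v, ∫⁻ b, (∏ p ∈ Γ, S.ρ p.1 p.2 b) * (if X.sa C b = v then 1 else 0) ∂PP μ := by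
        rw [ENNReal.tsum_mul_right, mul_comm]
    _ = _ := by
        congr 1
        rw [← lintegral_tsum fun v => (hm1 v).aemeasurable]
        refine lintegral_congr fun b => ?_
        rw [tsum_eq_single (X.sa C b)]
        · simp
        · intro v hv; rw [if_neg (Ne.symm hv)]; simp

end Disp

/-- (1+x)^k ≤ 1 + 2kx when kx ≤ 1/2 -/
lemma pow_le_lin (x : ℝ≥0∞) (k : ℕ) (h : (k : ℝ≥0∞) * x ≤ 1 / 2) :
    (1 + x) ^ k ≤ 1 + 2 * (k * x) := by
  have := prod_one_add_le (Finset.range k) (fun _ => x) (by simpa using h)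
  simpa using this

namespace Sys

variable (S : Sys E)

/-- short intervals -/
def Sh (L i j : ℕ) : Finset (ℕ × ℕ) := (Int i j).filter fun p => p.2 - p.1 + 1 ≤ L

lemma w_le_short {L i j : ℕ}
    (htail : ((j - i : ℕ) : ℝ≥0∞) * ∑' s : ℕ, S.r (s + L) ≤ 1 / 2) (b : ℕ → E) :
    S.w i j b ≤ 2 * ∏ p ∈ Sh L i j, (1 + S.ρ p.1 p.2 b) := by
  unfold w Sh
  rw [← Finset.prod_filter_mul_prod_filter_not (Int i j) (fun p => p.2 - p.1 + 1 ≤ L), mul_comm]
  gcongr
  calc ∏ p ∈ (Int i j).filter (fun p => ¬ p.2 - p.1 + 1 ≤ L), (1 + S.ρ p.1 p.2 b)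
      ≤ ∏ p ∈ (Int i j).filter (fun p => ¬ p.2 - p.1 + 1 ≤ L), (1 + S.r (p.2 - p.1)) := by
        refine Finset.prod_le_prod' fun p hp => ?_
        rw [mem_filter, mem_Int] at hp
        gcongr
        exact S.le _ _ _ (by omega)
    _ ≤ 2 := by
        refine prod_one_add_le_two _ _ (le_trans ?_ htail)
        calc ∑ p ∈ (Int i j).filter (fun p => ¬ p.2 - p.1 + 1 ≤ L), S.r (p.2 - p.1)
            ≤ ∑ a ∈ Ico i j, ∑ c ∈ Ico (a + L) j, S.r (c - a) := by
              rw [Finset.sum_sigma']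
              have hinj : Set.InjOn (fun p : ℕ × ℕ => (⟨p.1, p.2⟩ : Σ _ : ℕ, ℕ))
                  ((Int i j).filter (fun p => ¬ p.2 - p.1 + 1 ≤ L) : Set (ℕ × ℕ)) := by
                rintro ⟨a, c⟩ _ ⟨a', c'⟩ _ h
                simp only [Sigma.mk.injEq, heq_eq_eq] at h
                simp [h.1, h.2]
              rw [← Finset.sum_image (s := (Int i j).filter (fun p => ¬ p.2 - p.1 + 1 ≤ L))
                (g := fun p : ℕ × ℕ => (⟨p.1, p.2⟩ : Σ _ : ℕ, ℕ))
                (f := fun q : Σ _ : ℕ, ℕ => S.r (q.2 - q.1)) hinj]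
              apply Finset.sum_le_sum_of_subset
              intro q hq
              rw [Finset.mem_image] at hq
              obtain ⟨p, hp, rfl⟩ := hq
              rw [mem_filter, mem_Int] at hp
              rw [Finset.mem_sigma, Finset.mem_Ico, Finset.mem_Ico]
              simp only
              omega
          _ ≤ ∑ a ∈ Ico i j, ∑' s : ℕ, S.r (s + L) := by
              refine Finset.sum_le_sum fun a _ => ?_
              have hinj : Set.InjOn (fun c : ℕ => c - (a + L)) (Ico (a + L) j : Set ℕ) := by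
                intro x hx y hy hxy
                rw [Finset.mem_coe, Finset.mem_Ico] at hx hy
                simp only at hxy
                omega
              calc ∑ c ∈ Ico (a + L) j, S.r (c - a)
                  = ∑ c ∈ Ico (a + L) j, (fun s => S.r (s + L)) (c - (a + L)) := by
                    refine Finset.sum_congr rfl fun c hc => ?_
                    rw [Finset.mem_Ico] at hc
                    simp only
                    congr 1; omega
                _ = ∑ s ∈ (Ico (a + L) j).image (fun c : ℕ => c - (a + L)), S.r (s + L) := by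
                    rw [Finset.sum_image hinj]
                _ ≤ _ := ENNReal.sum_le_tsum _
          _ = _ := by rw [Finset.sum_const, Nat.card_Ico, nsmul_eq_mul]

end Sys

end Pool.Agent.Helper83.Traps
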