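import Pool.Agent.Helper83.Traps.Core7

open MeasureTheory ProbabilityTheory Filter Finset
open scoped ENNReal Topology

namespace Pool.Agent.Helper83.Traps

variable {E : Type*} [MeasurableSpace E] {d : ℕ}

namespace Sys

variable (S : Sys E)

/-- products over short intervals of the length-weighted couplings -/
lemma prod_len_le {L i j : ℕ} (lam : ℝ≥0∞)
    (hR : 4 * lam * ∑' s : ℕ, (s + 1) * S.r s ≤ 1 / 2) :
    ∏ p ∈ Sh L i j, (1 + 4 * ((p.2 - p.1 + 1 : ℕ) : ℝ≥0∞) * lam * S.r (p.2 - p.1)) ≤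
      (1 + 2 * (4 * lam * ∑' s : ℕ, (s + 1) * S.r s)) ^ (j - i) := by
  have hsub : ∏ p ∈ Sh L i j, (1 + 4 * ((p.2 - p.1 + 1 : ℕ) : ℝ≥0∞) * lam * S.r (p.2 - p.1)) ≤
      ∏ a ∈ Ico i j, ∏ c ∈ Ico a j, (1 + 4 * ((c - a + 1 : ℕ) : ℝ≥0∞) * lam * S.r (c - a)) := by
    rw [Finset.prod_sigma']
    have hinj : Set.InjOn (fun p : ℕ × ℕ => (⟨p.1, p.2⟩ : Σ _ : ℕ, ℕ))
        (Sh L i j : Set (ℕ × ℕ)) := by
      rintro ⟨a, c⟩ _ ⟨a', c'⟩ _ h
      simp only [Sigma.mk.injEq, heq_eq_eq] at h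
      simp [h.1, h.2]
    rw [← Finset.prod_image (s := Sh L i j)
      (g := fun p : ℕ × ℕ => (⟨p.1, p.2⟩ : Σ _ : ℕ, ℕ))
      (f := fun q : Σ _ : ℕ, ℕ => (1 + 4 * ((q.2 - q.1 + 1 : ℕ) : ℝ≥0∞) * lam *
        S.r (q.2 - q.1))) hinj]
    refine Finset.prod_le_prod_of_subset_of_one_le' ?_ fun _ _ _ => le_self_add
    intro q hq
    rw [Finset.mem_image] at hq
    obtain ⟨p, hp, rfl⟩ := hq
    rw [Sh, mem_filter, mem_Int] at hp
    rw [Finset.mem_sigma, Finset.mem_Ico, Finset.mem_Ico]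
    simp only
    omega
  refine hsub.trans ?_
  have hrow : ∀ a ∈ Ico i j, ∏ c ∈ Ico a j,
      (1 + 4 * ((c - a + 1 : ℕ) : ℝ≥0∞) * lam * S.r (c - a)) ≤
      1 + 2 * (4 * lam * ∑' s : ℕ, (s + 1) * S.r s) := by
    intro a _
    have hs : ∑ c ∈ Ico a j, 4 * ((c - a + 1 : ℕ) : ℝ≥0∞) * lam * S.r (c - a) ≤
        4 * lam * ∑' s : ℕ, (s + 1) * S.r s := by
      have hinj : Set.InjOn (fun c : ℕ => c - a) (Ico a j : Set ℕ) := by
        intro x hx y hy hxy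
        rw [Finset.mem_coe, Finset.mem_Ico] at hx hy
        simp only at hxy
        omega
      calc ∑ c ∈ Ico a j, 4 * ((c - a + 1 : ℕ) : ℝ≥0∞) * lam * S.r (c - a)
          = 4 * lam * ∑ c ∈ Ico a j, (fun s : ℕ => ((s : ℝ≥0∞) + 1) * S.r s) (c - a) := by
            rw [Finset.mul_sum]
            refine Finset.sum_congr rfl fun c _ => ?_
            push_cast
            ring
        _ = 4 * lam * ∑ s ∈ (Ico a j).image (fun c : ℕ => c - a), ((s : ℝ≥0∞) + 1) * S.r s := by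
            rw [Finset.sum_image hinj]
        _ ≤ _ := by
            gcongr
            exact ENNReal.sum_le_tsum _
    refine (prod_one_add_le _ _ (hs.trans hR)).trans ?_
    gcongr
  calc ∏ a ∈ Ico i j, ∏ c ∈ Ico a j, (1 + 4 * ((c - a + 1 : ℕ) : ℝ≥0∞) * lam * S.r (c - a))
      ≤ ∏ a ∈ Ico i j, (1 + 2 * (4 * lam * ∑' s : ℕ, (s + 1) * S.r s)) :=
        Finset.prod_le_prod' hrow
    _ = _ := by rw [Finset.prod_const, Nat.card_Ico]

/-- the numerical comparison -/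
lemma num_cmp {L : ℕ} (hL : 1 ≤ L) (n : ℕ) :
    (1 + ENNReal.ofReal (1 / (4 * L)) / 2) ^ n ≤
      ENNReal.ofReal (Real.exp (-(n / (16 * L)))) * (1 + ENNReal.ofReal (1 / (4 * L))) ^ n := by
  have hL0 : (1 : ℝ) ≤ L := by exact_mod_cast hL
  set x : ℝ := 1 / (4 * L) with hx
  have hx0 : 0 < x := by positivity
  have hx1 : x ≤ 1 := by
    rw [hx, div_le_one (by positivity)]; linarith
  have e0 : ENNReal.ofReal x / 2 = ENNReal.ofReal (x / 2) := by
    rw [ENNReal.ofReal_div_of_pos (show (0 : ℝ) < 2 by norm_num)]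
    congr 1
    simp
  have e1 : (1 + ENNReal.ofReal x / 2) = ENNReal.ofReal (1 + x / 2) := by
    rw [e0, ENNReal.ofReal_add (by norm_num) (by positivity), ENNReal.ofReal_one]
  have e2 : (1 + ENNReal.ofReal x) = ENNReal.ofReal (1 + x) := by
    rw [ENNReal.ofReal_add (by norm_num) (by positivity), ENNReal.ofReal_one]
  rw [e1, e2, ← ENNReal.ofReal_pow (by positivity), ← ENNReal.ofReal_pow (by positivity),
    ← ENNReal.ofReal_mul (by positivity)]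
  apply ENNReal.ofReal_le_ofReal
  have h3 : 1 + x / 2 ≤ Real.exp (-(x / 4)) * (1 + x) := by
    have := Real.add_one_le_exp (-(x / 4))
    nlinarith
  have h4 : Real.exp (-(n / (16 * L))) = Real.exp (-(x / 4)) ^ n := by
    rw [← Real.exp_nat_mul]
    congr 1
    rw [hx]; field_simp; ring
  rw [h4, ← mul_pow]
  exact pow_le_pow_left₀ (by positivity) h3 n

/-- families of large total length are exponentially unlikely -/
lemma bad_le {L i j : ℕ} (hL : 1 ≤ L) (hR : ∑' s : ℕ, (s + 1) * S.r s ≤ 1 / 16) (b : ℕ → E) :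
    ∑ Γ ∈ (Sh L i j).powerset.filter (fun Γ => ¬ 2 * tl Γ ≤ j - i), ∏ p ∈ Γ, S.ρ p.1 p.2 b ≤
      ENNReal.ofReal (Real.exp (-((j - i : ℕ) / (16 * L)))) *
        ∏ p ∈ Sh L i j, (1 + S.ρ p.1 p.2 b) := by
  set lam : ℝ≥0∞ := ENNReal.ofReal (1 / (4 * L)) with hlam
  have hL0 : (1 : ℝ) ≤ L := by exact_mod_cast hL
  have hlamL : (L : ℝ≥0∞) * lam = ENNReal.ofReal (1 / 4) := by
    rw [hlam, ← ENNReal.ofReal_natCast, ← ENNReal.ofReal_mul (by positivity)]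
    congr 1
    field_simp
  have hquarter : ENNReal.ofReal (1 / 4) = 1 / 4 := by
    rw [ENNReal.ofReal_div_of_pos (by norm_num)]; norm_num
  have hlam1 : lam ≤ 1 := by
    rw [hlam, ← ENNReal.ofReal_one]
    apply ENNReal.ofReal_le_ofReal
    rw [div_le_one (by positivity)]; linarith
  have h416 : (4 : ℝ≥0∞) * (1 / 16) = 1 / 4 := by
    rw [show (4 : ℝ≥0∞) = ENNReal.ofReal 4 by norm_num,
      show (1 / 16 : ℝ≥0∞) = ENNReal.ofReal (1 / 16) by
        rw [ENNReal.ofReal_div_of_pos (by norm_num)]; norm_num,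
      ← ENNReal.ofReal_mul (by norm_num), show (1 : ℝ≥0∞) = ENNReal.ofReal 1 by norm_num,
      ← ENNReal.ofReal_div_of_pos (by norm_num)]
    norm_num
  have hhalf : (1 / 4 : ℝ≥0∞) ≤ 1 / 2 := by
    gcongr; norm_num
  have hR4 : 4 * lam * ∑' s : ℕ, (s + 1) * S.r s ≤ 1 / 2 := by
    calc 4 * lam * ∑' s : ℕ, (s + 1) * S.r s ≤ 4 * 1 * (1 / 16) := by gcongr
      _ = 1 / 4 := by rw [mul_one, h416]
      _ ≤ _ := hhalf
  set t : ℝ≥0∞ := 1 + lam with ht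
  have ht1 : 1 ≤ t := le_self_add
  have htpow0 : t ^ (j - i) ≠ 0 := by positivity
  have httop : t ^ (j - i) ≠ ⊤ := by
    apply ENNReal.pow_ne_top
    rw [ht, hlam]
    exact ENNReal.add_ne_top.2 ⟨ENNReal.one_ne_top, ENNReal.ofReal_ne_top⟩
  -- multiply by t^n
  have hmain : t ^ (j - i) * ∑ Γ ∈ (Sh L i j).powerset.filter (fun Γ => ¬ 2 * tl Γ ≤ j - i),
      ∏ p ∈ Γ, S.ρ p.1 p.2 b ≤
      t ^ (j - i) * (ENNReal.ofReal (Real.exp (-((j - i : ℕ) / (16 * L)))) *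
        ∏ p ∈ Sh L i j, (1 + S.ρ p.1 p.2 b)) := by
    calc t ^ (j - i) * ∑ Γ ∈ (Sh L i j).powerset.filter (fun Γ => ¬ 2 * tl Γ ≤ j - i),
        ∏ p ∈ Γ, S.ρ p.1 p.2 b
        ≤ ∑ Γ ∈ (Sh L i j).powerset.filter (fun Γ => ¬ 2 * tl Γ ≤ j - i),
          ∏ p ∈ Γ, (t ^ (2 * (p.2 - p.1 + 1)) * S.ρ p.1 p.2 b) := by
          rw [Finset.mul_sum]
          refine Finset.sum_le_sum fun Γ hΓ => ?_
          rw [mem_filter] at hΓ
          rw [Finset.prod_mul_distrib, Finset.prod_pow_eq_pow_sum, ← Finset.mul_sum]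
          have : ∑ p ∈ Γ, (p.2 - p.1 + 1) = tl Γ := rfl
          rw [this]
          exact mul_le_mul' (pow_le_pow_right' ht1 (by omega)) le_rfl
      _ ≤ ∑ Γ ∈ (Sh L i j).powerset,
          ∏ p ∈ Γ, (t ^ (2 * (p.2 - p.1 + 1)) * S.ρ p.1 p.2 b) :=
          Finset.sum_le_sum_of_subset (Finset.filter_subset _ _)
      _ = ∏ p ∈ Sh L i j, (1 + t ^ (2 * (p.2 - p.1 + 1)) * S.ρ p.1 p.2 b) := by
          rw [Finset.prod_one_add]
      _ ≤ ∏ p ∈ Sh L i j, ((1 + S.ρ p.1 p.2 b) *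
          (1 + 4 * ((p.2 - p.1 + 1 : ℕ) : ℝ≥0∞) * lam * S.r (p.2 - p.1))) := by
          refine Finset.prod_le_prod' fun p hp => ?_
          rw [Sh, mem_filter, mem_Int] at hp
          have h1 : ((2 * (p.2 - p.1 + 1) : ℕ) : ℝ≥0∞) * lam ≤ 1 / 2 := by
            calc ((2 * (p.2 - p.1 + 1) : ℕ) : ℝ≥0∞) * lam ≤ ((2 * L : ℕ) : ℝ≥0∞) * lam := by
                  gcongr; exact hp.2
              _ = 2 * (L * lam) := by push_cast; ring
              _ = 2 * (1 / 4) := by rw [hlamL, hquarter]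
              _ = 1 / 2 := by
                  rw [show (4 : ℝ≥0∞) = 2 * 2 by norm_num, one_div, one_div,
                    ENNReal.mul_inv (by simp) (by simp), ← mul_assoc,
                    ENNReal.mul_inv_cancel (by simp) (by simp), one_mul]
          have h2 := pow_le_lin lam _ h1
          have h3 := S.le p.1 p.2 b (by omega)
          calc 1 + t ^ (2 * (p.2 - p.1 + 1)) * S.ρ p.1 p.2 b
              ≤ 1 + (1 + 2 * (((2 * (p.2 - p.1 + 1) : ℕ) : ℝ≥0∞) * lam)) * S.ρ p.1 p.2 b := by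
                gcongr
            _ = (1 + S.ρ p.1 p.2 b) +
                4 * ((p.2 - p.1 + 1 : ℕ) : ℝ≥0∞) * lam * S.ρ p.1 p.2 b := by
                push_cast; ring
            _ ≤ (1 + S.ρ p.1 p.2 b) +
                4 * ((p.2 - p.1 + 1 : ℕ) : ℝ≥0∞) * lam * S.r (p.2 - p.1) := by gcongr
            _ ≤ (1 + S.ρ p.1 p.2 b) * 1 + (1 + S.ρ p.1 p.2 b) *
                (4 * ((p.2 - p.1 + 1 : ℕ) : ℝ≥0∞) * lam * S.r (p.2 - p.1)) := by
                rw [mul_one]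
                exact add_le_add le_rfl (le_mul_of_one_le_left zero_le le_self_add)
            _ = _ := by ring
      _ = (∏ p ∈ Sh L i j, (1 + S.ρ p.1 p.2 b)) *
          ∏ p ∈ Sh L i j, (1 + 4 * ((p.2 - p.1 + 1 : ℕ) : ℝ≥0∞) * lam * S.r (p.2 - p.1)) :=
          Finset.prod_mul_distrib
      _ ≤ (∏ p ∈ Sh L i j, (1 + S.ρ p.1 p.2 b)) *
          (1 + 2 * (4 * lam * ∑' s : ℕ, (s + 1) * S.r s)) ^ (j - i) := by
          gcongr
          exact S.prod_len_le lam hR4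
      _ ≤ (∏ p ∈ Sh L i j, (1 + S.ρ p.1 p.2 b)) * (1 + lam / 2) ^ (j - i) := by
          gcongr
          calc 2 * (4 * lam * ∑' s : ℕ, (s + 1) * S.r s) ≤ 2 * (4 * lam * (1 / 16)) := by gcongr
            _ = lam * (2 * (4 * (1 / 16))) := by ring
            _ = lam * (2 * (1 / 4)) := by rw [h416]
            _ = lam * (1 / 2) := by
                rw [show (4 : ℝ≥0∞) = 2 * 2 by norm_num, one_div, one_div,
                    ENNReal.mul_inv (by simp) (by simp), ← mul_assoc 2 (2⁻¹) (2⁻¹),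
                    ENNReal.mul_inv_cancel (by simp) (by simp), one_mul]
            _ = lam / 2 := by rw [one_div, div_eq_mul_inv]
      _ ≤ (∏ p ∈ Sh L i j, (1 + S.ρ p.1 p.2 b)) *
          (ENNReal.ofReal (Real.exp (-((j - i : ℕ) / (16 * L)))) * (1 + lam) ^ (j - i)) := by
          gcongr
          exact num_cmp hL (j - i)
      _ = _ := by ring
  exact (ENNReal.mul_le_mul_iff_right htpow0 httop).1 hmain

end Sys

namespace Disp

variable {S : Sys E} {μ : Measure E} (X : Disp S μ d) [IsProbabilityMeasure μ]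

/-- **local bound** for the tilted walk -/
theorem local_bound {CX C0 : ℝ} (hCX : 0 ≤ CX) (hX : X.LocHyp CX)
    (hC0 : 0 < C0 ∧ ∀ n : ℕ, ∃ L : ℕ, 1 ≤ L ∧ n ^ 2 ≤ L ^ 3 ∧
      Real.exp (-(n / (16 * L))) ≤ C0 * ((n : ℝ) + 1) ^ (-(5 / 2) : ℝ))
    (hR : ∑' s : ℕ, (s + 1) * S.r s ≤ 1 / 16)
    (htail : ∀ n L : ℕ, 1 ≤ L → n ^ 2 ≤ L ^ 3 → (n : ℝ≥0∞) * ∑' s : ℕ, S.r (s + L) ≤ 1 / 2)
    (i j : ℕ) (z : Fin d → ℤ) :
    ∫⁻ b, S.w i j b * (if X.sm i j b = z then 1 else 0) ∂PP μ ≤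
      ENNReal.ofReal ((12 * CX + 2 * C0) * (((j - i : ℕ) : ℝ) + 1) ^ (-(5 / 2) : ℝ)) *
        S.A μ i j := by
  obtain ⟨L, hL1, hL2, hL3⟩ := hC0.2 (j - i)
  set n := j - i with hn
  set G := (Sys.Sh L i j).powerset.filter (fun Γ => 2 * tl Γ ≤ n) with hG
  set B := (Sys.Sh L i j).powerset.filter (fun Γ => ¬ 2 * tl Γ ≤ n) with hB
  set I : (ℕ → E) → ℝ≥0∞ := fun b => if X.sm i j b = z then 1 else 0 with hI
  have hmI : Measurable I := meas_ind (X.meas_sm i j) z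
  have hI1 : ∀ b, I b ≤ 1 := fun b => by
    simp only [hI]; split_ifs <;> simp
  have hmρ : ∀ Γ : Finset (ℕ × ℕ), Measurable fun b => ∏ p ∈ Γ, S.ρ p.1 p.2 b := fun Γ =>
    Finset.measurable_fun_prod _ fun p _ => S.meas p.1 p.2
  have hpt : ∀ b, S.w i j b * I b ≤
      2 * (∑ Γ ∈ G, (∏ p ∈ Γ, S.ρ p.1 p.2 b) * I b +
        ENNReal.ofReal (Real.exp (-(n / (16 * L)))) * S.w i j b) := by
    intro b
    have h1 := S.w_le_short (L := L) (i := i) (j := j) (htail n L hL1 hL2) b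
    rw [Finset.prod_one_add, ← Finset.sum_filter_add_sum_filter_not _
      (fun Γ => 2 * tl Γ ≤ n)] at h1
    have h2 := S.bad_le (L := L) (i := i) (j := j) hL1 hR b
    have h3 : ∏ p ∈ Sys.Sh L i j, (1 + S.ρ p.1 p.2 b) ≤ S.w i j b :=
      S.prod_mono (Finset.filter_subset _ _) b
    calc S.w i j b * I b ≤ 2 * (∑ Γ ∈ G, ∏ p ∈ Γ, S.ρ p.1 p.2 b +
          ∑ Γ ∈ B, ∏ p ∈ Γ, S.ρ p.1 p.2 b) * I b := mul_le_mul' h1 le_rfl
      _ = 2 * ((∑ Γ ∈ G, ∏ p ∈ Γ, S.ρ p.1 p.2 b) * I b +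
          (∑ Γ ∈ B, ∏ p ∈ Γ, S.ρ p.1 p.2 b) * I b) := by ring
      _ ≤ 2 * ((∑ Γ ∈ G, ∏ p ∈ Γ, S.ρ p.1 p.2 b) * I b +
          (ENNReal.ofReal (Real.exp (-(n / (16 * L)))) * S.w i j b) * 1) := by
          refine mul_le_mul' le_rfl (add_le_add le_rfl (mul_le_mul' ?_ (hI1 b)))
          exact h2.trans (mul_le_mul' le_rfl h3)
      _ = _ := by rw [mul_one, Finset.sum_mul]
  refine (lintegral_mono hpt).trans ?_
  have hmG : ∀ Γ ∈ G, Measurable fun b => (∏ p ∈ Γ, S.ρ p.1 p.2 b) * I b := fun Γ _ =>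
    (hmρ Γ).mul hmI
  have hmsum : Measurable fun b => ∑ Γ ∈ G, (∏ p ∈ Γ, S.ρ p.1 p.2 b) * I b :=
    Finset.measurable_fun_sum _ hmG
  have hmw : Measurable fun b =>
      ENNReal.ofReal (Real.exp (-(n / (16 * L)))) * S.w i j b := (S.meas_w i j).const_mul _
  have hmtot : Measurable fun b => ∑ Γ ∈ G, (∏ p ∈ Γ, S.ρ p.1 p.2 b) * I b +
      ENNReal.ofReal (Real.exp (-(n / (16 * L)))) * S.w i j b := hmsum.add hmw
  rw [lintegral_const_mul _ hmtot, lintegral_add_left hmsum, lintegral_finsetSum _ hmG,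
    lintegral_const_mul _ (S.meas_w i j)]
  have hgood : ∑ Γ ∈ G, ∫⁻ b, (∏ p ∈ Γ, S.ρ p.1 p.2 b) * I b ∂PP μ ≤
      ENNReal.ofReal (6 * CX * ((n : ℝ) + 1) ^ (-(5 / 2) : ℝ)) * S.A μ i j := by
    calc ∑ Γ ∈ G, ∫⁻ b, (∏ p ∈ Γ, S.ρ p.1 p.2 b) * I b ∂PP μ
        ≤ ∑ Γ ∈ G, ENNReal.ofReal (6 * CX * ((n : ℝ) + 1) ^ (-(5 / 2) : ℝ)) *
          ∫⁻ b, ∏ p ∈ Γ, S.ρ p.1 p.2 b ∂PP μ := by
          refine Finset.sum_le_sum fun Γ hΓ => ?_
          rw [hG, mem_filter, Finset.mem_powerset] at hΓ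
          have hΓI : Γ ⊆ Int i j := hΓ.1.trans (Finset.filter_subset _ _)
          refine (X.one_family hX hΓI z).trans ?_
          refine mul_le_mul' (ENNReal.ofReal_le_ofReal ?_) le_rfl
          have hU : n ≤ (Ico i j \ cover Γ).card + tl Γ := by
            have h1 := Finset.le_card_sdiff (cover Γ) (Ico i j)
            rw [Nat.card_Ico] at h1
            have h2 := card_cover_le Γ
            omega
          have hU2 : ((n : ℝ) + 1) / 2 ≤ ((Ico i j \ cover Γ).card : ℝ) + 1 := by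
            have h3 : n ≤ 2 * (Ico i j \ cover Γ).card := by omega
            have : (n : ℝ) ≤ 2 * ((Ico i j \ cover Γ).card : ℝ) := by exact_mod_cast h3
            linarith
          have h4 : (((Ico i j \ cover Γ).card : ℝ) + 1) ^ (-(5 / 2) : ℝ) ≤
              (((n : ℝ) + 1) / 2) ^ (-(5 / 2) : ℝ) :=
            Real.rpow_le_rpow_of_nonpos (by positivity) hU2 (by norm_num)
          have h5 : (((n : ℝ) + 1) / 2) ^ (-(5 / 2) : ℝ) ≤
              6 * ((n : ℝ) + 1) ^ (-(5 / 2) : ℝ) := by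
            rw [Real.div_rpow (by positivity) (by norm_num), div_eq_mul_inv, mul_comm,
              ← Real.rpow_neg (by norm_num), neg_neg]
            gcongr
            rw [show (5 / 2 : ℝ) = (5 : ℕ) * (1 / 2 : ℝ) by norm_num, Real.rpow_mul (by norm_num),
              Real.rpow_natCast, ← Real.sqrt_eq_rpow, Real.sqrt_le_left (by norm_num)]
            norm_num
          calc CX * (((Ico i j \ cover Γ).card : ℝ) + 1) ^ (-(5 / 2) : ℝ)
              ≤ CX * (6 * ((n : ℝ) + 1) ^ (-(5 / 2) : ℝ)) := by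
                gcongr; exact h4.trans h5
            _ = _ := by ring
      _ = ENNReal.ofReal (6 * CX * ((n : ℝ) + 1) ^ (-(5 / 2) : ℝ)) *
          ∫⁻ b, ∑ Γ ∈ G, ∏ p ∈ Γ, S.ρ p.1 p.2 b ∂PP μ := by
          rw [← Finset.mul_sum, lintegral_finsetSum _ fun Γ _ => hmρ Γ]
      _ ≤ _ := by
          refine mul_le_mul' le_rfl (lintegral_mono fun b => ?_)
          calc ∑ Γ ∈ G, ∏ p ∈ Γ, S.ρ p.1 p.2 b
              ≤ ∑ Γ ∈ (Sys.Sh L i j).powerset, ∏ p ∈ Γ, S.ρ p.1 p.2 b :=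
                Finset.sum_le_sum_of_subset (Finset.filter_subset _ _)
            _ = ∏ p ∈ Sys.Sh L i j, (1 + S.ρ p.1 p.2 b) := by rw [Finset.prod_one_add]
            _ ≤ S.w i j b := S.prod_mono (Finset.filter_subset _ _) b
  have hbad : ENNReal.ofReal (Real.exp (-(n / (16 * L)))) * ∫⁻ b, S.w i j b ∂PP μ ≤
      ENNReal.ofReal (C0 * ((n : ℝ) + 1) ^ (-(5 / 2) : ℝ)) * S.A μ i j :=
    mul_le_mul' (ENNReal.ofReal_le_ofReal hL3) le_rfl
  calc _ ≤ 2 * (ENNReal.ofReal (6 * CX * ((n : ℝ) + 1) ^ (-(5 / 2) : ℝ)) * S.A μ i j +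
        ENNReal.ofReal (C0 * ((n : ℝ) + 1) ^ (-(5 / 2) : ℝ)) * S.A μ i j) :=
        mul_le_mul' le_rfl (add_le_add hgood hbad)
    _ = (2 * (ENNReal.ofReal (6 * CX * ((n : ℝ) + 1) ^ (-(5 / 2) : ℝ)) +
        ENNReal.ofReal (C0 * ((n : ℝ) + 1) ^ (-(5 / 2) : ℝ)))) * S.A μ i j := by ring
    _ = _ := by
        congr 1
        have hC0' := hC0.1
        rw [← ENNReal.ofReal_add (by positivity) (by positivity),
          show (2 : ℝ≥0∞) = ENNReal.ofReal 2 by norm_num, ← ENNReal.ofReal_mul (by norm_num)]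
        congr 1
        ring

end Disp

end Pool.Agent.Helper83.Traps
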