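import Pool.Agent.Helper83.Traps.Core8

open MeasureTheory ProbabilityTheory Filter Finset
open scoped ENNReal Topology

namespace Pool.Agent.Helper83.Traps

variable {E : Type*} [MeasurableSpace E] {d : ℕ}

lemma prod_tele (G : ℕ → ℝ≥0∞) (n : ℕ) : ∀ i T, n = T - i →
    ∏ k ∈ Ico i T, (1 + G k) = 1 + ∑ j ∈ Ico i T, G j * ∏ k ∈ Ico (j + 1) T, (1 + G k) := by
  induction n with
  | zero =>
    intro i T h
    have : Ico i T = ∅ := Finset.Ico_eq_empty_of_le (by omega)
    simp [this]
  | succ n ih =>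
    intro i T h
    have h1 : Ico i T = insert i (Ico (i + 1) T) := by
      ext x; simp; omega
    have h2 : i ∉ Ico (i + 1) T := by simp
    rw [h1, Finset.prod_insert h2, Finset.sum_insert h2, add_mul, one_mul,
      ih (i + 1) T (by omega)]
    rw [← ih (i + 1) T (by omega)]
    nth_rewrite 1 [ih (i + 1) T (by omega)]
    ring

namespace Disp

variable {S : Sys E} {μ : Measure E} (X : Disp S μ d) [IsProbabilityMeasure μ]

/-- the position together with the next block, inserted in a function -/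
lemma meas_g {g : (Fin d → ℤ) → E → ℝ≥0∞} (hg : ∀ x, Measurable (g x)) (x : Fin d → ℤ)
    (i k : ℕ) : Measurable fun b : ℕ → E => g (x + X.sm i k b) (b k) := by
  have h1 : Measurable fun p : (Fin d → ℤ) × E => g p.1 p.2 :=
    measurable_from_prod_countable_right hg
  have h2 : Measurable fun b : ℕ → E => (x + X.sm i k b, b k) :=
    ((measurable_const.add (X.meas_sm i k))).prodMk (measurable_pi_apply k)
  exact h1.comp h2

omit [IsProbabilityMeasure μ] in
lemma dep_g {g : (Fin d → ℤ) → E → ℝ≥0∞} (x : Fin d → ℤ)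
    {i k : ℕ} {A : Set ℕ} (h : Set.Ico i k ⊆ A) (hk : k ∈ A) :
    DependsOn (fun b : ℕ → E => g (x + X.sm i k b) (b k)) A := by
  intro b b' hb
  simp only
  rw [hb k hk, X.dep_sm h hb]

/-- the perturbed partition function is at most twice the partition function -/
theorem pert_bound {g : ℕ → (Fin d → ℤ) → E → ℝ≥0∞} (hg : ∀ k x, Measurable (g k x))
    {η : ℕ → ℝ≥0∞} (hη : 12 * ∑' s, η s ≤ 1) (T : ℕ)
    (hgη : ∀ i j, i ≤ j → j < T → ∀ x,
      ∫⁻ b, S.w i j b * g j (x + X.sm i j b) (b j) ∂PP μ ≤ η (j - i) * S.A μ i j) (n : ℕ) :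
    ∀ i, n = T - i → ∀ x, ∫⁻ b, S.w i T b *
      ∏ k ∈ Ico i T, (1 + g k (x + X.sm i k b) (b k)) ∂PP μ ≤ 2 * S.A μ i T := by
  induction n using Nat.strong_induction_on with
  | _ n ih =>
    intro i hn x
    have hmg : ∀ x i k, Measurable fun b : ℕ → E => g k (x + X.sm i k b) (b k) := fun x i k =>
      X.meas_g (hg k) x i k
    have hmP : ∀ x i j, Measurable fun b : ℕ → E =>
        ∏ k ∈ Ico j T, (1 + g k (x + X.sm i k b) (b k)) := fun x i j =>
      Finset.measurable_fun_prod _ fun k _ => measurable_const.add (hmg x i k)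
    have hexp : ∀ b, S.w i T b * ∏ k ∈ Ico i T, (1 + g k (x + X.sm i k b) (b k)) =
        S.w i T b + ∑ j ∈ Ico i T, S.w i T b * (g j (x + X.sm i j b) (b j) *
          ∏ k ∈ Ico (j + 1) T, (1 + g k (x + X.sm i k b) (b k))) := by
      intro b
      rw [prod_tele (fun k => g k (x + X.sm i k b) (b k)) (T - i) i T rfl, mul_add, mul_one,
        Finset.mul_sum]
    have hm1 : ∀ j ∈ Ico i T, Measurable fun b => S.w i T b * (g j (x + X.sm i j b) (b j) *
          ∏ k ∈ Ico (j + 1) T, (1 + g k (x + X.sm i k b) (b k))) := fun j _ =>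
      (S.meas_w i T).mul ((hmg x i j).mul (hmP x i (j + 1)))
    rw [lintegral_congr hexp, lintegral_add_left (S.meas_w i T), lintegral_finsetSum _ hm1]
    have hterm : ∀ j ∈ Ico i T, ∫⁻ b, S.w i T b * (g j (x + X.sm i j b) (b j) *
          ∏ k ∈ Ico (j + 1) T, (1 + g k (x + X.sm i k b) (b k))) ∂PP μ ≤
        12 * η (j - i) * S.A μ i T := by
      intro j hj
      rw [Finset.mem_Ico] at hj
      set f : (ℕ → E) → ℝ≥0∞ := fun b => S.w i (j + 1) b * g j (x + X.sm i j b) (b j) with hf
      have hmf : Measurable f := (S.meas_w _ _).mul (hmg x i j)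
      have hdf : DependsOn f ((Finset.Ico i (j + 1) : Finset ℕ) : Set ℕ) := by
        refine dep_mul (S.dep_w i (j + 1)) (X.dep_g x ?_ ?_)
        · rw [Finset.coe_Ico]; exact Set.Ico_subset_Ico_right (by omega)
        · rw [Finset.coe_Ico, Set.mem_Ico]; omega
      -- cut at j + 1
      have hcut : ∀ b, S.w i T b * (g j (x + X.sm i j b) (b j) *
          ∏ k ∈ Ico (j + 1) T, (1 + g k (x + X.sm i k b) (b k))) ≤
          2 * ∑' v : Fin d → ℤ, (f b * (if X.sm i (j + 1) b = v then 1 else 0)) *
            (S.w (j + 1) T b *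
              ∏ k ∈ Ico (j + 1) T, (1 + g k ((x + v) + X.sm (j + 1) k b) (b k))) := by
        intro b
        rw [tsum_eq_single (X.sm i (j + 1) b) (by
          intro v hv; rw [if_neg (Ne.symm hv)]; simp), if_pos rfl, mul_one]
        have hP : ∏ k ∈ Ico (j + 1) T, (1 + g k (x + X.sm i k b) (b k)) =
            ∏ k ∈ Ico (j + 1) T,
              (1 + g k ((x + X.sm i (j + 1) b) + X.sm (j + 1) k b) (b k)) := by
          refine Finset.prod_congr rfl fun k hk => ?_
          rw [Finset.mem_Ico] at hk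
          rw [X.sm_add (i := i) (c := j + 1) (j := k) (by omega) (by omega), ← add_assoc]
        rw [hP]
        calc S.w i T b * (g j (x + X.sm i j b) (b j) * ∏ k ∈ Ico (j + 1) T,
              (1 + g k ((x + X.sm i (j + 1) b) + X.sm (j + 1) k b) (b k)))
            ≤ (2 * (S.w i (j + 1) b * S.w (j + 1) T b)) *
              (g j (x + X.sm i j b) (b j) * ∏ k ∈ Ico (j + 1) T,
              (1 + g k ((x + X.sm i (j + 1) b) + X.sm (j + 1) k b) (b k))) :=
              mul_le_mul' (S.w_le (by omega) (by omega) b) le_rfl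
          _ = _ := by simp only [hf]; ring
      have hm2 : ∀ v, Measurable fun b => f b * (if X.sm i (j + 1) b = v then (1 : ℝ≥0∞) else 0) :=
        fun v => hmf.mul (meas_ind (X.meas_sm _ _) v)
      have hd2 : ∀ v, DependsOn (fun b => f b * (if X.sm i (j + 1) b = v then (1 : ℝ≥0∞) else 0))
          ((Finset.Ico i (j + 1) : Finset ℕ) : Set ℕ) := fun v =>
        dep_mul hdf (dep_comp (X.dep_sm (by rw [Finset.coe_Ico]))
          (fun y => if y = v then (1 : ℝ≥0∞) else 0))
      have hm3 : ∀ v : Fin d → ℤ, Measurable fun b => S.w (j + 1) T b *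
              ∏ k ∈ Ico (j + 1) T, (1 + g k ((x + v) + X.sm (j + 1) k b) (b k)) := fun v =>
        (S.meas_w _ _).mul (hmP _ _ _)
      have hd3 : ∀ v : Fin d → ℤ, DependsOn (fun b => S.w (j + 1) T b *
              ∏ k ∈ Ico (j + 1) T, (1 + g k ((x + v) + X.sm (j + 1) k b) (b k)))
          ((Finset.Ico (j + 1) T : Finset ℕ) : Set ℕ) := fun v => by
        refine dep_mul (S.dep_w _ _) (dep_prod fun k hk => ?_)
        rw [Finset.mem_Ico] at hk
        refine dep_comp (f := fun b : ℕ → E => g k ((x + v) + X.sm (j + 1) k b) (b k))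
          (X.dep_g _ ?_ ?_) (fun y => 1 + y)
        · rw [Finset.coe_Ico]; exact Set.Ico_subset_Ico_right (by omega)
        · rw [Finset.coe_Ico, Set.mem_Ico]; omega
      have hm4 : ∀ v : Fin d → ℤ, Measurable fun b =>
          (f b * (if X.sm i (j + 1) b = v then 1 else 0)) * (S.w (j + 1) T b *
              ∏ k ∈ Ico (j + 1) T, (1 + g k ((x + v) + X.sm (j + 1) k b) (b k))) := fun v =>
        (hm2 v).mul (hm3 v)
      have hm5 : Measurable fun b => ∑' v : Fin d → ℤ,
          (f b * (if X.sm i (j + 1) b = v then 1 else 0)) * (S.w (j + 1) T b *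
              ∏ k ∈ Ico (j + 1) T, (1 + g k ((x + v) + X.sm (j + 1) k b) (b k))) :=
        Measurable.ennreal_tsum hm4
      have hfint : ∫⁻ b, f b ∂PP μ ≤ 3 * (η (j - i) * S.A μ i j) := by
        have h1 : ∀ b, f b ≤ 3 * (S.w i j b * g j (x + X.sm i j b) (b j)) := by
          intro b
          have h2 : S.w i (j + 1) b ≤ 3 * S.w i j b := by
            calc S.w i (j + 1) b ≤ 2 * (S.w i j b * S.w j (j + 1) b) :=
                  S.w_le (by omega) (by omega) b
              _ ≤ 2 * (S.w i j b * (1 + 1 / 2)) := by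
                  rw [S.w_succ]
                  refine mul_le_mul' le_rfl (mul_le_mul' le_rfl (add_le_add le_rfl ?_))
                  refine (S.le j j b le_rfl).trans (le_trans ?_ S.small)
                  calc S.r (j - j) = ((0 : ℕ) + 1 : ℝ≥0∞) * S.r 0 := by simp
                    _ ≤ _ := ENNReal.le_tsum (f := fun s : ℕ => ((s : ℝ≥0∞) + 1) * S.r s) 0
              _ = (2 * (1 + 1 / 2)) * S.w i j b := by ring
              _ = _ := by
                  congr 1
                  rw [mul_add, one_div, ENNReal.mul_inv_cancel (by simp) (by simp)]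
                  norm_num
          calc f b ≤ (3 * S.w i j b) * g j (x + X.sm i j b) (b j) := mul_le_mul' h2 le_rfl
            _ = _ := by ring
        have hm6 : Measurable fun b => S.w i j b * g j (x + X.sm i j b) (b j) :=
          (S.meas_w i j).mul (hmg x i j)
        refine (lintegral_mono h1).trans ?_
        rw [lintegral_const_mul _ hm6]
        exact mul_le_mul' le_rfl (hgη i j hj.1 hj.2 x)
      calc ∫⁻ b, S.w i T b * (g j (x + X.sm i j b) (b j) *
          ∏ k ∈ Ico (j + 1) T, (1 + g k (x + X.sm i k b) (b k))) ∂PP μ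
          ≤ ∫⁻ b, 2 * ∑' v : Fin d → ℤ, (f b * (if X.sm i (j + 1) b = v then 1 else 0)) *
            (S.w (j + 1) T b *
              ∏ k ∈ Ico (j + 1) T, (1 + g k ((x + v) + X.sm (j + 1) k b) (b k))) ∂PP μ :=
            lintegral_mono hcut
        _ = 2 * ∑' v : Fin d → ℤ, (∫⁻ b, f b * (if X.sm i (j + 1) b = v then 1 else 0) ∂PP μ) *
            ∫⁻ b, S.w (j + 1) T b *
              ∏ k ∈ Ico (j + 1) T, (1 + g k ((x + v) + X.sm (j + 1) k b) (b k)) ∂PP μ := by
            rw [lintegral_const_mul _ hm5, lintegral_tsum fun v => (hm4 v).aemeasurable]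
            congr 1
            refine tsum_congr fun v => ?_
            exact lintegral_mul_dep μ (hm2 v) (hm3 v)
              (Finset.Ico_disjoint_Ico_consecutive i (j + 1) T) (hd2 v) (hd3 v)
        _ ≤ 2 * ∑' v : Fin d → ℤ, (∫⁻ b, f b * (if X.sm i (j + 1) b = v then 1 else 0) ∂PP μ) *
            (2 * S.A μ (j + 1) T) := by
            refine mul_le_mul' le_rfl (ENNReal.tsum_le_tsum fun v => mul_le_mul' le_rfl ?_)
            exact ih (T - (j + 1)) (by omega) (j + 1) rfl (x + v)
        _ = 2 * ((∫⁻ b, f b ∂PP μ) * (2 * S.A μ (j + 1) T)) := by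
            rw [ENNReal.tsum_mul_right, ← lintegral_tsum fun v => (hm2 v).aemeasurable]
            congr 2
            refine lintegral_congr fun b => ?_
            rw [tsum_eq_single (X.sm i (j + 1) b) (by
              intro v hv; rw [if_neg (Ne.symm hv)]; simp), if_pos rfl, mul_one]
        _ ≤ 2 * ((3 * (η (j - i) * S.A μ i j)) * (2 * S.A μ (j + 1) T)) :=
            mul_le_mul' le_rfl (mul_le_mul' hfint le_rfl)
        _ = 12 * η (j - i) * (S.A μ i j * S.A μ (j + 1) T) := by ring
        _ ≤ 12 * η (j - i) * (S.A μ i j * S.A μ j T) := by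
            refine mul_le_mul' le_rfl (mul_le_mul' le_rfl ?_)
            calc S.A μ (j + 1) T = 1 * S.A μ (j + 1) T := (one_mul _).symm
              _ ≤ S.A μ j (j + 1) * S.A μ (j + 1) T := mul_le_mul' (S.one_le_A μ _ _) le_rfl
              _ ≤ _ := S.A_mul_le μ (by omega) (by omega)
        _ ≤ _ := mul_le_mul' le_rfl (S.A_mul_le μ (by omega) (by omega))
    have hsum : ∑ j ∈ Ico i T, η (j - i) ≤ ∑' s, η s := by
      have hinj : Set.InjOn (fun c : ℕ => c - i) (Ico i T : Set ℕ) := by
        intro x hx y hy hxy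
        rw [Finset.mem_coe, Finset.mem_Ico] at hx hy
        simp only at hxy
        omega
      calc ∑ c ∈ Ico i T, η (c - i) = ∑ s ∈ (Ico i T).image (fun c : ℕ => c - i), η s := by
            rw [Finset.sum_image hinj]
        _ ≤ _ := ENNReal.sum_le_tsum _
    calc S.A μ i T + ∑ j ∈ Ico i T, ∫⁻ b, S.w i T b * (g j (x + X.sm i j b) (b j) *
          ∏ k ∈ Ico (j + 1) T, (1 + g k (x + X.sm i k b) (b k))) ∂PP μ
        ≤ S.A μ i T + ∑ j ∈ Ico i T, 12 * η (j - i) * S.A μ i T :=
          add_le_add le_rfl (Finset.sum_le_sum hterm)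
      _ = S.A μ i T + 12 * (∑ j ∈ Ico i T, η (j - i)) * S.A μ i T := by
          rw [Finset.mul_sum, Finset.sum_mul]
      _ ≤ S.A μ i T + 12 * (∑' s, η s) * S.A μ i T := by gcongr
      _ ≤ S.A μ i T + 1 * S.A μ i T := by gcongr
      _ = _ := by ring

end Disp

end Pool.Agent.Helper83.Traps
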