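import Pool.Agent.Helper83.Traps.Core9

open MeasureTheory ProbabilityTheory Filter Finset
open scoped ENNReal Topology

namespace Pool.Agent.Helper83.Traps

/-! the pair decomposition of `sum n - (1 - exp (- sum n))` -/

/-- the pair term -/
noncomputable def ps (n : ℕ → ℝ) (a c : ℕ) : ℝ :=
  if a = c then n a - (1 - Real.exp (-n a))
  else Real.exp (-∑ i ∈ Ioo a c, n i) * (1 - Real.exp (-n a)) * (1 - Real.exp (-n c))

lemma one_sub_exp_nonneg {x : ℝ} (hx : 0 ≤ x) : 0 ≤ 1 - Real.exp (-x) := by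
  have : Real.exp (-x) ≤ 1 := Real.exp_le_one_iff.2 (by linarith)
  linarith

lemma one_sub_exp_le (x : ℝ) : 1 - Real.exp (-x) ≤ x := by
  have := Real.add_one_le_exp (-x); linarith

lemma ps_nonneg {n : ℕ → ℝ} (hn : ∀ i, 0 ≤ n i) (a c : ℕ) : 0 ≤ ps n a c := by
  unfold ps
  split_ifs with h
  · have := one_sub_exp_le (n a); linarith
  · exact mul_nonneg (mul_nonneg (Real.exp_pos _).le (one_sub_exp_nonneg (hn a)))
      (one_sub_exp_nonneg (hn c))

lemma ps_le {n : ℕ → ℝ} (hn : ∀ i, 0 ≤ n i) {a c : ℕ} (h : a ≠ c) : ps n a c ≤ n a * n c := by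
  unfold ps
  rw [if_neg h]
  have h1 : Real.exp (-∑ i ∈ Ioo a c, n i) ≤ 1 := by
    apply Real.exp_le_one_iff.2
    have : 0 ≤ ∑ i ∈ Ioo a c, n i := Finset.sum_nonneg fun i _ => hn i
    linarith
  have h2 := one_sub_exp_nonneg (hn a)
  have h3 := one_sub_exp_nonneg (hn c)
  calc Real.exp (-∑ i ∈ Ioo a c, n i) * (1 - Real.exp (-n a)) * (1 - Real.exp (-n c))
      ≤ 1 * (1 - Real.exp (-n a)) * (1 - Real.exp (-n c)) := by gcongr
    _ ≤ 1 * n a * n c := by
        have h4 := one_sub_exp_le (n a)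
        have h5 := one_sub_exp_le (n c)
        rw [one_mul, one_mul]
        exact mul_le_mul h4 h5 h3 (hn a)
    _ = _ := by ring

lemma sub_exp_le_sq {x : ℝ} (hx : 0 ≤ x) : x - (1 - Real.exp (-x)) ≤ x * x := by
  rcases le_or_gt x 1 with h | h
  · have h1 := Real.abs_exp_sub_one_sub_id_le (x := -x) (by rw [abs_neg, abs_of_nonneg hx]; exact h)
    have h2 := (abs_le.1 h1).2
    nlinarith
  · have h1 := one_sub_exp_nonneg hx
    nlinarith

lemma ps_self_le {n : ℕ → ℝ} (hn : ∀ i, 0 ≤ n i) (a : ℕ) : ps n a a ≤ n a * n a := by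
  unfold ps
  rw [if_pos rfl]
  exact sub_exp_le_sq (hn a)

lemma ps_le' {n : ℕ → ℝ} (hn : ∀ i, 0 ≤ n i) (a c : ℕ) : ps n a c ≤ n a * n c := by
  rcases eq_or_ne a c with h | h
  · subst h; exact ps_self_le hn a
  · exact ps_le hn h

lemma ps_congr {n n' : ℕ → ℝ} {a c : ℕ} (hac : a ≤ c) (h : ∀ i, a ≤ i → i ≤ c → n i = n' i) :
    ps n a c = ps n' a c := by
  unfold ps
  rw [h a le_rfl hac, h c hac le_rfl]
  have : ∑ i ∈ Ioo a c, n i = ∑ i ∈ Ioo a c, n' i := Finset.sum_congr rfl fun i hi => by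
    rw [Finset.mem_Ioo] at hi; exact h i hi.1.le hi.2.le
  rw [this]

lemma tele_exp (n : ℕ → ℝ) (T : ℕ) :
    ∑ a ∈ range T, Real.exp (-∑ i ∈ Ioo a T, n i) * (1 - Real.exp (-n a)) =
      1 - Real.exp (-∑ i ∈ range T, n i) := by
  have key : ∀ k, k ≤ T → ∑ a ∈ range k, Real.exp (-∑ i ∈ Ioo a T, n i) * (1 - Real.exp (-n a)) =
      Real.exp (-∑ i ∈ Ico k T, n i) - Real.exp (-∑ i ∈ Ico 0 T, n i) := by
    intro k
    induction k with
    | zero => intro _; simp
    | succ k ih =>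
      intro hk
      rw [Finset.sum_range_succ, ih (by omega)]
      have h1 : ∑ i ∈ Ico k T, n i = n k + ∑ i ∈ Ico (k + 1) T, n i := by
        rw [Finset.sum_eq_sum_Ico_succ_bot (by omega)]
      have h2 : Ioo k T = Ico (k + 1) T := by ext x; simp only [Finset.mem_Ioo, Finset.mem_Ico]; omega
      rw [h1, h2, neg_add, Real.exp_add]
      ring
  rw [key T le_rfl]
  simp

lemma pair_identity (n : ℕ → ℝ) (T : ℕ) :
    1 - Real.exp (-∑ i ∈ range T, n i) + ∑ p ∈ Int 0 T, ps n p.1 p.2 = ∑ i ∈ range T, n i := by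
  induction T with
  | zero =>
    have : Int 0 0 = ∅ := by ext p; rw [mem_Int]; simp
    simp [this]
  | succ T ih =>
    have h1 : Int 0 (T + 1) = Int 0 T ∪ (range (T + 1)).image (fun a => (a, T)) := by
      ext ⟨a, c⟩
      simp only [mem_union, mem_Int, mem_image, mem_range, Prod.mk.injEq]
      constructor
      · intro h
        by_cases hc : c = T
        · right; exact ⟨a, by omega, rfl, hc.symm⟩
        · left; omega
      · rintro (h | ⟨x, hx, rfl, rfl⟩) <;> omega
    have h2 : Disjoint (Int 0 T) ((range (T + 1)).image (fun a => (a, T))) := by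
      rw [Finset.disjoint_left]
      rintro ⟨a, c⟩ h
      simp only [mem_image, mem_range, Prod.mk.injEq, not_exists, not_and]
      rw [mem_Int] at h
      intro x _ _ hc
      simp only at h
      omega
    have h3 : Set.InjOn (fun a : ℕ => (a, T)) (range (T + 1) : Set ℕ) := by
      intro x _ y _ h; simpa using h
    rw [h1, Finset.sum_union h2, Finset.sum_image h3, Finset.sum_range_succ (fun i => n i),
      Finset.sum_range_succ (fun a => ps n a T)]
    have h4 : ∑ a ∈ range T, ps n a T =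
        (1 - Real.exp (-∑ i ∈ range T, n i)) * (1 - Real.exp (-n T)) := by
      rw [← tele_exp n T, Finset.sum_mul]
      refine Finset.sum_congr rfl fun a ha => ?_
      rw [mem_range] at ha
      unfold ps
      rw [if_neg (by omega)]
    have h5 : ps n T T = n T - (1 - Real.exp (-n T)) := by unfold ps; rw [if_pos rfl]
    rw [h4, h5, neg_add, Real.exp_add]
    linear_combination ih

/-! fine positions -/

variable {d m : ℕ}

/-- displacement of a block -/
def del (e : Fin m → Fin d → ℤ) : Fin d → ℤ := ∑ l, e l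

/-- position inside a block -/
def ipos (e : Fin m → Fin d → ℤ) (l : Fin m) : Fin d → ℤ := ∑ k ∈ Iic l, e k

/-- position of the walk with block sequence `b` at the fine time `(i, l)` -/
def pos (b : ℕ → Fin m → Fin d → ℤ) (i : ℕ) (l : Fin m) : Fin d → ℤ :=
  ∑ k ∈ range i, del (b k) + ipos (b i) l

lemma del_sub (e e' : Fin m → Fin d → ℤ) : del (e - e') = del e - del e' := by
  unfold del; simp [Finset.sum_sub_distrib]

lemma del_neg (e : Fin m → Fin d → ℤ) : del (-e) = -del e := by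
  unfold del; simp [Finset.sum_neg_distrib]

lemma ipos_sub (e e' : Fin m → Fin d → ℤ) (l : Fin m) : ipos (e - e') l = ipos e l - ipos e' l := by
  unfold ipos; simp [Finset.sum_sub_distrib]

lemma ipos_neg (e : Fin m → Fin d → ℤ) (l : Fin m) : ipos (-e) l = -ipos e l := by
  unfold ipos; simp [Finset.sum_neg_distrib]

lemma pos_sub (b b' : ℕ → Fin m → Fin d → ℤ) (i : ℕ) (l : Fin m) :
    pos (b - b') i l = pos b i l - pos b' i l := by
  unfold pos
  simp only [Pi.sub_apply b b', del_sub, ipos_sub, Finset.sum_sub_distrib]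
  abel

lemma pos_neg (b : ℕ → Fin m → Fin d → ℤ) (i : ℕ) (l : Fin m) :
    pos (-b) i l = -pos b i l := by
  unfold pos
  simp only [Pi.neg_apply b, del_neg, ipos_neg, Finset.sum_neg_distrib]
  abel

/-- number of visits of `y` in block `i` -/
def vis (e : ℕ → Fin m → Fin d → ℤ) (i : ℕ) (y : Fin d → ℤ) : ℕ :=
  (univ.filter fun l : Fin m => pos e i l = y).card

lemma vis_neg (e : ℕ → Fin m → Fin d → ℤ) (i : ℕ) (y : Fin d → ℤ) :
    vis (-e) i y = vis e i (-y) := by
  unfold vis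
  congr 1
  ext l
  simp only [mem_filter, mem_univ, true_and, pos_neg]
  constructor
  · rintro rfl; simp
  · intro h; rw [h]; simp

/-- shift of positions when blocks agree on a window -/
lemma pos_shift {e e' : ℕ → Fin m → Fin d → ℤ} {a i : ℕ} (hai : a ≤ i)
    (h : ∀ k, a ≤ k → k ≤ i → e k = e' k) (l : Fin m) :
    pos e' i l = pos e i l + (∑ k ∈ range a, del (e' k) - ∑ k ∈ range a, del (e k)) := by
  unfold pos
  have h1 : ∑ k ∈ range i, del (e k) = ∑ k ∈ range a, del (e k) + ∑ k ∈ Ico a i, del (e k) :=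
    (Finset.sum_range_add_sum_Ico _ hai).symm
  have h2 : ∑ k ∈ range i, del (e' k) = ∑ k ∈ range a, del (e' k) + ∑ k ∈ Ico a i, del (e' k) :=
    (Finset.sum_range_add_sum_Ico _ hai).symm
  have h3 : ∑ k ∈ Ico a i, del (e k) = ∑ k ∈ Ico a i, del (e' k) :=
    Finset.sum_congr rfl fun k hk => by
      rw [Finset.mem_Ico] at hk; rw [h k hk.1 hk.2.le]
  rw [h1, h2, h3, h i hai le_rfl]
  abel

lemma vis_shift {e e' : ℕ → Fin m → Fin d → ℤ} {a i : ℕ} (hai : a ≤ i)
    (h : ∀ k, a ≤ k → k ≤ i → e k = e' k) (y : Fin d → ℤ) :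
    vis e' i (y + (∑ k ∈ range a, del (e' k) - ∑ k ∈ range a, del (e k))) = vis e i y := by
  unfold vis
  congr 1
  ext l
  simp only [mem_filter, mem_univ, true_and, pos_shift hai h]
  constructor
  · intro h; exact add_right_cancel h
  · rintro rfl; rfl

lemma vis_eq_sum (e : ℕ → Fin m → Fin d → ℤ) (i : ℕ) (y : Fin d → ℤ) :
    vis e i y = ∑ l : Fin m, if pos e i l = y then 1 else 0 := by
  unfold vis; rw [Finset.card_filter]

lemma tsum_vis (e : ℕ → Fin m → Fin d → ℤ) (i : ℕ) :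
    ∑' y, (vis e i y : ℝ≥0∞) = m := by
  have h1 : ∀ y, (vis e i y : ℝ≥0∞) = ∑ l : Fin m, if pos e i l = y then (1 : ℝ≥0∞) else 0 := by
    intro y; rw [vis_eq_sum]; push_cast; rfl
  simp only [h1]
  rw [Summable.tsum_finsetSum fun _ _ => ENNReal.summable]
  have h2 : ∀ l : Fin m, ∑' y, (if pos e i l = y then (1 : ℝ≥0∞) else 0) = 1 := by
    intro l
    rw [tsum_eq_single (pos e i l)]
    · simp
    · intro y hy; rw [if_neg (Ne.symm hy)]
  simp [h2]

lemma tsum_vis_mul_vis (e : ℕ → Fin m → Fin d → ℤ) (a c : ℕ) :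
    ∑' y, ((vis e a y : ℝ≥0∞) * (vis e c y : ℝ≥0∞)) =
      ∑ l : Fin m, ∑ l' : Fin m, if pos e a l = pos e c l' then (1 : ℝ≥0∞) else 0 := by
  have h1 : ∀ i y, (vis e i y : ℝ≥0∞) = ∑ l : Fin m, if pos e i l = y then (1 : ℝ≥0∞) else 0 := by
    intro i y; rw [vis_eq_sum]; push_cast; rfl
  have h2 : ∀ y, ((vis e a y : ℝ≥0∞) * (vis e c y : ℝ≥0∞)) =
      ∑ l : Fin m, ∑ l' : Fin m, if pos e a l = y then (if pos e c l' = y then (1 : ℝ≥0∞) else 0)
        else 0 := by
    intro y
    rw [h1, h1, Finset.sum_mul_sum]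
    refine Finset.sum_congr rfl fun l _ => Finset.sum_congr rfl fun l' _ => ?_
    split_ifs <;> simp
  simp only [h2]
  rw [Summable.tsum_finsetSum fun _ _ => ENNReal.summable]
  refine Finset.sum_congr rfl fun l _ => ?_
  rw [Summable.tsum_finsetSum fun _ _ => ENNReal.summable]
  refine Finset.sum_congr rfl fun l' _ => ?_
  rw [tsum_eq_single (pos e a l)]
  · rw [if_pos rfl]
    by_cases h : pos e a l = pos e c l'
    · rw [if_pos h, if_pos h.symm]
    · rw [if_neg h, if_neg (Ne.symm h)]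
  · intro y hy; rw [if_neg (Ne.symm hy)]

end Pool.Agent.Helper83.Traps
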