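import Pool.Agent.Helper83.Traps.Disc1

open MeasureTheory ProbabilityTheory Filter Finset
open scoped ENNReal Topology

namespace Pool.Agent.Helper83.Traps

variable {d m : ℕ}

/-- hypotheses on the law of the block sequence of a trap -/
structure TrapLaw (Q : Measure (ℕ → Fin m → Fin d → ℤ)) (CY CY2 : ℝ) : Prop where
  symm : Q.map (fun b => -b) = Q
  one_le : 1 ≤ CY
  nonneg2 : 0 ≤ CY2
  hk : ∀ (a c : ℕ) (l l' : Fin m) (z : Fin d → ℤ), a ≤ c →
    Q {b | pos b c l' - pos b a l = z} ≤
      ENNReal.ofReal (CY * (((c - a : ℕ) : ℝ) + 1) ^ (-(5 / 2) : ℝ))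
  hk2 : ∀ (a c : ℕ) (l l' : Fin m) (z : Fin d → ℤ), a ≤ c →
    (nsq z : ℝ≥0∞) * Q {b | pos b c l' - pos b a l = z} ≤
      ENNReal.ofReal (CY2 * (((c - a : ℕ) : ℝ) + 1) ^ (-(3 / 2) : ℝ))

@[fun_prop]
lemma measurable_del : Measurable (del : (Fin m → Fin d → ℤ) → Fin d → ℤ) :=
  Finset.measurable_fun_sum _ fun l _ => measurable_pi_apply l

@[fun_prop]
lemma measurable_ipos (l : Fin m) : Measurable fun e : Fin m → Fin d → ℤ => ipos e l :=
  Finset.measurable_fun_sum _ fun l _ => measurable_pi_apply l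

@[fun_prop]
lemma measurable_pos (i : ℕ) (l : Fin m) :
    Measurable fun b : ℕ → Fin m → Fin d → ℤ => pos b i l := by
  unfold pos
  refine Measurable.add (Finset.measurable_fun_sum _ fun k _ => ?_) ?_
  · exact measurable_del.comp (measurable_pi_apply k)
  · exact (measurable_ipos l).comp (measurable_pi_apply i)

lemma measurable_vis (i : ℕ) (y : Fin d → ℤ) :
    Measurable fun b : ℕ → Fin m → Fin d → ℤ => vis b i y := by
  simp only [vis_eq_sum]
  refine Finset.measurable_fun_sum _ fun l _ => ?_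
  exact (Measurable.of_discrete (f := fun x : Fin d → ℤ => if x = y then 1 else 0)).comp
    (measurable_pos i l)

lemma measurable_visR (i : ℕ) (y : Fin d → ℤ) :
    Measurable fun b : ℕ → Fin m → Fin d → ℤ => (vis b i y : ℝ) :=
  (Measurable.of_discrete (f := fun x : ℕ => (x : ℝ))).comp (measurable_vis i y)

lemma measurable_ps (β : ℝ) (a c : ℕ) (y : Fin d → ℤ) :
    Measurable fun b : ℕ → Fin m → Fin d → ℤ => ps (fun i => β * vis b i y) a c := by
  have h := fun i => (measurable_visR (d := d) (m := m) i y).const_mul β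
  unfold ps
  split_ifs
  · exact (h a).sub (measurable_const.sub (Real.measurable_exp.comp (h a).neg))
  · exact ((Real.measurable_exp.comp (Finset.measurable_fun_sum _ fun i _ => h i).neg).mul
      (measurable_const.sub (Real.measurable_exp.comp (h a).neg))).mul
      (measurable_const.sub (Real.measurable_exp.comp (h c).neg))

/-- the pair interaction for a given difference path -/
noncomputable def Psi (β : ℝ) (a c : ℕ) (e : ℕ → Fin m → Fin d → ℤ) : ℝ≥0∞ :=
  ∑' y, ENNReal.ofReal (ps (fun i => β * vis e i y) a c)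

lemma measurable_Psi (β : ℝ) (a c : ℕ) :
    Measurable (Psi β a c : (ℕ → Fin m → Fin d → ℤ) → ℝ≥0∞) :=
  Measurable.tsum fun y => (measurable_ps β a c y).ennreal_ofReal

lemma Psi_congr {β : ℝ} {a c : ℕ} (hac : a ≤ c) {e e' : ℕ → Fin m → Fin d → ℤ}
    (h : ∀ k, a ≤ k → k ≤ c → e k = e' k) : Psi β a c e = Psi β a c e' := by
  unfold Psi
  set s := ∑ k ∈ range a, del (e' k) - ∑ k ∈ range a, del (e k) with hs
  rw [← (Equiv.addRight s).tsum_eq (fun y => ENNReal.ofReal (ps (fun i => β * vis e' i y) a c))]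
  refine tsum_congr fun y => ?_
  congr 1
  refine ps_congr hac fun i hai hic => ?_
  simp only [Equiv.coe_addRight]
  rw [hs, vis_shift hai (fun k h1 h2 => h k h1 (h2.trans hic))]

lemma Psi_neg (β : ℝ) (a c : ℕ) (e : ℕ → Fin m → Fin d → ℤ) : Psi β a c (-e) = Psi β a c e := by
  unfold Psi
  rw [← (Equiv.neg (Fin d → ℤ)).tsum_eq
    (fun y => ENNReal.ofReal (ps (fun i => β * vis e i y) a c))]
  refine tsum_congr fun y => ?_
  simp only [vis_neg, Equiv.neg_apply]

lemma Psi_le {β : ℝ} (hβ : 0 ≤ β) (a c : ℕ) (e : ℕ → Fin m → Fin d → ℤ) :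
    Psi β a c e ≤ ENNReal.ofReal (β ^ 2) *
      ∑ l : Fin m, ∑ l' : Fin m, if pos e a l = pos e c l' then (1 : ℝ≥0∞) else 0 := by
  rw [← tsum_vis_mul_vis, ← ENNReal.tsum_mul_left]
  unfold Psi
  refine ENNReal.tsum_le_tsum fun y => ?_
  calc ENNReal.ofReal (ps (fun i => β * vis e i y) a c)
      ≤ ENNReal.ofReal (β ^ 2 * (vis e a y * vis e c y)) := by
        apply ENNReal.ofReal_le_ofReal
        refine (ps_le' (fun i => by positivity) a c).trans (le_of_eq ?_)
        ring
    _ = _ := by
        rw [ENNReal.ofReal_mul (by positivity), ENNReal.ofReal_mul (by positivity),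
          ENNReal.ofReal_natCast, ENNReal.ofReal_natCast]

/-- the pair interaction averaged over the trap -/
noncomputable def Uf (Q : Measure (ℕ → Fin m → Fin d → ℤ)) (β : ℝ) (a c : ℕ)
    (b : ℕ → Fin m → Fin d → ℤ) : ℝ≥0∞ := ∫⁻ b', Psi β a c (b - b') ∂Q

/-- probability of a displacement of the trap -/
noncomputable def pr (Q : Measure (ℕ → Fin m → Fin d → ℤ)) (a : ℕ) (l : Fin m) (c : ℕ)
    (l' : Fin m) (z : Fin d → ℤ) : ℝ≥0∞ := Q {b | pos b c l' - pos b a l = z}

variable {Q : Measure (ℕ → Fin m → Fin d → ℤ)} {CY CY2 : ℝ}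

lemma measurable_Uf [SFinite Q] (β : ℝ) (a c : ℕ) : Measurable (Uf Q β a c) := by
  have h : Measurable fun p : (ℕ → Fin m → Fin d → ℤ) × (ℕ → Fin m → Fin d → ℤ) =>
      Psi β a c (p.1 - p.2) :=
    (measurable_Psi β a c).comp (measurable_fst.sub measurable_snd)
  exact h.lintegral_prod_right'

lemma Uf_congr {β : ℝ} {a c : ℕ} (hac : a ≤ c) {b b' : ℕ → Fin m → Fin d → ℤ}
    (h : ∀ k, a ≤ k → k ≤ c → b k = b' k) : Uf Q β a c b = Uf Q β a c b' := by
  unfold Uf
  refine lintegral_congr fun x => Psi_congr hac fun k h1 h2 => ?_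
  rw [Pi.sub_apply, Pi.sub_apply, h k h1 h2]

lemma Uf_neg (hQ : TrapLaw Q CY CY2) (β : ℝ) (a c : ℕ) (b : ℕ → Fin m → Fin d → ℤ) :
    Uf Q β a c (-b) = Uf Q β a c b := by
  unfold Uf
  have hm : Measurable fun x : ℕ → Fin m → Fin d → ℤ => Psi β a c (b - x) :=
    (measurable_Psi β a c).comp (measurable_const.sub measurable_id)
  calc ∫⁻ x, Psi β a c (-b - x) ∂Q = ∫⁻ x, Psi β a c (b - (-x)) ∂Q := by
        refine lintegral_congr fun x => ?_
        rw [← Psi_neg]
        congr 1; abel
    _ = ∫⁻ x, Psi β a c (b - x) ∂(Q.map fun x => -x) := by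
        rw [lintegral_map hm measurable_neg]
    _ = _ := by rw [hQ.symm]

lemma Uf_le {β : ℝ} (hβ : 0 ≤ β) (a c : ℕ) (b : ℕ → Fin m → Fin d → ℤ) :
    Uf Q β a c b ≤ ENNReal.ofReal (β ^ 2) * ∑ l : Fin m, ∑ l' : Fin m,
      pr Q a l c l' (pos b c l' - pos b a l) := by
  unfold Uf pr
  calc ∫⁻ b', Psi β a c (b - b') ∂Q
      ≤ ∫⁻ b', ENNReal.ofReal (β ^ 2) * ∑ l : Fin m, ∑ l' : Fin m,
        (if pos (b - b') a l = pos (b - b') c l' then (1 : ℝ≥0∞) else 0) ∂Q :=
        lintegral_mono fun b' => Psi_le hβ a c _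
    _ = ∫⁻ b', ENNReal.ofReal (β ^ 2) * ∑ l : Fin m, ∑ l' : Fin m,
        Set.indicator {b' | pos b' c l' - pos b' a l = pos b c l' - pos b a l} 1 b' ∂Q := by
        refine lintegral_congr fun b' => ?_
        congr 1
        refine Finset.sum_congr rfl fun l _ => Finset.sum_congr rfl fun l' _ => ?_
        rw [Set.indicator_apply]
        have : pos (b - b') a l = pos (b - b') c l' ↔
            b' ∈ {b' | pos b' c l' - pos b' a l = pos b c l' - pos b a l} := by
          rw [pos_sub, pos_sub]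
          show _ ↔ pos b' c l' - pos b' a l = pos b c l' - pos b a l
          constructor
          · intro h; linear_combination h
          · intro h; linear_combination h
        simp only [this, Pi.one_apply]
    _ = _ := by
        have hset : ∀ l l' : Fin m, MeasurableSet
            {b' : ℕ → Fin m → Fin d → ℤ | pos b' c l' - pos b' a l = pos b c l' - pos b a l} := by
          intro l l'
          have := ((measurable_pos (d := d) c l').sub (measurable_pos a l))
            (measurableSet_singleton (pos b c l' - pos b a l))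
          exact this
        have hm : ∀ l l' : Fin m, Measurable fun b' : ℕ → Fin m → Fin d → ℤ =>
            Set.indicator {b' | pos b' c l' - pos b' a l = pos b c l' - pos b a l}
              (1 : (ℕ → Fin m → Fin d → ℤ) → ℝ≥0∞) b' := fun l l' =>
          measurable_one.indicator (hset l l')
        have hm2 : Measurable fun b' : ℕ → Fin m → Fin d → ℤ =>
            ∑ l : Fin m, ∑ l' : Fin m,
            Set.indicator {b' | pos b' c l' - pos b' a l = pos b c l' - pos b a l}
              (1 : (ℕ → Fin m → Fin d → ℤ) → ℝ≥0∞) b' :=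
          Finset.measurable_fun_sum _ fun l _ => Finset.measurable_fun_sum _ fun l' _ => hm l l'
        rw [lintegral_const_mul _ hm2, lintegral_finsetSum _ fun l _ =>
          Finset.measurable_fun_sum _ fun l' _ => hm l l']
        congr 1
        refine Finset.sum_congr rfl fun l _ => ?_
        rw [lintegral_finsetSum _ fun l' _ => hm l l']
        refine Finset.sum_congr rfl fun l' _ => ?_
        rw [lintegral_indicator_one (hset l l')]

end Pool.Agent.Helper83.Traps
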