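import Pool.Agent.Helper83.Traps.Disc2

open MeasureTheory ProbabilityTheory Filter Finset
open scoped ENNReal Topology

namespace Pool.Agent.Helper83.Traps

/-! numerical sums -/

lemma tele_rpow {x : ℝ} (hx : 1 ≤ x) :
    (x + 1) ^ (-(5 / 2) : ℝ) ≤ x ^ (-(3 / 2) : ℝ) - (x + 1) ^ (-(3 / 2) : ℝ) := by
  have hx0 : 0 < x := by linarith
  have h1 : x ^ (-(3 / 2) : ℝ) = (x + 1) ^ (-(3 / 2) : ℝ) * (1 + 1 / x) ^ (3 / 2 : ℝ) := by
    have : 1 + 1 / x = (x + 1) / x := by field_simp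
    rw [this, Real.div_rpow (by positivity) hx0.le, Real.rpow_neg (by positivity),
      Real.rpow_neg (by positivity)]
    have h2 : 0 < (x + 1) ^ (3 / 2 : ℝ) := by positivity
    have h3 : 0 < x ^ (3 / 2 : ℝ) := by positivity
    field_simp
  have h2 : 1 + (3 / 2 : ℝ) * (1 / x) ≤ (1 + 1 / x) ^ (3 / 2 : ℝ) :=
    one_add_mul_self_le_rpow_one_add (by have : 0 < 1 / x := by positivity
                                         linarith) (by norm_num)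
  have h3 : (x + 1) ^ (-(5 / 2) : ℝ) = (x + 1) ^ (-(3 / 2) : ℝ) * (1 / (x + 1)) := by
    rw [one_div, ← Real.rpow_neg_one, ← Real.rpow_add (by positivity)]
    norm_num
  have h4 : 0 < (x + 1) ^ (-(3 / 2) : ℝ) := by positivity
  have h5 : 1 / (x + 1) ≤ 1 / x := by
    apply one_div_le_one_div_of_le hx0; linarith
  rw [h3, h1]
  have h6 : 0 < 1 / x := by positivity
  nlinarith

lemma tail_sum_le {L : ℕ} (hL : 1 ≤ L) :
    ∑' s : ℕ, ENNReal.ofReal ((((s + L : ℕ) : ℝ) + 1) ^ (-(5 / 2) : ℝ)) ≤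
      ENNReal.ofReal ((L : ℝ) ^ (-(3 / 2) : ℝ)) := by
  refine ENNReal.tsum_le_of_sum_range_le fun N => ?_
  rw [← ENNReal.ofReal_sum_of_nonneg fun _ _ => by positivity]
  apply ENNReal.ofReal_le_ofReal
  have h : ∀ N : ℕ, ∑ s ∈ range N, (((s + L : ℕ) : ℝ) + 1) ^ (-(5 / 2) : ℝ) ≤
      (L : ℝ) ^ (-(3 / 2) : ℝ) - ((N + L : ℕ) : ℝ) ^ (-(3 / 2) : ℝ) := by
    intro N
    induction N with
    | zero => simp
    | succ N ih =>
      rw [Finset.sum_range_succ]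
      have h1 : (1 : ℝ) ≤ ((N + L : ℕ) : ℝ) := by exact_mod_cast (by omega : 1 ≤ N + L)
      have h2 := tele_rpow h1
      have h3 : ((N + 1 + L : ℕ) : ℝ) = ((N + L : ℕ) : ℝ) + 1 := by push_cast; ring
      rw [h3]
      linarith
  refine (h N).trans ?_
  have : 0 ≤ ((N + L : ℕ) : ℝ) ^ (-(3 / 2) : ℝ) := by positivity
  linarith

/-- the sum of `(s+1)^(-3/2)` -/
noncomputable def zet : ℝ≥0∞ := ∑' s : ℕ, ENNReal.ofReal (((s : ℝ) + 1) ^ (-(3 / 2) : ℝ))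

lemma zet_ne_top : zet ≠ ⊤ := by
  have h : Summable fun s : ℕ => ((s : ℝ) + 1) ^ (-(3 / 2) : ℝ) := by
    have h1 := (Real.summable_nat_rpow (p := -(3 / 2))).2 (by norm_num)
    have h2 := (summable_nat_add_iff 1).2 h1
    refine h2.congr fun s => ?_
    push_cast; rfl
  unfold zet
  rw [← ENNReal.ofReal_tsum_of_nonneg (fun s => by positivity) h]
  exact ENNReal.ofReal_ne_top

/-- coupling strengths -/
noncomputable def rs (K : ℝ) (s : ℕ) : ℝ≥0∞ :=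
  ENNReal.ofReal (2 * K * ((s : ℝ) + 1) ^ (-(5 / 2) : ℝ))

lemma rs_mul {K : ℝ} (hK : 0 ≤ K) (s : ℕ) :
    ((s : ℝ≥0∞) + 1) * rs K s =
      ENNReal.ofReal (2 * K) * ENNReal.ofReal (((s : ℝ) + 1) ^ (-(3 / 2) : ℝ)) := by
  unfold rs
  have h1 : ((s : ℝ≥0∞) + 1) = ENNReal.ofReal ((s : ℝ) + 1) := by
    rw [ENNReal.ofReal_add (by positivity) (by norm_num), ENNReal.ofReal_natCast,
      ENNReal.ofReal_one]
  rw [h1, ← ENNReal.ofReal_mul (by positivity), ← ENNReal.ofReal_mul (by positivity)]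
  congr 1
  have h2 : ((s : ℝ) + 1) ^ (-(3 / 2) : ℝ) = ((s : ℝ) + 1) * ((s : ℝ) + 1) ^ (-(5 / 2) : ℝ) := by
    nth_rewrite 2 [← Real.rpow_one ((s : ℝ) + 1)]
    rw [← Real.rpow_add (by positivity)]
    norm_num
  rw [h2]; ring

lemma tsum_rs {K : ℝ} (hK : 0 ≤ K) :
    ∑' s : ℕ, ((s : ℝ≥0∞) + 1) * rs K s = ENNReal.ofReal (2 * K) * zet := by
  unfold zet
  rw [← ENNReal.tsum_mul_left]
  exact tsum_congr fun s => rs_mul hK s

lemma tail_rs {K : ℝ} (hK : 0 ≤ K) (hK4 : K ≤ 1 / 4) (n L : ℕ) (hL : 1 ≤ L) (h : n ^ 2 ≤ L ^ 3) :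
    (n : ℝ≥0∞) * ∑' s : ℕ, rs K (s + L) ≤ 1 / 2 := by
  have h1 : ∑' s : ℕ, rs K (s + L) ≤ ENNReal.ofReal (2 * K) *
      ENNReal.ofReal ((L : ℝ) ^ (-(3 / 2) : ℝ)) := by
    refine le_trans ?_ (mul_le_mul' le_rfl (tail_sum_le hL))
    rw [← ENNReal.tsum_mul_left]
    refine ENNReal.tsum_le_tsum fun s => ?_
    unfold rs
    rw [← ENNReal.ofReal_mul (by positivity)]
  have hL0 : (0 : ℝ) < L := by exact_mod_cast hL
  have h2 : (n : ℝ) ≤ (L : ℝ) ^ (3 / 2 : ℝ) := by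
    have h3 : (n : ℝ) ^ 2 ≤ (L : ℝ) ^ 3 := by exact_mod_cast h
    have h4 : (n : ℝ) ^ 2 ≤ ((L : ℝ) ^ (3 / 2 : ℝ)) ^ 2 := by
      rw [← Real.rpow_natCast ((L : ℝ) ^ (3 / 2 : ℝ)), ← Real.rpow_mul hL0.le]
      norm_num
      exact h3
    exact le_of_sq_le_sq h4 (by positivity)
  calc (n : ℝ≥0∞) * ∑' s : ℕ, rs K (s + L)
      ≤ ENNReal.ofReal n * (ENNReal.ofReal (2 * K) *
        ENNReal.ofReal ((L : ℝ) ^ (-(3 / 2) : ℝ))) := by
        rw [ENNReal.ofReal_natCast]; exact mul_le_mul' le_rfl h1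
    _ = ENNReal.ofReal (2 * K * (n * (L : ℝ) ^ (-(3 / 2) : ℝ))) := by
        rw [← ENNReal.ofReal_mul (by positivity), ← ENNReal.ofReal_mul (by positivity)]
        congr 1; ring
    _ ≤ ENNReal.ofReal (1 / 2) := by
        apply ENNReal.ofReal_le_ofReal
        have h5 : n * (L : ℝ) ^ (-(3 / 2) : ℝ) ≤ 1 := by
          rw [Real.rpow_neg hL0.le, ← div_eq_mul_inv, div_le_one (by positivity)]
          exact h2
        have h6 : 0 ≤ n * (L : ℝ) ^ (-(3 / 2) : ℝ) := by positivity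
        nlinarith
    _ = 1 / 2 := by
        rw [ENNReal.ofReal_div_of_pos (by norm_num)]; norm_num

/-! the system -/

variable {d m : ℕ}

/-- `exp (nu * u) - 1` -/
noncomputable def ex (ν : ℝ) (u : ℝ≥0∞) : ℝ≥0∞ := ENNReal.ofReal (Real.exp (ν * u.toReal) - 1)

lemma measurable_ex (ν : ℝ) : Measurable (ex ν) :=
  ((Real.measurable_exp.comp (ENNReal.measurable_toReal.const_mul ν)).sub
    measurable_const).ennreal_ofReal

lemma exp_sub_one_le {x : ℝ} (h0 : 0 ≤ x) (h1 : x ≤ 1) : Real.exp x - 1 ≤ 2 * x := by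
  have := Real.abs_exp_sub_one_le (x := x) (by rw [abs_of_nonneg h0]; exact h1)
  rw [abs_of_nonneg h0] at this
  exact (abs_le.1 this).2

lemma ex_le {ν : ℝ} (hν : 0 ≤ ν) {u : ℝ≥0∞} (hu : ENNReal.ofReal ν * u ≤ 1) (hu' : u ≠ ⊤) :
    ex ν u ≤ ENNReal.ofReal (2 * ν) * u := by
  unfold ex
  have h1 : ν * u.toReal ≤ 1 := by
    have := ENNReal.toReal_mono ENNReal.one_ne_top hu
    rw [ENNReal.toReal_mul, ENNReal.toReal_ofReal hν, ENNReal.toReal_one] at this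
    exact this
  calc ENNReal.ofReal (Real.exp (ν * u.toReal) - 1) ≤ ENNReal.ofReal (2 * (ν * u.toReal)) :=
        ENNReal.ofReal_le_ofReal (exp_sub_one_le (by positivity) h1)
    _ = ENNReal.ofReal (2 * ν) * u := by
        rw [← mul_assoc, ENNReal.ofReal_mul (by positivity), ENNReal.ofReal_toReal hu']

variable {Q : Measure (ℕ → Fin m → Fin d → ℤ)} {CY CY2 : ℝ}

lemma Uf_bound (hQ : TrapLaw Q CY CY2) (hm : 1 ≤ m) {γ : ℝ} (hγ : 0 ≤ γ) {a c : ℕ} (hac : a ≤ c)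
    (b : ℕ → Fin m → Fin d → ℤ) :
    Uf Q (γ / m) a c b ≤
      ENNReal.ofReal (γ ^ 2 * CY * (((c - a : ℕ) : ℝ) + 1) ^ (-(5 / 2) : ℝ)) := by
  have hCY := hQ.one_le
  have hm0 : (0 : ℝ) < m := by exact_mod_cast hm
  refine (Uf_le (by positivity) a c b).trans ?_
  calc ENNReal.ofReal ((γ / m) ^ 2) * ∑ l : Fin m, ∑ l' : Fin m,
        pr Q a l c l' (pos b c l' - pos b a l)
      ≤ ENNReal.ofReal ((γ / m) ^ 2) * ∑ l : Fin m, ∑ l' : Fin m,
        ENNReal.ofReal (CY * (((c - a : ℕ) : ℝ) + 1) ^ (-(5 / 2) : ℝ)) :=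
        mul_le_mul' le_rfl (Finset.sum_le_sum fun l _ => Finset.sum_le_sum fun l' _ =>
          hQ.hk a c l l' _ hac)
    _ = ENNReal.ofReal ((γ / m) ^ 2 * (m * (m *
        (CY * (((c - a : ℕ) : ℝ) + 1) ^ (-(5 / 2) : ℝ))))) := by
        rw [Finset.sum_const, Finset.sum_const, Finset.card_univ, Fintype.card_fin, nsmul_eq_mul,
          nsmul_eq_mul, ← ENNReal.ofReal_natCast, ← ENNReal.ofReal_mul (by positivity),
          ← ENNReal.ofReal_mul (by positivity), ← ENNReal.ofReal_mul (by positivity)]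
    _ = _ := by
        congr 1
        field_simp

lemma Uf_ne_top (hQ : TrapLaw Q CY CY2) (hm : 1 ≤ m) {γ : ℝ} (hγ : 0 ≤ γ) {a c : ℕ} (hac : a ≤ c)
    (b : ℕ → Fin m → Fin d → ℤ) : Uf Q (γ / m) a c b ≠ ⊤ :=
  ne_top_of_le_ne_top ENNReal.ofReal_ne_top (Uf_bound hQ hm hγ hac b)

/-- parameters in the weak disorder regime -/
structure Par (m : ℕ) (ν γ θ CY : ℝ) : Prop where
  hm : 1 ≤ m
  hν : 0 ≤ ν
  hγ : 0 ≤ γ
  hθ : ν * γ ^ 2 ≤ θ
  h4 : θ * CY ≤ 1 / 4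
  h128 : ENNReal.ofReal (2 * (θ * CY)) * zet ≤ 1 / 128

variable {ν γ θ : ℝ}

lemma Par.θ_nonneg (P : Par m ν γ θ CY) : 0 ≤ θ :=
  le_trans (mul_nonneg P.hν (sq_nonneg _)) P.hθ

lemma rpow_le_one' (s : ℕ) : ((s : ℝ) + 1) ^ (-(5 / 2) : ℝ) ≤ 1 :=
  Real.rpow_le_one_of_one_le_of_nonpos (by
    have : (0 : ℝ) ≤ s := Nat.cast_nonneg s
    linarith) (by norm_num)

lemma nuU_le (hQ : TrapLaw Q CY CY2) (P : Par m ν γ θ CY) {a c : ℕ} (hac : a ≤ c)
    (b : ℕ → Fin m → Fin d → ℤ) :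
    ENNReal.ofReal (2 * ν) * Uf Q (γ / m) a c b ≤ rs (θ * CY) (c - a) := by
  have hCY := hQ.one_le
  have hθ0 := P.θ_nonneg
  have hν := P.hν
  refine (mul_le_mul' le_rfl (Uf_bound hQ P.hm P.hγ hac b)).trans ?_
  unfold rs
  rw [← ENNReal.ofReal_mul (by positivity)]
  apply ENNReal.ofReal_le_ofReal
  have h1 : 0 ≤ (((c - a : ℕ) : ℝ) + 1) ^ (-(5 / 2) : ℝ) := by positivity
  calc 2 * ν * (γ ^ 2 * CY * (((c - a : ℕ) : ℝ) + 1) ^ (-(5 / 2) : ℝ))
      = 2 * ((ν * γ ^ 2) * CY) * (((c - a : ℕ) : ℝ) + 1) ^ (-(5 / 2) : ℝ) := by ring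
    _ ≤ _ := by
        gcongr
        exact P.hθ

lemma nuU_le_one (hQ : TrapLaw Q CY CY2) (P : Par m ν γ θ CY) {a c : ℕ} (hac : a ≤ c)
    (b : ℕ → Fin m → Fin d → ℤ) : ENNReal.ofReal ν * Uf Q (γ / m) a c b ≤ 1 := by
  have hCY := hQ.one_le
  have hθ0 := P.θ_nonneg
  calc ENNReal.ofReal ν * Uf Q (γ / m) a c b ≤ ENNReal.ofReal (2 * ν) * Uf Q (γ / m) a c b := by
        refine mul_le_mul' (ENNReal.ofReal_le_ofReal ?_) le_rfl
        have := P.hν; linarith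
    _ ≤ rs (θ * CY) (c - a) := nuU_le hQ P hac b
    _ ≤ ENNReal.ofReal 1 := by
        unfold rs
        apply ENNReal.ofReal_le_ofReal
        have h1 := rpow_le_one' (c - a)
        have h2 : 0 ≤ (((c - a : ℕ) : ℝ) + 1) ^ (-(5 / 2) : ℝ) := by positivity
        have h3 := P.h4
        have h4 : 0 ≤ θ * CY := by positivity
        nlinarith
    _ = 1 := ENNReal.ofReal_one

/-- the block system of the discretised model -/
noncomputable def mkSys [SFinite Q] (hQ : TrapLaw Q CY CY2) (P : Par m ν γ θ CY) :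
    Sys (Fin m → Fin d → ℤ) where
  ρ a c b := if a ≤ c then ex ν (Uf Q (γ / m) a c b) else 0
  r := rs (θ * CY)
  meas a c := by
    by_cases h : a ≤ c
    · simp only [h, if_true]; exact (measurable_ex ν).comp (measurable_Uf _ a c)
    · simp only [h, if_false]; exact measurable_const
  dep a c := by
    intro b b' h
    by_cases hac : a ≤ c
    · simp only [hac, if_true]
      rw [Uf_congr hac fun k h1 h2 => h k ⟨h1, h2⟩]
    · simp only [hac, if_false]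
  le a c b hac := by
    simp only [hac, if_true]
    exact (ex_le P.hν (nuU_le_one hQ P hac b) (Uf_ne_top hQ P.hm P.hγ hac b)).trans
      (nuU_le hQ P hac b)
  small := by
    have hCY := hQ.one_le
    have hθ0 := P.θ_nonneg
    rw [tsum_rs (by positivity)]
    refine P.h128.trans ?_
    gcongr
    norm_num

end Pool.Agent.Helper83.Traps
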