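import Pool.Agent.Helper83.Traps.Disc3

open MeasureTheory ProbabilityTheory Filter Finset
open scoped ENNReal Topology

namespace Pool.Agent.Helper83.Traps

variable {d m : ℕ}

/-- hypotheses on the law of a block of the walk -/
structure WalkLaw (μ : Measure (Fin m → Fin d → ℤ)) (K : ℝ≥0∞) (CX : ℝ) : Prop where
  symm : μ.map (fun e => -e) = μ
  mom1 : ∀ l, ∫⁻ e, (nsq (ipos e l) : ℝ≥0∞) ∂μ ≤ K
  mom2 : ∀ l, ∫⁻ e, (nsq (del e - ipos e l) : ℝ≥0∞) ∂μ ≤ K
  mom3 : ∫⁻ e, (nsq (del e) : ℝ≥0∞) ∂μ ≤ K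
  nonneg : 0 ≤ CX
  loc : ∀ (A : Finset ℕ) (z : Fin d → ℤ),
    PP μ {b | ∑ k ∈ A, del (b k) = z} ≤ ENNReal.ofReal (CX * ((A.card : ℝ) + 1) ^ (-(5 / 2) : ℝ))

/-- block moment -/
noncomputable def qf (e : Fin m → Fin d → ℤ) : ℝ≥0∞ :=
  nsq (del e) + 3 * (m : ℝ≥0∞)⁻¹ * ∑ l, ((nsq (ipos e l) : ℝ≥0∞) + nsq (del e - ipos e l))

lemma meas_nsq' {A : Type*} [MeasurableSpace A] {f : A → Fin d → ℤ} (hf : Measurable f) :
    Measurable fun a => (nsq (f a) : ℝ≥0∞) :=
  (Measurable.of_discrete (f := fun x : Fin d → ℤ => (nsq x : ℝ≥0∞))).comp hf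

lemma measurable_qf : Measurable (qf : (Fin m → Fin d → ℤ) → ℝ≥0∞) := by
  unfold qf
  refine Measurable.add (meas_nsq' measurable_del) (Measurable.const_mul ?_ _)
  exact Finset.measurable_fun_sum _ fun l _ => (meas_nsq' (measurable_ipos l)).add
    (meas_nsq' (measurable_del.sub (measurable_ipos l)))

lemma lintegral_qf_le {μ : Measure (Fin m → Fin d → ℤ)} {K : ℝ≥0∞} {CX : ℝ}
    (hμ : WalkLaw μ K CX) (hm : 1 ≤ m) : ∫⁻ e, qf e ∂μ ≤ 7 * K := by
  unfold qf
  have h1 : Measurable fun e : Fin m → Fin d → ℤ => (nsq (del e) : ℝ≥0∞) :=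
    meas_nsq' measurable_del
  have h2 : ∀ l, Measurable fun e : Fin m → Fin d → ℤ => (nsq (ipos e l) : ℝ≥0∞) := fun l =>
    meas_nsq' (measurable_ipos l)
  have h3 : ∀ l, Measurable fun e : Fin m → Fin d → ℤ => (nsq (del e - ipos e l) : ℝ≥0∞) :=
    fun l => meas_nsq' (measurable_del.sub (measurable_ipos l))
  have h4 : ∀ l ∈ (univ : Finset (Fin m)), Measurable fun e : Fin m → Fin d → ℤ =>
      (nsq (ipos e l) : ℝ≥0∞) + (nsq (del e - ipos e l) : ℝ≥0∞) :=
    fun l _ => (h2 l).add (h3 l)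
  have h5 : Measurable fun e : Fin m → Fin d → ℤ =>
      ∑ l, ((nsq (ipos e l) : ℝ≥0∞) + (nsq (del e - ipos e l) : ℝ≥0∞)) :=
    Finset.measurable_fun_sum _ h4
  rw [lintegral_add_left h1, lintegral_const_mul _ h5, lintegral_finsetSum _ h4]
  have hM0 : (m : ℝ≥0∞) ≠ 0 := by
    simp only [ne_eq, Nat.cast_eq_zero]; omega
  calc _ ≤ K + 3 * (m : ℝ≥0∞)⁻¹ * ∑ l : Fin m, (K + K) := by
        refine add_le_add hμ.mom3 (mul_le_mul' le_rfl (Finset.sum_le_sum fun l _ => ?_))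
        rw [lintegral_add_left (h2 l)]
        exact add_le_add (hμ.mom1 l) (hμ.mom2 l)
    _ = K + 3 * ((m : ℝ≥0∞)⁻¹ * (m : ℝ≥0∞)) * (K + K) := by
        rw [Finset.sum_const, Finset.card_univ, Fintype.card_fin, nsmul_eq_mul]; ring
    _ = _ := by
        rw [ENNReal.inv_mul_cancel hM0 (ENNReal.natCast_ne_top m)]; ring

lemma nsq_add3 (x y z : Fin d → ℤ) : (nsq (x + y + z) : ℝ≥0∞) ≤ 3 * (nsq x + nsq y + nsq z) := by
  have h : nsq (x + y + z) ≤ 3 * (nsq x + nsq y + nsq z) := by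
    have : ((nsq (x + y + z) : ℕ) : ℤ) ≤ ((3 * (nsq x + nsq y + nsq z) : ℕ) : ℤ) := by
      push_cast
      simp only [nsq_cast, Pi.add_apply]
      rw [← Finset.sum_add_distrib, ← Finset.sum_add_distrib, Finset.mul_sum]
      refine Finset.sum_le_sum fun i _ => ?_
      nlinarith [sq_nonneg (x i - y i), sq_nonneg (x i - z i), sq_nonneg (y i - z i)]
    exact_mod_cast this
  exact_mod_cast h

variable {Q : Measure (ℕ → Fin m → Fin d → ℤ)} {CY CY2 ν γ θ : ℝ}

lemma x3_eq (s : ℕ) : ((s : ℝ) + 1) ^ (-(3 / 2) : ℝ) =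
    ((s : ℝ) + 1) * ((s : ℝ) + 1) ^ (-(5 / 2) : ℝ) := by
  nth_rewrite 2 [← Real.rpow_one ((s : ℝ) + 1)]
  rw [← Real.rpow_add (by positivity)]
  norm_num

lemma G_aux (hQ : TrapLaw Q CY CY2) (P : Par m ν γ θ CY) {a c : ℕ} (hac : a < c)
    (b : ℕ → Fin m → Fin d → ℤ) :
    (nsq (∑ k ∈ Ico a (c + 1), del (b k)) : ℝ≥0∞) * ex ν (Uf Q (γ / m) a c b) ≤
      rs (θ * CY) (c - a) * (3 * ENNReal.ofReal CY2 * ((c - a + 1 : ℕ) : ℝ≥0∞) +
        qf (b a) + qf (b c)) := by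
  have hCY := hQ.one_le
  have hCY2 := hQ.nonneg2
  have hθ0 := P.θ_nonneg
  have hν := P.hν
  have hγ := P.hγ
  have hm0 : (0 : ℝ) < m := by exact_mod_cast P.hm
  have hM0 : (m : ℝ≥0∞) ≠ 0 := by
    simp only [ne_eq, Nat.cast_eq_zero]; have := P.hm; omega
  set N := nsq (∑ k ∈ Ico a (c + 1), del (b k)) with hN
  set x5 : ℝ := (((c - a : ℕ) : ℝ) + 1) ^ (-(5 / 2) : ℝ) with hx5
  set x3 : ℝ := (((c - a : ℕ) : ℝ) + 1) ^ (-(3 / 2) : ℝ) with hx3
  have hx5p : 0 ≤ x5 := by positivity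
  have hx35 : x3 = (((c - a : ℕ) : ℝ) + 1) * x5 := x3_eq (c - a)
  set A : Fin m → ℝ≥0∞ := fun l => (nsq (ipos (b a) l) : ℝ≥0∞) with hA
  set B : Fin m → ℝ≥0∞ := fun l => (nsq (del (b c) - ipos (b c) l) : ℝ≥0∞) with hB
  have h1 : ∀ l l' : Fin m, (N : ℝ≥0∞) * pr Q a l c l' (pos b c l' - pos b a l) ≤
      3 * (A l + B l') * ENNReal.ofReal (CY * x5) + 3 * ENNReal.ofReal (CY2 * x3) := by
    intro l l'
    set z := pos b c l' - pos b a l with hz
    have hS : ∑ k ∈ Ico a (c + 1), del (b k) = ipos (b a) l + z + (del (b c) - ipos (b c) l') := by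
      rw [Finset.sum_Ico_eq_sub _ (by omega : a ≤ c + 1), Finset.sum_range_succ, hz]
      unfold pos
      abel
    have h2 : (N : ℝ≥0∞) ≤ 3 * (A l + nsq z + B l') := by
      rw [hN, hS]; exact nsq_add3 _ _ _
    have h3 : pr Q a l c l' z ≤ ENNReal.ofReal (CY * x5) := hQ.hk a c l l' z hac.le
    have h4 : (nsq z : ℝ≥0∞) * pr Q a l c l' z ≤ ENNReal.ofReal (CY2 * x3) :=
      hQ.hk2 a c l l' z hac.le
    calc (N : ℝ≥0∞) * pr Q a l c l' z ≤ 3 * (A l + nsq z + B l') * pr Q a l c l' z :=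
          mul_le_mul' h2 le_rfl
      _ = 3 * (A l + B l') * pr Q a l c l' z + 3 * ((nsq z : ℝ≥0∞) * pr Q a l c l' z) := by ring
      _ ≤ _ := add_le_add (mul_le_mul' le_rfl h3) (mul_le_mul' le_rfl h4)
  have hβM : ENNReal.ofReal ((γ / m) ^ 2) * m = ENNReal.ofReal (γ ^ 2) * (m : ℝ≥0∞)⁻¹ := by
    rw [← ENNReal.ofReal_natCast, ← ENNReal.ofReal_inv_of_pos hm0,
      ← ENNReal.ofReal_mul (by positivity), ← ENNReal.ofReal_mul (by positivity)]
    congr 1
    field_simp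
  have hβMM : ENNReal.ofReal ((γ / m) ^ 2) * m * m = ENNReal.ofReal (γ ^ 2) := by
    rw [hβM, mul_assoc, ENNReal.inv_mul_cancel hM0 (ENNReal.natCast_ne_top m), mul_one]
  calc (N : ℝ≥0∞) * ex ν (Uf Q (γ / m) a c b)
      ≤ (N : ℝ≥0∞) * (ENNReal.ofReal (2 * ν) * (ENNReal.ofReal ((γ / m) ^ 2) *
        ∑ l : Fin m, ∑ l' : Fin m, pr Q a l c l' (pos b c l' - pos b a l))) := by
        refine mul_le_mul' le_rfl ?_
        refine (ex_le hν (nuU_le_one hQ P hac.le b) (Uf_ne_top hQ P.hm hγ hac.le b)).trans ?_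
        exact mul_le_mul' le_rfl (Uf_le (by positivity) a c b)
    _ = ENNReal.ofReal (2 * ν) * ENNReal.ofReal ((γ / m) ^ 2) *
        ∑ l : Fin m, ∑ l' : Fin m, (N : ℝ≥0∞) * pr Q a l c l' (pos b c l' - pos b a l) := by
        simp only [← Finset.mul_sum]; ring
    _ ≤ ENNReal.ofReal (2 * ν) * ENNReal.ofReal ((γ / m) ^ 2) *
        ∑ l : Fin m, ∑ l' : Fin m, (3 * (A l + B l') * ENNReal.ofReal (CY * x5) +
          3 * ENNReal.ofReal (CY2 * x3)) :=
        mul_le_mul' le_rfl (Finset.sum_le_sum fun l _ => Finset.sum_le_sum fun l' _ => h1 l l')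
    _ = ENNReal.ofReal (2 * ν) * ((ENNReal.ofReal ((γ / m) ^ 2) * m) *
          (3 * (∑ l, A l + ∑ l, B l)) * ENNReal.ofReal (CY * x5) +
        (ENNReal.ofReal ((γ / m) ^ 2) * m * m) * (3 * ENNReal.ofReal (CY2 * x3))) := by
        have e1 : ∑ l : Fin m, ∑ l' : Fin m, (3 * (A l + B l') * ENNReal.ofReal (CY * x5) +
          3 * ENNReal.ofReal (CY2 * x3)) = (m : ℝ≥0∞) * (3 * (∑ l, A l + ∑ l, B l)) *
            ENNReal.ofReal (CY * x5) + (m : ℝ≥0∞) * (m : ℝ≥0∞) *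
            (3 * ENNReal.ofReal (CY2 * x3)) := by
          simp only [Finset.sum_add_distrib, Finset.sum_const, Finset.card_univ, Fintype.card_fin,
            nsmul_eq_mul, ← Finset.mul_sum, ← Finset.sum_mul, mul_add, add_mul]
          ring
        rw [e1]; ring
    _ = ENNReal.ofReal (2 * ν) * ENNReal.ofReal (γ ^ 2) * (ENNReal.ofReal (CY * x5) *
          (3 * (m : ℝ≥0∞)⁻¹ * (∑ l, A l + ∑ l, B l)) +
        3 * ENNReal.ofReal (CY2 * x3)) := by
        rw [hβMM, hβM]; ring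
    _ ≤ ENNReal.ofReal (2 * ν) * ENNReal.ofReal (γ ^ 2) * (ENNReal.ofReal (CY * x5) *
          (qf (b a) + qf (b c)) + ENNReal.ofReal (CY * x5) *
          (3 * ENNReal.ofReal CY2 * ((c - a + 1 : ℕ) : ℝ≥0∞))) := by
        refine mul_le_mul' le_rfl (add_le_add (mul_le_mul' le_rfl ?_) ?_)
        · rw [mul_add]
          refine add_le_add ?_ ?_
          · refine le_trans ?_ le_add_self
            exact mul_le_mul' le_rfl (Finset.sum_le_sum fun l _ => le_self_add)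
          · refine le_trans ?_ le_add_self
            exact mul_le_mul' le_rfl (Finset.sum_le_sum fun l _ => le_add_self)
        · have e2 : ((c - a + 1 : ℕ) : ℝ≥0∞) = ENNReal.ofReal (((c - a : ℕ) : ℝ) + 1) := by
            rw [← ENNReal.ofReal_natCast]; push_cast; rfl
          have e3 : ENNReal.ofReal (CY * x5) * (3 * ENNReal.ofReal CY2 *
              ((c - a + 1 : ℕ) : ℝ≥0∞)) = 3 * ENNReal.ofReal (CY2 * (CY * x3)) := by
            rw [e2, hx35]
            calc _ = 3 * (ENNReal.ofReal (CY * x5) * ENNReal.ofReal CY2 *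
                ENNReal.ofReal (((c - a : ℕ) : ℝ) + 1)) := by ring
              _ = _ := by
                rw [← ENNReal.ofReal_mul (by positivity), ← ENNReal.ofReal_mul (by positivity)]
                congr 2; ring
          rw [e3]
          refine mul_le_mul' le_rfl (ENNReal.ofReal_le_ofReal ?_)
          have hx3p : 0 ≤ x3 := by positivity
          have : CY2 * x3 ≤ CY2 * (CY * x3) := by
            refine mul_le_mul_of_nonneg_left ?_ hCY2
            nlinarith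
          exact this
    _ = ENNReal.ofReal (2 * ν * γ ^ 2 * (CY * x5)) * (3 * ENNReal.ofReal CY2 *
          ((c - a + 1 : ℕ) : ℝ≥0∞) + qf (b a) + qf (b c)) := by
        rw [ENNReal.ofReal_mul (show 0 ≤ 2 * ν * γ ^ 2 by positivity),
          ENNReal.ofReal_mul (show 0 ≤ 2 * ν by positivity)]
        ring
    _ ≤ _ := by
        refine mul_le_mul' ?_ le_rfl
        unfold rs
        apply ENNReal.ofReal_le_ofReal
        calc 2 * ν * γ ^ 2 * (CY * x5) = 2 * ((ν * γ ^ 2) * CY) * x5 := by ring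
          _ ≤ 2 * (θ * CY) * x5 := by
            gcongr
            exact P.hθ

/-- the displacement data of the discretised model -/
noncomputable def mkDisp [SFinite Q] (hQ : TrapLaw Q CY CY2) (P : Par m ν γ θ CY)
    {μ : Measure (Fin m → Fin d → ℤ)} {K : ℝ≥0∞} {CX : ℝ} (hμ : WalkLaw μ K CX) :
    Disp (mkSys hQ P) μ d where
  Δ := del
  measΔ := measurable_del
  σ := fun e => -e
  measσ := measurable_neg
  mapσ := hμ.symm
  Δσ := del_neg
  ρσ a c b := by
    have : Uf Q (γ / m) a c (fun i => -b i) = Uf Q (γ / m) a c b := Uf_neg hQ _ a c b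
    simp only [mkSys, this]
  q := qf
  measq := measurable_qf
  Cq := 7 * K
  hq := lintegral_qf_le hμ P.hm
  Δ_le e := le_self_add
  CG := 3 * ENNReal.ofReal CY2
  G a c b hac := by
    rcases eq_or_lt_of_le hac with h | h
    · subst h
      have h1 := (mkSys hQ P).le a a b le_rfl
      have h2 : (nsq (∑ k ∈ Ico a (a + 1), del (b k)) : ℝ≥0∞) ≤ qf (b a) := by
        have : Ico a (a + 1) = {a} := by ext x; rw [Finset.mem_Ico, Finset.mem_singleton]; omega
        rw [this, Finset.sum_singleton]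
        exact le_self_add
      rw [mul_comm]
      refine mul_le_mul' h1 (h2.trans ?_)
      rw [add_assoc]
      exact le_trans le_self_add le_add_self
    · have h1 := G_aux hQ P h b
      have h2 : (mkSys hQ P).ρ a c b = ex ν (Uf Q (γ / m) a c b) := by
        simp only [mkSys, hac, if_true]
      rw [h2]
      exact h1

end Pool.Agent.Helper83.Traps
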