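import Pool.Agent.Helper83.Traps.Disc4

open MeasureTheory ProbabilityTheory Filter Finset
open scoped ENNReal Topology

namespace Pool.Agent.Helper83.Traps

variable {d m : ℕ}

/-! identities for the full interaction -/

/-- full interaction of a difference path -/
noncomputable def Phi (β : ℝ) (T : ℕ) (e : ℕ → Fin m → Fin d → ℤ) : ℝ≥0∞ :=
  ∑' y, ENNReal.ofReal (1 - Real.exp (-∑ i ∈ range T, β * vis e i y))

lemma measurable_sumvis (β : ℝ) (T : ℕ) (y : Fin d → ℤ) :
    Measurable fun e : ℕ → Fin m → Fin d → ℤ => ∑ i ∈ range T, β * (vis e i y : ℝ) :=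
  Finset.measurable_fun_sum _ fun i _ => (measurable_visR i y).const_mul β

lemma measurable_Phi (β : ℝ) (T : ℕ) :
    Measurable (Phi β T : (ℕ → Fin m → Fin d → ℤ) → ℝ≥0∞) :=
  Measurable.tsum fun y => (measurable_const.sub
    (Real.measurable_exp.comp (measurable_sumvis β T y).neg)).ennreal_ofReal

lemma Phi_add {β : ℝ} (hβ : 0 ≤ β) (T : ℕ) (e : ℕ → Fin m → Fin d → ℤ) :
    Phi β T e + ∑ p ∈ Int 0 T, Psi β p.1 p.2 e = ENNReal.ofReal (β * m * T) := by
  unfold Phi Psi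
  rw [← Summable.tsum_finsetSum fun _ _ => ENNReal.summable, ← ENNReal.tsum_add]
  have h1 : ∀ y, ENNReal.ofReal (1 - Real.exp (-∑ i ∈ range T, β * vis e i y)) +
      ∑ p ∈ Int 0 T, ENNReal.ofReal (ps (fun i => β * vis e i y) p.1 p.2) =
      ENNReal.ofReal β * ∑ i ∈ range T, (vis e i y : ℝ≥0∞) := by
    intro y
    have hn : ∀ i, 0 ≤ β * (vis e i y : ℝ) := fun i => by positivity
    rw [← ENNReal.ofReal_sum_of_nonneg fun p _ => ps_nonneg hn _ _,
      ← ENNReal.ofReal_add (one_sub_exp_nonneg (Finset.sum_nonneg fun i _ => hn i))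
        (Finset.sum_nonneg fun p _ => ps_nonneg hn _ _),
      pair_identity (fun i => β * (vis e i y : ℝ)) T, ← Finset.mul_sum,
      ENNReal.ofReal_mul hβ, ENNReal.ofReal_sum_of_nonneg fun _ _ => by positivity]
    simp only [ENNReal.ofReal_natCast]
  simp only [h1]
  rw [ENNReal.tsum_mul_left, Summable.tsum_finsetSum fun _ _ => ENNReal.summable]
  simp only [tsum_vis, Finset.sum_const, Finset.card_range, nsmul_eq_mul]
  rw [ENNReal.ofReal_mul (by positivity), ENNReal.ofReal_mul hβ, ENNReal.ofReal_natCast,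
    ENNReal.ofReal_natCast]
  ring

/-- full interaction averaged over the trap -/
noncomputable def Wf (Q : Measure (ℕ → Fin m → Fin d → ℤ)) (β : ℝ) (T : ℕ)
    (b : ℕ → Fin m → Fin d → ℤ) : ℝ≥0∞ := ∫⁻ b', Phi β T (b - b') ∂Q

variable {Q : Measure (ℕ → Fin m → Fin d → ℤ)} {CY CY2 ν γ θ : ℝ}

lemma measurable_Wf [SFinite Q] (β : ℝ) (T : ℕ) : Measurable (Wf Q β T) := by
  have h : Measurable fun p : (ℕ → Fin m → Fin d → ℤ) × (ℕ → Fin m → Fin d → ℤ) =>
      Phi β T (p.1 - p.2) :=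
    (measurable_Phi β T).comp (measurable_fst.sub measurable_snd)
  exact h.lintegral_prod_right'

lemma Wf_add [IsProbabilityMeasure Q] {β : ℝ} (hβ : 0 ≤ β) (T : ℕ) (b : ℕ → Fin m → Fin d → ℤ) :
    Wf Q β T b + ∑ p ∈ Int 0 T, Uf Q β p.1 p.2 b = ENNReal.ofReal (β * m * T) := by
  unfold Wf Uf
  have hm1 : ∀ p ∈ Int 0 T, Measurable fun b' : ℕ → Fin m → Fin d → ℤ =>
      Psi β p.1 p.2 (b - b') := fun p _ =>
    (measurable_Psi β p.1 p.2).comp (measurable_const.sub measurable_id)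
  have hm2 : Measurable fun b' : ℕ → Fin m → Fin d → ℤ => Phi β T (b - b') :=
    (measurable_Phi β T).comp (measurable_const.sub measurable_id)
  rw [← lintegral_finsetSum _ hm1, ← lintegral_add_left hm2]
  simp only [Phi_add hβ]
  simp

lemma Wf_ne_top [IsProbabilityMeasure Q] {β : ℝ} (hβ : 0 ≤ β) (T : ℕ)
    (b : ℕ → Fin m → Fin d → ℤ) : Wf Q β T b ≠ ⊤ := by
  have h := Wf_add (Q := Q) hβ T b
  refine ne_top_of_le_ne_top (b := ENNReal.ofReal (β * m * T)) ENNReal.ofReal_ne_top ?_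
  rw [← h]; exact le_self_add

lemma one_add_ex {ν : ℝ} (hν : 0 ≤ ν) (u : ℝ≥0∞) :
    1 + ex ν u = ENNReal.ofReal (Real.exp (ν * u.toReal)) := by
  unfold ex
  have h : 0 ≤ Real.exp (ν * u.toReal) - 1 := by
    have := Real.one_le_exp (x := ν * u.toReal) (by positivity)
    linarith
  rw [← ENNReal.ofReal_one, ← ENNReal.ofReal_add (by norm_num) h]
  congr 1; ring

/-- the tilt of the window `[0,T)` is the survival weight -/
lemma w_eq_exp [IsProbabilityMeasure Q] (hQ : TrapLaw Q CY CY2) (P : Par m ν γ θ CY) (T : ℕ)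
    (b : ℕ → Fin m → Fin d → ℤ) :
    ENNReal.ofReal (Real.exp (-(ν * γ * T))) * (mkSys hQ P).w 0 T b =
      ENNReal.ofReal (Real.exp (-(ν * (Wf Q (γ / m) T b).toReal))) := by
  have hm0 : (0 : ℝ) < m := by exact_mod_cast P.hm
  have hγ := P.hγ
  have hβ : 0 ≤ γ / m := by positivity
  have hU : ∀ p ∈ Int 0 T, Uf Q (γ / m) p.1 p.2 b ≠ ⊤ := fun p hp => by
    rw [mem_Int] at hp; exact Uf_ne_top hQ P.hm P.hγ hp.2.1 b
  have h1 : (Wf Q (γ / m) T b).toReal + ∑ p ∈ Int 0 T, (Uf Q (γ / m) p.1 p.2 b).toReal =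
      γ * T := by
    have h := congrArg ENNReal.toReal (Wf_add (Q := Q) hβ T b)
    rw [ENNReal.toReal_add (Wf_ne_top hβ T b) (ENNReal.sum_ne_top.2 hU),
      ENNReal.toReal_sum hU, ENNReal.toReal_ofReal (by positivity)] at h
    rw [h]; field_simp
  have h2 : (mkSys hQ P).w 0 T b =
      ENNReal.ofReal (Real.exp (ν * ∑ p ∈ Int 0 T, (Uf Q (γ / m) p.1 p.2 b).toReal)) := by
    unfold Sys.w
    rw [Finset.mul_sum, Real.exp_sum, ENNReal.ofReal_prod_of_nonneg fun _ _ => (Real.exp_pos _).le]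
    refine Finset.prod_congr rfl fun p hp => ?_
    rw [mem_Int] at hp
    have : (mkSys hQ P).ρ p.1 p.2 b = ex ν (Uf Q (γ / m) p.1 p.2 b) := by
      simp only [mkSys, hp.2.1, if_true]
    rw [this, one_add_ex P.hν]
  rw [h2, ← ENNReal.ofReal_mul (Real.exp_pos _).le, ← Real.exp_add]
  congr 2
  linear_combination ν * h1

/-! two paths -/

/-- interaction of two paths with the same traps -/
noncomputable def Phi2 (β : ℝ) (T : ℕ) (e e' : ℕ → Fin m → Fin d → ℤ) : ℝ≥0∞ :=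
  ∑' y, ENNReal.ofReal (1 - Real.exp (-(∑ i ∈ range T, β * vis e i y +
    ∑ i ∈ range T, β * vis e' i y)))

lemma measurable_Phi2 (β : ℝ) (T : ℕ) :
    Measurable fun p : (ℕ → Fin m → Fin d → ℤ) × (ℕ → Fin m → Fin d → ℤ) =>
      Phi2 β T p.1 p.2 :=
  Measurable.tsum fun y => (measurable_const.sub
    (Real.measurable_exp.comp (((measurable_sumvis β T y).comp measurable_fst).add
      ((measurable_sumvis β T y).comp measurable_snd)).neg)).ennreal_ofReal

lemma one_sub_exp_add {a b : ℝ} (ha : 0 ≤ a) (hb : 0 ≤ b) :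
    (1 - Real.exp (-a)) + (1 - Real.exp (-b)) ≤ (1 - Real.exp (-(a + b))) + a * b := by
  have h1 : Real.exp (-(a + b)) = Real.exp (-a) * Real.exp (-b) := by
    rw [← Real.exp_add]; congr 1; ring
  have h2 := one_sub_exp_le a
  have h3 := one_sub_exp_le b
  have h4 := one_sub_exp_nonneg ha
  have h5 := one_sub_exp_nonneg hb
  rw [h1]
  nlinarith [mul_le_mul h2 h3 h5 ha]

lemma tsum_sumvis_mul (β : ℝ) (T : ℕ) (e e' : ℕ → Fin m → Fin d → ℤ) :
    ∑' y, ENNReal.ofReal ((∑ i ∈ range T, β * vis e i y) * (∑ i ∈ range T, β * vis e' i y)) =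
      ENNReal.ofReal (β ^ 2) * ∑ i ∈ range T, ∑ i' ∈ range T, ∑ l : Fin m, ∑ l' : Fin m,
        if pos e i l = pos e' i' l' then (1 : ℝ≥0∞) else 0 := by
  have h1 : ∀ y, ENNReal.ofReal ((∑ i ∈ range T, β * vis e i y) *
      (∑ i ∈ range T, β * vis e' i y)) =
      ENNReal.ofReal (β ^ 2) * ∑ i ∈ range T, ∑ i' ∈ range T,
        ((vis e i y : ℝ≥0∞) * (vis e' i' y : ℝ≥0∞)) := by
    intro y
    rw [← Finset.mul_sum, ← Finset.mul_sum]
    rw [show (β * ∑ i ∈ range T, (vis e i y : ℝ)) * (β * ∑ i ∈ range T, (vis e' i y : ℝ)) =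
      β ^ 2 * ((∑ i ∈ range T, (vis e i y : ℝ)) * ∑ i ∈ range T, (vis e' i y : ℝ)) by ring]
    rw [ENNReal.ofReal_mul (by positivity), ENNReal.ofReal_mul (by positivity),
      ENNReal.ofReal_sum_of_nonneg fun _ _ => by positivity,
      ENNReal.ofReal_sum_of_nonneg fun _ _ => by positivity, Finset.sum_mul_sum]
    simp only [ENNReal.ofReal_natCast]
  simp only [h1]
  rw [ENNReal.tsum_mul_left]
  congr 1
  rw [Summable.tsum_finsetSum fun _ _ => ENNReal.summable]
  refine Finset.sum_congr rfl fun i _ => ?_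
  rw [Summable.tsum_finsetSum fun _ _ => ENNReal.summable]
  refine Finset.sum_congr rfl fun i' _ => ?_
  have h2 : ∀ i y (e : ℕ → Fin m → Fin d → ℤ),
      (vis e i y : ℝ≥0∞) = ∑ l : Fin m, if pos e i l = y then (1 : ℝ≥0∞) else 0 := by
    intro i y e; rw [vis_eq_sum]; push_cast; rfl
  have h3 : ∀ y, ((vis e i y : ℝ≥0∞) * (vis e' i' y : ℝ≥0∞)) =
      ∑ l : Fin m, ∑ l' : Fin m, if pos e i l = y then (if pos e' i' l' = y then (1 : ℝ≥0∞) else 0)
        else 0 := by
    intro y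
    rw [h2, h2, Finset.sum_mul_sum]
    refine Finset.sum_congr rfl fun l _ => Finset.sum_congr rfl fun l' _ => ?_
    split_ifs <;> simp
  simp only [h3]
  rw [Summable.tsum_finsetSum fun _ _ => ENNReal.summable]
  refine Finset.sum_congr rfl fun l _ => ?_
  rw [Summable.tsum_finsetSum fun _ _ => ENNReal.summable]
  refine Finset.sum_congr rfl fun l' _ => ?_
  rw [tsum_eq_single (pos e i l)]
  · rw [if_pos rfl]
    by_cases h : pos e i l = pos e' i' l'
    · rw [if_pos h, if_pos h.symm]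
    · rw [if_neg h, if_neg (Ne.symm h)]
  · intro y hy; rw [if_neg (Ne.symm hy)]

lemma Phi_add_Phi_le {β : ℝ} (hβ : 0 ≤ β) (T : ℕ) (e e' : ℕ → Fin m → Fin d → ℤ) :
    Phi β T e + Phi β T e' ≤ Phi2 β T e e' + ENNReal.ofReal (β ^ 2) *
      ∑ i ∈ range T, ∑ i' ∈ range T, ∑ l : Fin m, ∑ l' : Fin m,
        if pos e i l = pos e' i' l' then (1 : ℝ≥0∞) else 0 := by
  rw [← tsum_sumvis_mul β]
  unfold Phi Phi2
  rw [← ENNReal.tsum_add, ← ENNReal.tsum_add]
  refine ENNReal.tsum_le_tsum fun y => ?_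
  have h1 : ∀ e : ℕ → Fin m → Fin d → ℤ, 0 ≤ ∑ i ∈ range T, β * (vis e i y : ℝ) := fun e =>
    Finset.sum_nonneg fun i _ => by positivity
  rw [← ENNReal.ofReal_add (one_sub_exp_nonneg (h1 e)) (one_sub_exp_nonneg (h1 e')),
    ← ENNReal.ofReal_add (one_sub_exp_nonneg (add_nonneg (h1 e) (h1 e')))
      (mul_nonneg (h1 e) (h1 e'))]
  exact ENNReal.ofReal_le_ofReal (one_sub_exp_add (h1 e) (h1 e'))

/-- interaction of two paths averaged over the trap -/
noncomputable def Wf2 (Q : Measure (ℕ → Fin m → Fin d → ℤ)) (β : ℝ) (T : ℕ)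
    (b c : ℕ → Fin m → Fin d → ℤ) : ℝ≥0∞ := ∫⁻ b', Phi2 β T (b - b') (c - b') ∂Q

/-- cross interaction of one block with the second path -/
noncomputable def Jf (Q : Measure (ℕ → Fin m → Fin d → ℤ)) (β : ℝ) (T : ℕ)
    (c : ℕ → Fin m → Fin d → ℤ) (j : ℕ) (x : Fin d → ℤ) (e : Fin m → Fin d → ℤ) : ℝ≥0∞ :=
  ENNReal.ofReal (β ^ 2) * ∑ i' ∈ range T, ∑ l : Fin m, ∑ l' : Fin m,
    pr Q i' l' j l (x + ipos e l - pos c i' l')

lemma meas_sum4 {Ω : Type*} [MeasurableSpace Ω] (T m : ℕ)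
    {F : ℕ → ℕ → Fin m → Fin m → Ω → ℝ≥0∞} (hF : ∀ i i' l l', Measurable (F i i' l l')) :
    Measurable fun ω => ∑ i ∈ range T, ∑ i' ∈ range T, ∑ l, ∑ l', F i i' l l' ω :=
  Finset.measurable_fun_sum _ fun i _ => Finset.measurable_fun_sum _ fun i' _ =>
    Finset.measurable_fun_sum _ fun l _ => Finset.measurable_fun_sum _ fun l' _ => hF i i' l l'

lemma lintegral_sum4 {Ω : Type*} [MeasurableSpace Ω] (Q : Measure Ω) (T m : ℕ)
    {F : ℕ → ℕ → Fin m → Fin m → Ω → ℝ≥0∞} (hF : ∀ i i' l l', Measurable (F i i' l l')) :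
    ∫⁻ ω, ∑ i ∈ range T, ∑ i' ∈ range T, ∑ l, ∑ l', F i i' l l' ω ∂Q =
      ∑ i ∈ range T, ∑ i' ∈ range T, ∑ l, ∑ l', ∫⁻ ω, F i i' l l' ω ∂Q := by
  have h1 : ∀ i i' l, Measurable fun ω => ∑ l', F i i' l l' ω := fun i i' l =>
    Finset.measurable_fun_sum _ fun l' _ => hF i i' l l'
  have h2 : ∀ i i', Measurable fun ω => ∑ l, ∑ l', F i i' l l' ω := fun i i' =>
    Finset.measurable_fun_sum _ fun l _ => h1 i i' l
  have h3 : ∀ i, Measurable fun ω => ∑ i' ∈ range T, ∑ l, ∑ l', F i i' l l' ω := fun i =>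
    Finset.measurable_fun_sum _ fun i' _ => h2 i i'
  rw [lintegral_finsetSum _ fun i _ => h3 i]
  refine Finset.sum_congr rfl fun i _ => ?_
  rw [lintegral_finsetSum _ fun i' _ => h2 i i']
  refine Finset.sum_congr rfl fun i' _ => ?_
  rw [lintegral_finsetSum _ fun l _ => h1 i i' l]
  refine Finset.sum_congr rfl fun l _ => ?_
  rw [lintegral_finsetSum _ fun l' _ => hF i i' l l']

/-- indicator of a coincidence -/
noncomputable def coi (b c : ℕ → Fin m → Fin d → ℤ) (i i' : ℕ) (l l' : Fin m)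
    (b' : ℕ → Fin m → Fin d → ℤ) : ℝ≥0∞ :=
  if pos (b - b') i l = pos (c - b') i' l' then 1 else 0

lemma coi_eq (b c : ℕ → Fin m → Fin d → ℤ) (i i' : ℕ) (l l' : Fin m)
    (b' : ℕ → Fin m → Fin d → ℤ) : coi b c i i' l l' b' =
      Set.indicator {b' | pos b' i l - pos b' i' l' = pos b i l - pos c i' l'} 1 b' := by
  unfold coi
  rw [Set.indicator_apply]
  have : pos (b - b') i l = pos (c - b') i' l' ↔
      b' ∈ {b' | pos b' i l - pos b' i' l' = pos b i l - pos c i' l'} := by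
    rw [pos_sub, pos_sub]
    show _ ↔ pos b' i l - pos b' i' l' = pos b i l - pos c i' l'
    constructor
    · intro h; linear_combination -h
    · intro h; linear_combination -h
  simp only [this, Pi.one_apply]

lemma measurableSet_pos (i i' : ℕ) (l l' : Fin m) (z : Fin d → ℤ) :
    MeasurableSet {b' : ℕ → Fin m → Fin d → ℤ | pos b' i l - pos b' i' l' = z} := by
  have := ((measurable_pos (d := d) i l).sub (measurable_pos i' l')) (measurableSet_singleton z)
  exact this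

lemma measurable_coi (b c : ℕ → Fin m → Fin d → ℤ) (i i' : ℕ) (l l' : Fin m) :
    Measurable (coi b c i i' l l') := by
  have : coi b c i i' l l' =
      Set.indicator {b' | pos b' i l - pos b' i' l' = pos b i l - pos c i' l'} 1 := by
    funext b'; exact coi_eq b c i i' l l' b'
  rw [this]
  exact measurable_one.indicator (measurableSet_pos i i' l l' _)

lemma lintegral_coi (Q : Measure (ℕ → Fin m → Fin d → ℤ)) (b c : ℕ → Fin m → Fin d → ℤ)
    (i i' : ℕ) (l l' : Fin m) :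
    ∫⁻ b', coi b c i i' l l' b' ∂Q = pr Q i' l' i l (pos b i l - pos c i' l') := by
  simp only [coi_eq]
  rw [lintegral_indicator_one (measurableSet_pos i i' l l' _)]
  rfl

lemma Wf_add_Wf_le {β : ℝ} (hβ : 0 ≤ β) (T : ℕ)
    (b c : ℕ → Fin m → Fin d → ℤ) :
    Wf Q β T b + Wf Q β T c ≤ Wf2 Q β T b c +
      ∑ j ∈ range T, Jf Q β T c j (∑ k ∈ range j, del (b k)) (b j) := by
  have hm1 : ∀ b : ℕ → Fin m → Fin d → ℤ,
      Measurable fun b' : ℕ → Fin m → Fin d → ℤ => Phi β T (b - b') := fun b =>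
    (measurable_Phi β T).comp (measurable_const.sub measurable_id)
  have hsub : ∀ b : ℕ → Fin m → Fin d → ℤ,
      Measurable fun b' : ℕ → Fin m → Fin d → ℤ => b - b' := fun b =>
    measurable_const.sub measurable_id
  have hpair : Measurable fun b' : ℕ → Fin m → Fin d → ℤ => (b - b', c - b') :=
    (hsub b).prodMk (hsub c)
  have hm2 : Measurable fun b' : ℕ → Fin m → Fin d → ℤ => Phi2 β T (b - b') (c - b') := by
    have := (measurable_Phi2 β T).comp hpair
    exact this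
  have hpt : ∀ b', Phi β T (b - b') + Phi β T (c - b') ≤ Phi2 β T (b - b') (c - b') +
      ENNReal.ofReal (β ^ 2) * ∑ i ∈ range T, ∑ i' ∈ range T, ∑ l : Fin m, ∑ l' : Fin m,
        coi b c i i' l l' b' := fun b' => Phi_add_Phi_le hβ T _ _
  unfold Wf Wf2
  rw [← lintegral_add_left (hm1 b)]
  refine (lintegral_mono hpt).trans ?_
  rw [lintegral_add_left hm2]
  refine add_le_add le_rfl (le_of_eq ?_)
  rw [lintegral_const_mul _ (meas_sum4 T m fun i i' l l' => measurable_coi b c i i' l l'),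
    lintegral_sum4 Q T m fun i i' l l' => measurable_coi b c i i' l l']
  simp only [lintegral_coi]
  rw [Finset.mul_sum]
  refine Finset.sum_congr rfl fun j _ => ?_
  unfold Jf
  have hp : ∀ l, pos b j l = ∑ k ∈ range j, del (b k) + ipos (b j) l := fun l => rfl
  simp only [hp]

end Pool.Agent.Helper83.Traps
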