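import Pool.Agent.Helper83.Traps.Disc5

open MeasureTheory ProbabilityTheory Filter Finset
open scoped ENNReal Topology

namespace Pool.Agent.Helper83.Traps

section general

variable {E : Type*} [MeasurableSpace E] {d : ℕ}

/-- a local bound is stable under adding an independent block displacement -/
lemma local_indep {S : Sys E} {μ : Measure E} [IsProbabilityMeasure μ] (X : Disp S μ d)
    {i j : ℕ} {C : ℝ≥0∞}
    (hloc : ∀ z, ∫⁻ b, S.w i j b * (if X.sm i j b = z then 1 else 0) ∂PP μ ≤ C)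
    {f : E → Fin d → ℤ} (hf : Measurable f) (Z : Fin d → ℤ) :
    ∫⁻ b, S.w i j b * (if X.sm i j b + f (b j) = Z then 1 else 0) ∂PP μ ≤ C := by
  have hmf : Measurable fun b : ℕ → E => f (b j) := hf.comp (measurable_pi_apply j)
  have hm1 : ∀ v, Measurable fun b : ℕ → E =>
      S.w i j b * (if X.sm i j b = v then (1 : ℝ≥0∞) else 0) := fun v =>
    (S.meas_w i j).mul (Disp.meas_ind (X.meas_sm i j) v)
  have hm2 : ∀ v, Measurable fun b : ℕ → E => (if f (b j) = v then (1 : ℝ≥0∞) else 0) :=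
    fun v => Disp.meas_ind hmf v
  have hm3 : ∀ v, Measurable fun b : ℕ → E =>
      (S.w i j b * (if X.sm i j b = Z - v then (1 : ℝ≥0∞) else 0)) *
        (if f (b j) = v then (1 : ℝ≥0∞) else 0) := fun v => (hm1 (Z - v)).mul (hm2 v)
  have hd1 : ∀ v, DependsOn (fun b : ℕ → E =>
      S.w i j b * (if X.sm i j b = v then (1 : ℝ≥0∞) else 0))
      ((Finset.Ico i j : Finset ℕ) : Set ℕ) := fun v =>
    dep_mul (S.dep_w i j) (dep_comp (X.dep_sm (by rw [Finset.coe_Ico]))
      (fun y => if y = v then (1 : ℝ≥0∞) else 0))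
  have hd2 : ∀ v, DependsOn (fun b : ℕ → E => (if f (b j) = v then (1 : ℝ≥0∞) else 0))
      (({j} : Finset ℕ) : Set ℕ) := fun v => by
    intro b b' h
    simp only
    rw [h j (by simp)]
  have hsplit : ∀ b, S.w i j b * (if X.sm i j b + f (b j) = Z then (1 : ℝ≥0∞) else 0) =
      ∑' v, (S.w i j b * (if X.sm i j b = Z - v then (1 : ℝ≥0∞) else 0)) *
        (if f (b j) = v then (1 : ℝ≥0∞) else 0) := by
    intro b
    rw [tsum_eq_single (f (b j)) (by
      intro v hv; rw [if_neg (Ne.symm hv)]; simp), if_pos rfl, mul_one]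
    congr 1
    have : X.sm i j b + f (b j) = Z ↔ X.sm i j b = Z - f (b j) := eq_sub_iff_add_eq.symm
    simp only [this]
  rw [lintegral_congr hsplit, lintegral_tsum fun v => (hm3 v).aemeasurable]
  calc ∑' v, ∫⁻ b, (S.w i j b * (if X.sm i j b = Z - v then (1 : ℝ≥0∞) else 0)) *
        (if f (b j) = v then (1 : ℝ≥0∞) else 0) ∂PP μ
      = ∑' v, (∫⁻ b, S.w i j b * (if X.sm i j b = Z - v then (1 : ℝ≥0∞) else 0) ∂PP μ) *
        ∫⁻ b, (if f (b j) = v then (1 : ℝ≥0∞) else 0) ∂PP μ := by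
        refine tsum_congr fun v => ?_
        exact lintegral_mul_dep μ (hm1 (Z - v)) (hm2 v) (by simp) (hd1 _) (hd2 v)
    _ ≤ ∑' v, C * ∫⁻ b, (if f (b j) = v then (1 : ℝ≥0∞) else 0) ∂PP μ :=
        ENNReal.tsum_le_tsum fun v => mul_le_mul' (hloc _) le_rfl
    _ = C * ∫⁻ b, ∑' v, (if f (b j) = v then (1 : ℝ≥0∞) else 0) ∂PP μ := by
        rw [ENNReal.tsum_mul_left, lintegral_tsum fun v => (hm2 v).aemeasurable]
    _ = C * ∫⁻ _, 1 ∂PP μ := by
        congr 1
        refine lintegral_congr fun b => ?_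
        rw [tsum_eq_single (f (b j)) (by intro v hv; rw [if_neg (Ne.symm hv)]), if_pos rfl]
    _ = C := by simp

end general

variable {d m : ℕ}
variable {Q : Measure (ℕ → Fin m → Fin d → ℤ)} {CY CY2 ν γ θ : ℝ}

/-- distance of two block indices -/
def dst (i j : ℕ) : ℕ := (j - i) + (i - j)

lemma sum_dst_le (f : ℕ → ℝ≥0∞) (j T : ℕ) :
    ∑ i ∈ range T, f (dst i j) ≤ 2 * ∑' s, f s := by
  rw [← Finset.sum_filter_add_sum_filter_not (range T) (fun i => i ≤ j), two_mul]
  refine add_le_add ?_ ?_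
  · have hinj : Set.InjOn (fun i : ℕ => dst i j) ((range T).filter (fun i => i ≤ j) : Set ℕ) := by
      intro x hx y hy hxy
      rw [Finset.mem_coe, mem_filter] at hx hy
      simp only [dst] at hxy
      omega
    rw [← Finset.sum_image (f := f) (g := fun i => dst i j) hinj]
    exact ENNReal.sum_le_tsum _
  · have hinj : Set.InjOn (fun i : ℕ => dst i j) ((range T).filter (fun i => ¬ i ≤ j) : Set ℕ) := by
      intro x hx y hy hxy
      rw [Finset.mem_coe, mem_filter] at hx hy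
      simp only [dst] at hxy
      omega
    rw [← Finset.sum_image (f := f) (g := fun i => dst i j) hinj]
    exact ENNReal.sum_le_tsum _

lemma pr_le (hQ : TrapLaw Q CY CY2) (i j : ℕ) (l l' : Fin m) (z : Fin d → ℤ) :
    pr Q i l j l' z ≤ ENNReal.ofReal (CY * ((dst i j : ℝ) + 1) ^ (-(5 / 2) : ℝ)) := by
  rcases le_total i j with h | h
  · have h1 := hQ.hk i j l l' z h
    have : dst i j = j - i := by unfold dst; omega
    rw [this]; exact h1
  · have h1 := hQ.hk j i l' l (-z) h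
    have : dst i j = i - j := by unfold dst; omega
    rw [this]
    refine le_trans (le_of_eq ?_) h1
    unfold pr
    congr 1
    ext b'
    show pos b' j l' - pos b' i l = z ↔ pos b' i l - pos b' j l' = -z
    constructor
    · rintro rfl; abel
    · intro h; rw [← neg_eq_iff_eq_neg] at h; rw [← h]; abel

/-- the truncated profile -/
noncomputable def FF (C1 CY : ℝ) (r s : ℕ) : ℝ≥0∞ :=
  if s ≤ r then ENNReal.ofReal (C1 * ((r : ℝ) + 1) ^ (-(5 / 2) : ℝ))
  else ENNReal.ofReal (CY * ((s : ℝ) + 1) ^ (-(5 / 2) : ℝ))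

lemma tsum_FF_le {C1 CY : ℝ} (h1 : 0 ≤ C1) (h2 : 0 ≤ CY) (r : ℕ) :
    ∑' s, FF C1 CY r s ≤ ENNReal.ofReal ((C1 + CY) * ((r : ℝ) + 1) ^ (-(3 / 2) : ℝ)) := by
  rw [← (ENNReal.summable (f := fun n => FF C1 CY r (n + (r + 1)))).sum_add_tsum_nat_add']
  have e1 : ∑ s ∈ range (r + 1), FF C1 CY r s =
      ENNReal.ofReal (C1 * ((r : ℝ) + 1) ^ (-(3 / 2) : ℝ)) := by
    have : ∀ s ∈ range (r + 1), FF C1 CY r s =
        ENNReal.ofReal (C1 * ((r : ℝ) + 1) ^ (-(5 / 2) : ℝ)) := by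
      intro s hs
      rw [mem_range] at hs
      unfold FF; rw [if_pos (by omega)]
    rw [Finset.sum_congr rfl this, Finset.sum_const, Finset.card_range, nsmul_eq_mul,
      ← ENNReal.ofReal_natCast, ← ENNReal.ofReal_mul (by positivity)]
    congr 1
    rw [x3_eq r]; push_cast; ring
  have e2 : ∑' s, FF C1 CY r (s + (r + 1)) ≤
      ENNReal.ofReal (CY * ((r : ℝ) + 1) ^ (-(3 / 2) : ℝ)) := by
    have : ∀ s, FF C1 CY r (s + (r + 1)) = ENNReal.ofReal CY *
        ENNReal.ofReal ((((s + (r + 1) : ℕ) : ℝ) + 1) ^ (-(5 / 2) : ℝ)) := by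
      intro s
      unfold FF; rw [if_neg (by omega), ENNReal.ofReal_mul h2]
    simp only [this]
    rw [ENNReal.tsum_mul_left, ENNReal.ofReal_mul h2]
    refine mul_le_mul' le_rfl ?_
    have := tail_sum_le (L := r + 1) (by omega)
    push_cast at this ⊢
    exact this
  calc _ ≤ ENNReal.ofReal (C1 * ((r : ℝ) + 1) ^ (-(3 / 2) : ℝ)) +
        ENNReal.ofReal (CY * ((r : ℝ) + 1) ^ (-(3 / 2) : ℝ)) := add_le_add e1.le e2
    _ = _ := by
        rw [← ENNReal.ofReal_add (by positivity) (by positivity)]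
        congr 1; ring

lemma beta_sq (hm : 1 ≤ m) (γ : ℝ) (x : ℝ≥0∞) :
    ENNReal.ofReal ((γ / m) ^ 2) * ∑ _l : Fin m, ∑ _l' : Fin m, x = ENNReal.ofReal (γ ^ 2) * x := by
  have hm0 : (0 : ℝ) < m := by exact_mod_cast hm
  rw [Finset.sum_const, Finset.sum_const, Finset.card_univ, Fintype.card_fin, nsmul_eq_mul,
    nsmul_eq_mul, ← mul_assoc, ← mul_assoc, ← ENNReal.ofReal_natCast,
    ← ENNReal.ofReal_mul (by positivity), ← ENNReal.ofReal_mul (by positivity)]
  congr 2
  field_simp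

lemma Jf_le (hQ : TrapLaw Q CY CY2) (hm : 1 ≤ m) (T : ℕ) (c : ℕ → Fin m → Fin d → ℤ) (j : ℕ)
    (x : Fin d → ℤ) (e : Fin m → Fin d → ℤ) :
    Jf Q (γ / m) T c j x e ≤ ENNReal.ofReal (γ ^ 2) * (ENNReal.ofReal (2 * CY) * zet) := by
  have hCY := hQ.one_le
  have h1 : Jf Q (γ / m) T c j x e ≤ ENNReal.ofReal ((γ / m) ^ 2) * ∑ i' ∈ range T,
      ∑ _l : Fin m, ∑ _l' : Fin m,
        ENNReal.ofReal (CY * ((dst i' j : ℝ) + 1) ^ (-(5 / 2) : ℝ)) := by
    unfold Jf
    exact mul_le_mul' le_rfl (Finset.sum_le_sum fun i' _ => Finset.sum_le_sum fun l _ =>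
      Finset.sum_le_sum fun l' _ => pr_le hQ i' j l' l _)
  refine h1.trans ?_
  rw [Finset.mul_sum]
  simp only [beta_sq hm]
  rw [← Finset.mul_sum]
  refine mul_le_mul' le_rfl ?_
  refine (sum_dst_le (fun s => ENNReal.ofReal (CY * ((s : ℝ) + 1) ^ (-(5 / 2) : ℝ))) j T).trans ?_
  have h2 : ∑' s : ℕ, ENNReal.ofReal (CY * ((s : ℝ) + 1) ^ (-(5 / 2) : ℝ)) ≤
      ENNReal.ofReal CY * zet := by
    unfold zet
    rw [← ENNReal.tsum_mul_left]
    refine ENNReal.tsum_le_tsum fun s => ?_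
    rw [← ENNReal.ofReal_mul (by positivity)]
    apply ENNReal.ofReal_le_ofReal
    have : ((s : ℝ) + 1) ^ (-(5 / 2) : ℝ) ≤ ((s : ℝ) + 1) ^ (-(3 / 2) : ℝ) :=
      Real.rpow_le_rpow_of_exponent_le (by
        have : (0 : ℝ) ≤ s := Nat.cast_nonneg s
        linarith) (by norm_num)
    gcongr
  calc _ ≤ 2 * (ENNReal.ofReal CY * zet) := mul_le_mul' le_rfl h2
    _ = _ := by
        rw [ENNReal.ofReal_mul (by norm_num), ← mul_assoc]
        norm_num

lemma nuJ_le_one (hQ : TrapLaw Q CY CY2) (P : Par m ν γ θ CY) (T : ℕ)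
    (c : ℕ → Fin m → Fin d → ℤ) (j : ℕ) (x : Fin d → ℤ) (e : Fin m → Fin d → ℤ) :
    ENNReal.ofReal ν * Jf Q (γ / m) T c j x e ≤ 1 := by
  have hCY := hQ.one_le
  have hν := P.hν
  calc ENNReal.ofReal ν * Jf Q (γ / m) T c j x e
      ≤ ENNReal.ofReal ν * (ENNReal.ofReal (γ ^ 2) * (ENNReal.ofReal (2 * CY) * zet)) :=
        mul_le_mul' le_rfl (Jf_le hQ P.hm T c j x e)
    _ = ENNReal.ofReal (2 * ((ν * γ ^ 2) * CY)) * zet := by
        rw [← mul_assoc, ← mul_assoc, ← ENNReal.ofReal_mul hν,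
          ← ENNReal.ofReal_mul (by positivity)]
        congr 2; ring
    _ ≤ ENNReal.ofReal (2 * (θ * CY)) * zet := by
        refine mul_le_mul' (ENNReal.ofReal_le_ofReal ?_) le_rfl
        have := P.hθ
        gcongr
    _ ≤ 1 / 128 := P.h128
    _ ≤ 1 := by
        rw [one_div, ENNReal.inv_le_one]; norm_num

lemma Jf_ne_top (hQ : TrapLaw Q CY CY2) (hm : 1 ≤ m) (T : ℕ) (c : ℕ → Fin m → Fin d → ℤ) (j : ℕ)
    (x : Fin d → ℤ) (e : Fin m → Fin d → ℤ) : Jf Q (γ / m) T c j x e ≠ ⊤ :=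
  ne_top_of_le_ne_top (ENNReal.mul_ne_top ENNReal.ofReal_ne_top
    (ENNReal.mul_ne_top ENNReal.ofReal_ne_top zet_ne_top)) (Jf_le hQ hm T c j x e)

lemma measurable_Jf (Q : Measure (ℕ → Fin m → Fin d → ℤ)) (β : ℝ) (T : ℕ)
    (c : ℕ → Fin m → Fin d → ℤ) (j : ℕ) (x : Fin d → ℤ) : Measurable (Jf Q β T c j x) := by
  unfold Jf
  refine Measurable.const_mul ?_ _
  refine Finset.measurable_fun_sum _ fun i' _ => Finset.measurable_fun_sum _ fun l _ =>
    Finset.measurable_fun_sum _ fun l' _ => ?_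
  have h1 : Measurable fun e : Fin m → Fin d → ℤ => x + ipos e l - pos c i' l' :=
    (measurable_const.add (measurable_ipos l)).sub measurable_const
  exact (Measurable.of_discrete (f := fun z : Fin d → ℤ => pr Q i' l' j l z)).comp h1

/-- the constant in the local bound -/
noncomputable def Cone (CX C0 : ℝ) : ℝ := 12 * CX + 2 * C0

/-- property of the constant `C0` -/
def TruncC (C0 : ℝ) : Prop := 0 < C0 ∧ ∀ n : ℕ, ∃ L : ℕ, 1 ≤ L ∧ n ^ 2 ≤ L ^ 3 ∧
      Real.exp (-(n / (16 * L))) ≤ C0 * ((n : ℝ) + 1) ^ (-(5 / 2) : ℝ)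

variable [IsProbabilityMeasure Q] {μ : Measure (Fin m → Fin d → ℤ)} [IsProbabilityMeasure μ]
  {K : ℝ≥0∞} {CX C0 : ℝ}

lemma disc_local (hQ : TrapLaw Q CY CY2) (P : Par m ν γ θ CY) (hμ : WalkLaw μ K CX)
    (hC0 : TruncC C0) (i j : ℕ) (z : Fin d → ℤ) :
    ∫⁻ b, (mkSys hQ P).w i j b * (if (mkDisp hQ P hμ).sm i j b = z then 1 else 0) ∂PP μ ≤
      ENNReal.ofReal (Cone CX C0 * (((j - i : ℕ) : ℝ) + 1) ^ (-(5 / 2) : ℝ)) *
        (mkSys hQ P).A μ i j := by
  have hCY := hQ.one_le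
  have hθ0 := P.θ_nonneg
  refine (mkDisp hQ P hμ).local_bound (CX := CX) (C0 := C0) hμ.nonneg hμ.loc hC0 ?_ ?_ i j z
  · have : ∑' s : ℕ, ((s : ℝ≥0∞) + 1) * (mkSys hQ P).r s =
        ENNReal.ofReal (2 * (θ * CY)) * zet := tsum_rs (by positivity)
    rw [this]
    refine P.h128.trans ?_
    gcongr
    norm_num
  · intro n L hL h
    exact tail_rs (by positivity) P.h4 n L hL h

lemma disc_pair (hQ : TrapLaw Q CY CY2) (P : Par m ν γ θ CY) (hμ : WalkLaw μ K CX)
    (hC0 : TruncC C0) {i j : ℕ} (x X' : Fin d → ℤ) (i' : ℕ) (l l' : Fin m) :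
    ∫⁻ b, (mkSys hQ P).w i j b *
      pr Q i' l' j l (x + (mkDisp hQ P hμ).sm i j b + ipos (b j) l - X') ∂PP μ ≤
      FF (Cone CX C0) CY (j - i) (dst i' j) * (mkSys hQ P).A μ i j := by
  set S := mkSys hQ P with hS
  set X := mkDisp hQ P hμ with hX
  by_cases hr : dst i' j ≤ j - i
  · -- local bound
    have hFF : FF (Cone CX C0) CY (j - i) (dst i' j) =
        ENNReal.ofReal (Cone CX C0 * (((j - i : ℕ) : ℝ) + 1) ^ (-(5 / 2) : ℝ)) := by
      unfold FF; rw [if_pos hr]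
    rw [hFF]
    set C := ENNReal.ofReal (Cone CX C0 * (((j - i : ℕ) : ℝ) + 1) ^ (-(5 / 2) : ℝ)) *
        S.A μ i j with hC
    have hloc : ∀ z, ∫⁻ b, S.w i j b * (if X.sm i j b = z then 1 else 0) ∂PP μ ≤ C :=
      disc_local hQ P hμ hC0 i j
    have hind := local_indep X hloc (measurable_ipos l)
    set D : (ℕ → Fin m → Fin d → ℤ) → Fin d → ℤ := fun b' => pos b' j l - pos b' i' l' with hD
    have hmD : Measurable D := (measurable_pos j l).sub (measurable_pos i' l')
    set G : (ℕ → Fin m → Fin d → ℤ) → Fin d → ℤ := fun b => X.sm i j b + ipos (b j) l with hG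
    have hmG : Measurable G := (X.meas_sm i j).add
      ((measurable_ipos l).comp (measurable_pi_apply j))
    have hpr : ∀ b, pr Q i' l' j l (x + X.sm i j b + ipos (b j) l - X') =
        ∫⁻ b', (if G b = D b' - x + X' then (1 : ℝ≥0∞) else 0) ∂Q := by
      intro b
      have hset : MeasurableSet {b' | D b' = x + X.sm i j b + ipos (b j) l - X'} :=
        hmD (measurableSet_singleton _)
      have : (fun b' => (if G b = D b' - x + X' then (1 : ℝ≥0∞) else 0)) =
          Set.indicator {b' | D b' = x + X.sm i j b + ipos (b j) l - X'} 1 := by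
        funext b'
        rw [Set.indicator_apply]
        have : G b = D b' - x + X' ↔
            b' ∈ {b' | D b' = x + X.sm i j b + ipos (b j) l - X'} := by
          show X.sm i j b + ipos (b j) l = D b' - x + X' ↔
            D b' = x + X.sm i j b + ipos (b j) l - X'
          constructor
          · intro h; linear_combination -h
          · intro h; linear_combination -h
        simp only [this, Pi.one_apply]
      rw [this, lintegral_indicator_one hset]
      rfl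
    have hmind : Measurable fun p : (ℕ → Fin m → Fin d → ℤ) × (ℕ → Fin m → Fin d → ℤ) =>
        (if G p.1 = D p.2 - x + X' then (1 : ℝ≥0∞) else 0) := by
      have h1 : Measurable fun p : (ℕ → Fin m → Fin d → ℤ) × (ℕ → Fin m → Fin d → ℤ) =>
          G p.1 - (D p.2 - x + X') :=
        (hmG.comp measurable_fst).sub (((hmD.comp measurable_snd).sub measurable_const).add
          measurable_const)
      have h2 := (Measurable.of_discrete
        (f := fun z : Fin d → ℤ => if z = 0 then (1 : ℝ≥0∞) else 0)).comp h1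
      have h3 : (fun p : (ℕ → Fin m → Fin d → ℤ) × (ℕ → Fin m → Fin d → ℤ) =>
          (if G p.1 = D p.2 - x + X' then (1 : ℝ≥0∞) else 0)) =
          (fun z : Fin d → ℤ => if z = 0 then (1 : ℝ≥0∞) else 0) ∘
            (fun p : (ℕ → Fin m → Fin d → ℤ) × (ℕ → Fin m → Fin d → ℤ) =>
              G p.1 - (D p.2 - x + X')) := by
        funext p
        simp only [Function.comp_apply, sub_eq_zero]
      rw [h3]
      exact h2
    have hmind1 : ∀ b, Measurable fun b' : ℕ → Fin m → Fin d → ℤ =>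
        (if G b = D b' - x + X' then (1 : ℝ≥0∞) else 0) := fun b =>
      hmind.comp (measurable_const.prodMk measurable_id)
    have hmjoint : Measurable fun p : (ℕ → Fin m → Fin d → ℤ) × (ℕ → Fin m → Fin d → ℤ) =>
        S.w i j p.1 * (if G p.1 = D p.2 - x + X' then (1 : ℝ≥0∞) else 0) :=
      ((S.meas_w i j).comp measurable_fst).mul hmind
    calc ∫⁻ b, S.w i j b * pr Q i' l' j l (x + X.sm i j b + ipos (b j) l - X') ∂PP μ
        = ∫⁻ b, ∫⁻ b', S.w i j b * (if G b = D b' - x + X' then (1 : ℝ≥0∞) else 0) ∂Q ∂PP μ := by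
          refine lintegral_congr fun b => ?_
          rw [hpr b, lintegral_const_mul _ (hmind1 b)]
      _ = ∫⁻ b', ∫⁻ b, S.w i j b * (if G b = D b' - x + X' then (1 : ℝ≥0∞) else 0) ∂PP μ ∂Q :=
          lintegral_lintegral_swap hmjoint.aemeasurable
      _ ≤ ∫⁻ _, C ∂Q := lintegral_mono fun b' => hind _
      _ = C := by simp
  · have hFF : FF (Cone CX C0) CY (j - i) (dst i' j) =
        ENNReal.ofReal (CY * ((dst i' j : ℝ) + 1) ^ (-(5 / 2) : ℝ)) := by
      unfold FF; rw [if_neg hr]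
    rw [hFF]
    calc _ ≤ ∫⁻ b, ENNReal.ofReal (CY * ((dst i' j : ℝ) + 1) ^ (-(5 / 2) : ℝ)) *
          S.w i j b ∂PP μ := by
          refine lintegral_mono fun b => ?_
          simp only
          rw [mul_comm]
          exact mul_le_mul' (pr_le hQ i' j l' l _) le_rfl
      _ = _ := by rw [lintegral_const_mul _ (S.meas_w i j)]; rfl

end Pool.Agent.Helper83.Traps
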